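import Mathlib

/-!
# Linear independence of `x^u b` for a regular sequence `x`
-/

namespace Pool.Agent.Helper40.MukN

open Finset

variable {K : Type*} [Field K] {R : Type*} [CommRing R] [Algebra K R] {β : Type*}

/-- the ideal of the first `i` elements -/
def Id (x : ℕ → R) (i : ℕ) : Ideal R := Ideal.span (x '' {j | j < i})

/-- monomials -/
noncomputable def xmon (x : ℕ → R) (u : ℕ →₀ ℕ) : R := u.prod (fun j k => x j ^ k)

lemma xmon_add (x : ℕ → R) (u v : ℕ →₀ ℕ) : xmon x (u + v) = xmon x u * xmon x v := by
  unfold xmon
  exact Finsupp.prod_add_index' (fun _ => pow_zero _) (fun _ _ _ => pow_add _ _ _)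

lemma xmon_single (x : ℕ → R) (j : ℕ) : xmon x (Finsupp.single j 1) = x j := by
  unfold xmon
  rw [Finsupp.prod_single_index] <;> simp

lemma xmon_zero (x : ℕ → R) : xmon x 0 = 1 := by
  unfold xmon; exact Finsupp.prod_zero_index

lemma Id_mono (x : ℕ → R) {i j : ℕ} (h : i ≤ j) : Id x i ≤ Id x j :=
  Ideal.span_mono (Set.image_mono (fun _ hk => lt_of_lt_of_le hk h))

lemma mem_Id (x : ℕ → R) (i : ℕ) : x i ∈ Id x (i + 1) :=
  Ideal.subset_span ⟨i, by simp, rfl⟩

variable (K) in
/-- combination -/
noncomputable def lc (x : ℕ → R) (b : β → R) : ((ℕ →₀ ℕ) × β →₀ K) →ₗ[K] R :=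
  Finsupp.linearCombination K (fun q => xmon x q.1 * b q.2)

/-- shift of exponents -/
noncomputable def shf (i : ℕ) (q : (ℕ →₀ ℕ) × β) : (ℕ →₀ ℕ) × β := (q.1 + Finsupp.single i 1, q.2)

lemma shf_inj (i : ℕ) : Function.Injective (shf (β := β) i) := by
  rintro ⟨u, b⟩ ⟨v, d⟩ h
  simp only [shf, Prod.mk.injEq, add_left_inj] at h
  exact Prod.ext h.1 h.2

lemma lc_map (x : ℕ → R) (b : β → R) (i : ℕ) (c : (ℕ →₀ ℕ) × β →₀ K) :
    lc K x b (c.mapDomain (shf i)) = x i * lc K x b c := by
  unfold lc
  rw [Finsupp.linearCombination_mapDomain]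
  induction c using Finsupp.induction_linear with
  | zero => simp
  | add c d hc hd => rw [map_add, map_add, hc, hd, mul_add]
  | single q a =>
    rw [Finsupp.linearCombination_single, Finsupp.linearCombination_single]
    simp only [Function.comp, shf, xmon_add, xmon_single]
    rw [mul_smul_comm]
    congr 1
    ring

/-- regular sequence -/
def RegSeq (x : ℕ → R) (n : ℕ) : Prop := ∀ i < n, ∀ r : R, x i * r ∈ Id x i → r ∈ Id x i

theorem indep_aux {x : ℕ → R} {n : ℕ} (hx : RegSeq x n) {b : β → R}
    (hb : ∀ c : β →₀ K, Finsupp.linearCombination K b c ∈ Id x n → c = 0) :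
    ∀ d i : ℕ, i + d = n → ∀ c : (ℕ →₀ ℕ) × β →₀ K,
      (∀ q, c q ≠ 0 → ∀ j, q.1 j ≠ 0 → i ≤ j ∧ j < n) → lc K x b c ∈ Id x i → c = 0 := by
  classical
  intro d
  induction d with
  | zero =>
    intro i hi c hc hcI
    have hin : i = n := by omega
    subst hin
    have hu : ∀ q, c q ≠ 0 → q.1 = 0 := by
      intro q hq
      ext j
      by_contra h
      have := hc q hq j h
      omega
    -- `c` comes from `β →₀ K`
    set c' : β →₀ K := c.mapDomain Prod.snd with hc'
    have h1 : c = c'.mapDomain (fun t => ((0 : ℕ →₀ ℕ), t)) := by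
      rw [hc', ← Finsupp.mapDomain_comp]
      conv_lhs => rw [← Finsupp.mapDomain_id (v := c)]
      apply Finsupp.mapDomain_congr
      intro q hq
      have := hu q (Finsupp.mem_support_iff.mp hq)
      simp only [id, Function.comp]
      exact Prod.ext this rfl
    have h2 : lc K x b c = Finsupp.linearCombination K b c' := by
      rw [h1]
      unfold lc
      rw [Finsupp.linearCombination_mapDomain]
      congr 1
      congr 1
      funext t
      simp [xmon_zero]
    rw [h2] at hcI
    have h3 := hb c' hcI
    rw [h1, h3, Finsupp.mapDomain_zero]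
  | succ d ih =>
    intro i hi
    have main : ∀ N : ℕ, ∀ c : (ℕ →₀ ℕ) × β →₀ K,
        (∀ q, c q ≠ 0 → ∀ j, q.1 j ≠ 0 → i ≤ j ∧ j < n) → (∀ q, c q ≠ 0 → q.1 i ≤ N) →
        lc K x b c ∈ Id x i → c = 0 := by
      intro N
      induction N with
      | zero =>
        intro c hc hN hcI
        apply ih (i + 1) (by omega) c _ (Id_mono x (Nat.le_succ i) hcI)
        intro q hq j hj
        have h1 := hc q hq j hj
        have h2 : j ≠ i := by
          rintro rfl
          have := hN q hq
          omega
        omega
      | succ N ihN =>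
        intro c hc hN hcI
        set c0 := c.filter (fun q => q.1 i = 0) with hc0
        set c1 := c.filter (fun q => ¬ q.1 i = 0) with hc1
        set c' := c1.comapDomain (shf i) (shf_inj i).injOn with hc'
        have hsum : c = c0 + c1 := (Finsupp.filter_add_filter_not c _).symm
        have hmap : c'.mapDomain (shf i) = c1 := by
          rw [hc']
          apply Finsupp.mapDomain_comapDomain _ (shf_inj i)
          intro q hq
          rw [Finset.mem_coe, hc1, Finsupp.support_filter, Finset.mem_filter] at hq
          refine ⟨(q.1 - Finsupp.single i 1, q.2), ?_⟩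
          unfold shf
          refine Prod.ext ?_ rfl
          ext j
          simp only [Finsupp.coe_add, Finsupp.coe_tsub, Pi.add_apply, Pi.sub_apply]
          by_cases hj : i = j
          · subst hj
            simp only [Finsupp.single_eq_same]
            have := hq.2
            omega
          · rw [Finsupp.single_apply, if_neg hj]; omega
        have hlc : lc K x b c = lc K x b c0 + x i * lc K x b c' := by
          rw [← lc_map, hmap, ← map_add, ← hsum]
        have h0 : c0 = 0 := by
          apply ih (i + 1) (by omega) c0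
          · intro q hq j hj
            have hq' : q ∈ c0.support := Finsupp.mem_support_iff.mpr hq
            rw [hc0, Finsupp.support_filter, Finset.mem_filter] at hq'
            have h1 := hc q (Finsupp.mem_support_iff.mp hq'.1) j hj
            have h2 : j ≠ i := by
              rintro rfl
              exact hj hq'.2
            omega
          · have : lc K x b c0 = lc K x b c - x i * lc K x b c' := by rw [hlc]; ring
            rw [this]
            apply Ideal.sub_mem _ (Id_mono x (Nat.le_succ i) hcI)
            exact Ideal.mul_mem_right _ _ (mem_Id x i)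
        have h1 : c' = 0 := by
          apply ihN c'
          · intro q hq j hj
            have hq1 : c1 (shf i q) ≠ 0 := hq
            have hq' : shf i q ∈ c1.support := Finsupp.mem_support_iff.mpr hq1
            rw [hc1, Finsupp.support_filter, Finset.mem_filter] at hq'
            apply hc _ (Finsupp.mem_support_iff.mp hq'.1) j
            simp only [shf, Finsupp.coe_add, Pi.add_apply]
            omega
          · intro q hq
            have hq1 : c1 (shf i q) ≠ 0 := hq
            have hq' : shf i q ∈ c1.support := Finsupp.mem_support_iff.mpr hq1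
            rw [hc1, Finsupp.support_filter, Finset.mem_filter] at hq'
            have := hN _ (Finsupp.mem_support_iff.mp hq'.1)
            simp only [shf, Finsupp.coe_add, Pi.add_apply, Finsupp.single_eq_same] at this
            omega
          · apply hx i (by omega)
            rw [hlc, h0, map_zero, zero_add] at hcI
            exact hcI
        rw [hsum, h0, zero_add, ← hmap, h1, Finsupp.mapDomain_zero]
    intro c hc hcI
    apply main (c.support.sup (fun q => q.1 i)) c hc _ hcI
    intro q hq
    exact Finset.le_sup (f := fun q : (ℕ →₀ ℕ) × β => q.1 i) (Finsupp.mem_support_iff.mpr hq)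

/-- **Independence.** -/
theorem indep {x : ℕ → R} {n : ℕ} (hx : RegSeq x n) {b : β → R}
    (hb : ∀ c : β →₀ K, Finsupp.linearCombination K b c ∈ Id x n → c = 0)
    (c : (ℕ →₀ ℕ) × β →₀ K) (hc : ∀ q, c q ≠ 0 → ∀ j, q.1 j ≠ 0 → j < n)
    (h0 : lc K x b c = 0) : c = 0 :=
  indep_aux hx hb n 0 (by omega) c (fun q hq j hj => ⟨by omega, hc q hq j hj⟩)
    (by rw [h0]; exact Ideal.zero_mem _)

end Pool.Agent.Helper40.MukN
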