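import Pool.Agent.Helper40.MukN.Filt
import Pool.Agent.Helper40.MukN.Reg

/-!
# The algebraic form of the exactness theorem
-/

namespace Pool.Agent.Helper40.MukN

open Finset

variable {K : Type*} [Field K] {R : Type*} [CommRing R] [Algebra K R]

/-- the algebraic data -/
structure AData (𝒜 : ℤ → Submodule K R) (x : ℕ → R) (n c : ℕ) (J : ℕ → ℤ → Submodule K R)
    (θ : ℕ → R →ₗ[K] K) (χ : ℕ → R →ₐ[K] K) (pr : ℤ → R →ₗ[K] R) (f : ℤ) : Prop where
  one : (1 : R) ∈ 𝒜 0
  mul : ∀ a b r s, r ∈ 𝒜 a → s ∈ 𝒜 b → r * s ∈ 𝒜 (a + b)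
  neg : ∀ m < 0, ∀ r ∈ 𝒜 m, r = 0
  hx : ∀ j < n, x j ∈ 𝒜 1
  reg : RegSeq x n
  J0 : ∀ m, 𝒜 m ≤ J 0 m
  JA : ∀ i m, J i m ≤ 𝒜 m
  Jle : ∀ i m, J (i + 1) m ≤ J i m
  Jmul : ∀ i < c, ∀ a b s r, s ∈ 𝒜 a → r ∈ J i b → s * r ∈ J i (a + b)
  Jc : ∀ m r, r ∈ J c m → ∃ s : ℕ → R, (∀ j, s j ∈ 𝒜 (m - 1)) ∧ r = ∑ j ∈ range n, x j * s j
  θ0 : ∀ i < c, ∀ m, ∀ r ∈ J i m, θ i r = 0 → r ∈ J (i + 1) m
  θJ : ∀ i < c, ∀ m, ∀ r ∈ J (i + 1) m, θ i r = 0
  θmul : ∀ i < c, ∀ a b s r, s ∈ 𝒜 a → r ∈ J i b → θ i (s * r) = χ i s * θ i r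
  χx : ∀ i < c, ∀ j < n, χ i (x j) = 0
  dual : ∀ i < c, ∀ w, (∀ r ∈ J i w, θ i r = 0) → ∃ s ∈ 𝒜 (f - w), χ i s ≠ 0
  pr1 : ∀ m, ∀ r ∈ 𝒜 m, pr m r = r
  pr2 : ∀ m m', m ≠ m' → ∀ r ∈ 𝒜 m', pr m r = 0
  prI : ∀ m, ∀ r ∈ Id x n, pr m r ∈ J c m

variable {𝒜 : ℤ → Submodule K R} {x : ℕ → R} {n c : ℕ} {J : ℕ → ℤ → Submodule K R}
    {θ : ℕ → R →ₗ[K] K} {χ : ℕ → R →ₐ[K] K} {pr : ℤ → R →ₗ[K] R} {f : ℤ}

/-- the module of level `i` -/
def MM (J : ℕ → ℤ → Submodule K R) (θ : ℕ → R →ₗ[K] K) (i : ℕ) : Set ℤ :=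
  {w | ∃ r ∈ J i w, θ i r ≠ 0}

/-- the semigroup of level `i` -/
def SS (𝒜 : ℤ → Submodule K R) (χ : ℕ → R →ₐ[K] K) (i : ℕ) : Set ℤ :=
  {w | ∃ s ∈ 𝒜 w, χ i s ≠ 0}

open Classical in
/-- the basis elements -/
noncomputable def bb (J : ℕ → ℤ → Submodule K R) (θ : ℕ → R →ₗ[K] K) (i : ℕ) (w : ℤ) : R :=
  if h : w ∈ MM J θ i then (θ i h.choose)⁻¹ • h.choose else 0

lemma bb_mem {i : ℕ} {w : ℤ} (h : w ∈ MM J θ i) : bb J θ i w ∈ J i w := by
  unfold bb
  rw [dif_pos h]
  exact Submodule.smul_mem _ _ h.choose_spec.1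

lemma bb_θ {i : ℕ} {w : ℤ} (h : w ∈ MM J θ i) : θ i (bb J θ i w) = 1 := by
  unfold bb
  rw [dif_pos h, map_smul, smul_eq_mul, inv_mul_cancel₀ h.choose_spec.2]

lemma Jle_of_le (H : AData 𝒜 x n c J θ χ pr f) {i j : ℕ} (h : i ≤ j) (m : ℤ) :
    J j m ≤ J i m := by
  induction j, h using Nat.le_induction with
  | base => exact le_rfl
  | succ j _ ih => exact (H.Jle j m).trans ih

lemma pair_of (H : AData 𝒜 x n c J θ χ pr f) {i : ℕ} (hi : i < c) :
    IsPair (SS 𝒜 χ i) (MM J θ i) f where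
  zero := ⟨1, H.one, by simp⟩
  add := by
    rintro s t ⟨r, hr, hr0⟩ ⟨r', hr', hr0'⟩
    exact ⟨r * r', H.mul _ _ _ _ hr hr', by rw [map_mul]; exact mul_ne_zero hr0 hr0'⟩
  nonneg := by
    rintro s ⟨r, hr, hr0⟩
    by_contra h
    rw [H.neg s (by omega) r hr, map_zero] at hr0
    exact hr0 rfl
  addM := by
    rintro s m ⟨r, hr, hr0⟩ ⟨r', hr', hr0'⟩
    exact ⟨r * r', H.Jmul i hi _ _ _ _ hr hr', by
      rw [H.θmul i hi _ _ _ _ hr hr']; exact mul_ne_zero hr0 hr0'⟩
  nonnegM := by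
    rintro m ⟨r, hr, hr0⟩
    by_contra h
    rw [H.neg m (by omega) r (H.JA _ _ hr), map_zero] at hr0
    exact hr0 rfl
  dual := by
    intro w hw
    apply H.dual i hi w
    intro r hr
    by_contra h
    exact hw ⟨r, hr, h⟩

/-- the span of the basis elements of degree `m` and level `≥ i` -/
noncomputable def Bs (J : ℕ → ℤ → Submodule K R) (θ : ℕ → R →ₗ[K] K) (c i : ℕ) (m : ℤ) :
    Submodule K R :=
  Submodule.span K {r | ∃ k, i ≤ k ∧ k < c ∧ m ∈ MM J θ k ∧ r = bb J θ k m}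

lemma J_le_Bs (H : AData 𝒜 x n c J θ χ pr f) (m : ℤ) :
    ∀ d i : ℕ, i + d = c → J i m ≤ Bs J θ c i m ⊔ J c m := by
  intro d
  induction d with
  | zero =>
    intro i hi
    have : i = c := by omega
    subst this
    exact le_sup_right
  | succ d ih =>
    intro i hi r hr
    have h1 := ih (i + 1) (by omega)
    have h2 : Bs J θ c (i + 1) m ≤ Bs J θ c i m := by
      apply Submodule.span_mono
      rintro _ ⟨k, h1, h2, h3, rfl⟩
      exact ⟨k, by omega, h2, h3, rfl⟩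
    have h3 : J (i + 1) m ≤ Bs J θ c i m ⊔ J c m := h1.trans (sup_le_sup_right h2 _)
    by_cases h0 : θ i r = 0
    · exact h3 (H.θ0 i (by omega) m r hr h0)
    · have hm : m ∈ MM J θ i := ⟨r, hr, h0⟩
      have h4 : r - θ i r • bb J θ i m ∈ J (i + 1) m := by
        apply H.θ0 i (by omega) m
        · exact Submodule.sub_mem _ hr (Submodule.smul_mem _ _ (bb_mem hm))
        · rw [map_sub, map_smul, bb_θ hm]; simp
      have h5 : r = (r - θ i r • bb J θ i m) + θ i r • bb J θ i m := by abel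
      rw [h5]
      apply Submodule.add_mem _ (h3 h4)
      apply Submodule.mem_sup_left
      apply Submodule.smul_mem
      exact Submodule.subset_span ⟨i, le_rfl, by omega, hm, rfl⟩

/-! ### the basis -/

/-- exponents of the variables -/
noncomputable def uu' (g : ℕ →₀ ℤ) : ℕ →₀ ℕ :=
  (g.comapDomain (fun j => j + 1) (fun _ _ _ _ h => Nat.succ_injective h)).mapRange Int.toNat rfl

noncomputable def uu (g : G) : ℕ →₀ ℕ := uu' g

lemma uu_apply (g : G) (j : ℕ) : uu g j = (co (j + 1) g).toNat := rfl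

lemma uu_add {g h : G} (hg : ∀ i, 0 ≤ co i g) (hh : ∀ i, 0 ≤ co i h) :
    uu (g + h) = uu g + uu h := by
  ext j
  rw [Finsupp.add_apply, uu_apply, uu_apply, uu_apply, map_add]
  exact Int.toNat_add (hg _) (hh _)

lemma uu_ep (j : ℕ) : uu (ep (j + 1)) = Finsupp.single j 1 := by
  ext k
  rw [uu_apply, co_ep, Finsupp.single_apply]
  by_cases h : j = k
  · subst h; simp
  · rw [if_neg (by omega), if_neg h]; rfl

lemma uu_ep0 (m : ℤ) : uu (m • ep 0) = 0 := by
  ext k
  rw [uu_apply, map_zsmul, co_ep_ne (by omega)]; simp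

/-- the basis of `R` -/
noncomputable def XX (x : ℕ → R) (J : ℕ → ℤ → Submodule K R) (θ : ℕ → R →ₗ[K] K) (a : Ix) : R :=
  xmon x (uu (kap a)) * bb J θ (lev a) (co 0 (kap a))

lemma xmon_mem (H : AData 𝒜 x n c J θ χ pr f) (u : ℕ →₀ ℕ) (hu : ∀ j, u j ≠ 0 → j < n) :
    xmon x u ∈ 𝒜 (u.sum (fun _ k => (k : ℤ))) := by
  induction u using Finsupp.induction_linear with
  | zero => rw [xmon_zero, Finsupp.sum_zero_index]; exact H.one
  | add u v hu' hv' =>
    rw [xmon_add, Finsupp.sum_add_index' (fun _ => rfl) (fun _ _ _ => by push_cast; ring)]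
    apply H.mul _ _ _ _ (hu' _) (hv' _)
    · intro j hj
      apply hu j
      simp only [Finsupp.coe_add, Pi.add_apply]
      omega
    · intro j hj
      apply hu j
      simp only [Finsupp.coe_add, Pi.add_apply]
      omega
  | single j k =>
    by_cases hk : k = 0
    · subst hk
      rw [Finsupp.single_zero, xmon_zero, Finsupp.sum_zero_index]; exact H.one
    · have hj : j < n := hu j (by simp [hk])
      rw [Finsupp.sum_single_index rfl]
      unfold xmon
      rw [Finsupp.prod_single_index (h := fun j k => x j ^ k) (pow_zero _)]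
      clear hu hk
      induction k with
      | zero => rw [pow_zero]; exact H.one
      | succ k ih =>
        rw [pow_succ]
        push_cast
        exact H.mul _ _ _ _ ih (H.hx j hj)

lemma dg_nv' {n : ℕ} (g : ℕ →₀ ℤ) (hg : ∀ i, n < i → g i = 0) :
    Finsupp.liftAddHom (fun _ : ℕ => AddMonoidHom.id ℤ) g = ∑ i ∈ range (n + 1), g i := by
  rw [Finsupp.liftAddHom_apply, Finsupp.sum_of_support_subset (s := range (n + 1)) g]
  · rfl
  · intro i hi
    rw [Finsupp.mem_support_iff] at hi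
    rw [Finset.mem_range]
    by_contra h
    exact hi (hg i (by omega))
  · intro i _; simp

lemma dg_nv {n : ℕ} {g : G} (hg : nv n g) : dg g = ∑ i ∈ range (n + 1), co i g := dg_nv' g hg

lemma uu_supp {n : ℕ} {g : G} (hg : nv n g) : ∀ j, uu g j ≠ 0 → j < n := by
  intro j hj
  by_contra h
  apply hj
  rw [uu_apply, hg (j + 1) (by omega)]; rfl

lemma uu_sum {n : ℕ} {g : G} (hg : nv n g) (h0 : ∀ i, 0 ≤ co i g) :
    (uu g).sum (fun _ k => (k : ℤ)) = xd g := by
  rw [xd_apply, dg_nv hg, Finset.sum_range_succ', add_sub_cancel_right,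
    Finsupp.sum_of_support_subset (s := range n) (uu g)]
  · apply Finset.sum_congr rfl
    intro j _
    rw [uu_apply]
    exact Int.toNat_of_nonneg (h0 _)
  · intro j hj
    rw [Finset.mem_range]
    exact uu_supp hg j (Finsupp.mem_support_iff.mp hj)
  · intro j _; simp

lemma XX_mem (H : AData 𝒜 x n c J θ χ pr f) {d : Ix} (hd : d ∈ Om (MM J θ) n c) :
    XX x J θ d ∈ 𝒜 (dg (kap d)) := by
  have h1 := xmon_mem H (uu (kap d)) (uu_supp hd.2.2)
  rw [uu_sum hd.2.2 hd.2.1.2] at h1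
  have h2 := H.JA _ _ (bb_mem hd.2.1.1)
  have h3 := H.mul _ _ _ _ h1 h2
  rw [xd_apply, sub_add_cancel] at h3
  exact h3

lemma x_FilR {j : ℕ} (hj : j < n) {m w : ℤ} {r : R}
    (hr : r ∈ FilR K (XX x J θ) (MM J θ) n c m w) :
    x j * r ∈ FilR K (XX x J θ) (MM J θ) n c (m + 1) (w + c) := by
  unfold FilR at hr
  induction hr using Submodule.span_induction with
  | zero => simp
  | add r s _ _ hr hs => rw [mul_add]; exact Submodule.add_mem _ hr hs
  | smul a r _ hr => rw [mul_smul_comm]; exact Submodule.smul_mem _ _ hr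
  | mem r hr =>
    obtain ⟨d, ⟨hd1, hd2, hd3⟩, rfl⟩ := hr
    apply Submodule.subset_span
    refine ⟨mk (ep (j + 1) + kap d) (lev d), ⟨⟨hd1.1, ⟨?_, fun i => ?_⟩, fun i hi => ?_⟩, ?_, ?_⟩, ?_⟩
    · rw [kap_mk, lev_mk, map_add, co_ep_ne (by omega), zero_add]; exact hd1.2.1.1
    · rw [kap_mk, map_add, co_ep]
      have := hd1.2.1.2 i
      split_ifs <;> omega
    · rw [kap_mk, map_add, co_ep_ne (by omega), hd1.2.2 i hi, add_zero]
    · rw [kap_mk, map_add, dg_ep, hd2]; ring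
    · rw [kap_mk, lev_mk, map_add, xd_apply (ep (j + 1)), dg_ep, co_ep_ne (by omega)]
      linarith
    · unfold XX
      rw [kap_mk, lev_mk, uu_add (fun i => by rw [co_ep]; split_ifs <;> norm_num) hd1.2.1.2,
        uu_ep, xmon_add, xmon_single, map_add, co_ep_ne (by omega), zero_add]
      ring

lemma FilR_mono {X : Ix → R} {Md : ℕ → Set ℤ} {m w w' : ℤ} (h : w ≤ w') :
    FilR K X Md n c m w' ≤ FilR K X Md n c m w := by
  apply Submodule.span_mono
  apply Set.image_mono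
  rintro d ⟨h1, h2, h3⟩
  exact ⟨h1, h2, h.trans h3⟩

lemma bb_eq_XX (x : ℕ → R) (J : ℕ → ℤ → Submodule K R) (θ : ℕ → R →ₗ[K] K) (i : ℕ) (m : ℤ) :
    bb J θ i m = XX x J θ (mk (m • ep 0) i) := by
  unfold XX
  rw [kap_mk, lev_mk, uu_ep0, xmon_zero, one_mul, map_zsmul, co_ep_self]
  simp

lemma A_le_FilR (H : AData 𝒜 x n c J θ χ pr f) :
    ∀ N : ℕ, ∀ m : ℤ, m < N → 𝒜 m ≤ FilR K (XX x J θ) (MM J θ) n c m 0 := by
  intro N
  induction N with
  | zero =>
    intro m hm r hr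
    rw [H.neg m (by exact_mod_cast hm) r hr]
    exact Submodule.zero_mem _
  | succ N ih =>
    intro m hm r hr
    have h1 := J_le_Bs H m c 0 (by omega) (H.J0 m hr)
    rw [Submodule.mem_sup] at h1
    obtain ⟨y, hy, z, hz, rfl⟩ := h1
    apply Submodule.add_mem
    · have : Bs J θ c 0 m ≤ FilR K (XX x J θ) (MM J θ) n c m 0 := by
        apply Submodule.span_le.mpr
        rintro _ ⟨k, h1, h2, h3, rfl⟩
        apply Submodule.subset_span
        refine ⟨mk (m • ep 0) k, ⟨⟨h2, ⟨?_, fun i => ?_⟩, fun i hi => ?_⟩, ?_, ?_⟩,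
          (bb_eq_XX x J θ k m).symm⟩
        · rw [kap_mk, lev_mk, map_zsmul, co_ep_self]; simpa using h3
        · rw [kap_mk, map_zsmul, co_ep]
          have h5 : 0 ≤ m := by
            by_contra h
            obtain ⟨r, hr, hr0⟩ := h3
            rw [H.neg m (by omega) r (H.JA _ _ hr), map_zero] at hr0
            exact hr0 rfl
          split_ifs <;> simp [h5]
        · rw [kap_mk, map_zsmul, co_ep_ne (by omega)]; simp
        · rw [kap_mk, map_zsmul, dg_ep]; simp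
        · rw [kap_mk, lev_mk, map_zsmul, xd_apply, dg_ep, co_ep_self]; simp
      exact this hy
    · obtain ⟨s, hs, rfl⟩ := H.Jc m z hz
      apply Submodule.sum_mem
      intro j hj
      have h2 := x_FilR (Finset.mem_range.mp hj) (ih (m - 1) (by push_cast at hm; omega) (hs j))
      rw [sub_add_cancel] at h2
      exact FilR_mono (by positivity) h2

lemma A_le_FilR' (H : AData 𝒜 x n c J θ χ pr f) (m : ℤ) :
    𝒜 m ≤ FilR K (XX x J θ) (MM J θ) n c m 0 :=
  A_le_FilR H (m.toNat + 1) m (by have := Int.self_le_toNat m; push_cast; omega)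

lemma J_le_FilR (H : AData 𝒜 x n c J θ χ pr f) {i : ℕ} (hi : i ≤ c) (m : ℤ) :
    J i m ≤ FilR K (XX x J θ) (MM J θ) n c m i := by
  intro r hr
  have h1 := J_le_Bs H m (c - i) i (by omega) hr
  rw [Submodule.mem_sup] at h1
  obtain ⟨y, hy, z, hz, rfl⟩ := h1
  apply Submodule.add_mem
  · have : Bs J θ c i m ≤ FilR K (XX x J θ) (MM J θ) n c m i := by
      apply Submodule.span_le.mpr
      rintro _ ⟨k, h1, h2, h3, rfl⟩
      apply Submodule.subset_span
      refine ⟨mk (m • ep 0) k, ⟨⟨h2, ⟨?_, fun i => ?_⟩, fun i hi => ?_⟩, ?_, ?_⟩,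
        (bb_eq_XX x J θ k m).symm⟩
      · rw [kap_mk, lev_mk, map_zsmul, co_ep_self]; simpa using h3
      · rw [kap_mk, map_zsmul, co_ep]
        have h5 : 0 ≤ m := by
          by_contra h
          obtain ⟨r, hr, hr0⟩ := h3
          rw [H.neg m (by omega) r (H.JA _ _ hr), map_zero] at hr0
          exact hr0 rfl
        split_ifs <;> simp [h5]
      · rw [kap_mk, map_zsmul, co_ep_ne (by omega)]; simp
      · rw [kap_mk, map_zsmul, dg_ep]; simp
      · rw [kap_mk, lev_mk, map_zsmul, xd_apply, dg_ep, co_ep_self]; simpa using h1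
    exact this hy
  · obtain ⟨s, hs, rfl⟩ := H.Jc m z hz
    apply Submodule.sum_mem
    intro j hj
    have h2 := x_FilR (Finset.mem_range.mp hj) (A_le_FilR' H (m - 1) (hs j))
    rw [sub_add_cancel] at h2
    exact FilR_mono (by push_cast; omega) h2

lemma xmon_FilR (u : ℕ →₀ ℕ) (hu : ∀ j, u j ≠ 0 → j < n) {m w : ℤ} {r : R}
    (hr : r ∈ FilR K (XX x J θ) (MM J θ) n c m w) :
    xmon x u * r ∈ FilR K (XX x J θ) (MM J θ) n c (m + u.sum (fun _ k => (k : ℤ)))
      (w + c * u.sum (fun _ k => (k : ℤ))) := by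
  induction u using Finsupp.induction_linear generalizing m w r with
  | zero =>
    rw [xmon_zero, Finsupp.sum_zero_index, one_mul, add_zero, mul_zero, add_zero]; exact hr
  | add u v hu' hv' =>
    rw [xmon_add, Finsupp.sum_add_index' (fun _ => rfl) (fun _ _ _ => by push_cast; ring), mul_assoc]
    have h1 := hv' (fun j hj => hu j (by simp only [Finsupp.coe_add, Pi.add_apply]; omega)) hr
    have h2 := hu' (fun j hj => hu j (by simp only [Finsupp.coe_add, Pi.add_apply]; omega)) h1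
    convert h2 using 2 <;> ring
  | single j k =>
    by_cases hk : k = 0
    · subst hk
      rw [Finsupp.single_zero, xmon_zero, Finsupp.sum_zero_index, one_mul, add_zero, mul_zero,
        add_zero]
      exact hr
    · have hj : j < n := hu j (by simp [hk])
      rw [Finsupp.sum_single_index rfl]
      unfold xmon
      rw [Finsupp.prod_single_index (h := fun j k => x j ^ k) (pow_zero _)]
      clear hu hk
      induction k with
      | zero => simpa using hr
      | succ k ih =>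
        rw [pow_succ', mul_assoc]
        push_cast
        have := x_FilR hj ih
        convert this using 2 <;> ring

end Pool.Agent.Helper40.MukN
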