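import Pool.Agent.Helper40.MukN.Alg

/-!
# The algebraic form of the exactness theorem, II
-/

namespace Pool.Agent.Helper40.MukN

open Finset

variable {K : Type*} [Field K] {R : Type*} [CommRing R] [Algebra K R]
  {𝒜 : ℤ → Submodule K R} {x : ℕ → R} {n c : ℕ} {J : ℕ → ℤ → Submodule K R}
    {θ : ℕ → R →ₗ[K] K} {χ : ℕ → R →ₐ[K] K} {pr : ℤ → R →ₗ[K] R} {f : ℤ}

/-- indices of the basis elements of `R/(x)` -/
def Bt (J : ℕ → ℤ → Submodule K R) (θ : ℕ → R →ₗ[K] K) (c : ℕ) :=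
  {q : ℕ × ℤ // q.1 < c ∧ q.2 ∈ MM J θ q.1}

lemma hb_indep (H : AData 𝒜 x n c J θ χ pr f) (v : Bt J θ c →₀ K)
    (hv : Finsupp.linearCombination K (fun q : Bt J θ c => bb J θ q.1.1 q.1.2) v ∈ Id x n) :
    v = 0 := by
  have key : ∀ i : ℕ, ∀ w : ℤ, ∀ h : i < c ∧ w ∈ MM J θ i, v ⟨(i, w), h⟩ = 0 := by
    intro i
    induction i using Nat.strong_induction_on with
    | _ i ih =>
      intro w h
      have h1 := H.prI w _ hv
      have h2 : θ i (pr w (Finsupp.linearCombination K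
          (fun q : Bt J θ c => bb J θ q.1.1 q.1.2) v)) = 0 :=
        H.θJ i h.1 w _ (Jle_of_le H h.1 w h1)
      rw [Finsupp.linearCombination_apply, Finsupp.sum, map_sum, map_sum,
        Finset.sum_eq_single ⟨(i, w), h⟩] at h2
      · rw [map_smul, map_smul, H.pr1 w _ (H.JA _ _ (bb_mem h.2)), bb_θ h.2] at h2
        simpa using h2
      · rintro ⟨⟨i', w'⟩, h'⟩ _ hne
        rw [map_smul, map_smul]
        by_cases hw : w = w'
        · subst hw
          rcases lt_trichotomy i' i with hlt | heq | hgt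
          · rw [ih i' hlt w h', zero_smul]
          · subst heq; exact absurd rfl hne
          · rw [H.pr1 w _ (H.JA _ _ (bb_mem h'.2)),
              H.θJ i h.1 w _ (Jle_of_le H hgt w (bb_mem h'.2)), smul_zero]
        · rw [H.pr2 w w' hw _ (H.JA _ _ (bb_mem h'.2)), map_zero, smul_zero]
      · intro h3
        rw [Finsupp.notMem_support_iff.mp h3, zero_smul, map_zero, map_zero]
  ext ⟨⟨i, w⟩, h⟩
  exact key i w h

lemma XX_indep (H : AData 𝒜 x n c J θ χ pr f) :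
    LinearIndependent K (fun a : Om (MM J θ) n c => XX x J θ a) := by
  classical
  rw [linearIndependent_iff]
  intro v hv
  let φ : Om (MM J θ) n c → (ℕ →₀ ℕ) × Bt J θ c := fun a =>
    (uu (kap a.1), ⟨(lev a.1, co 0 (kap a.1)), a.2.1, a.2.2.1.1⟩)
  have hφ : Function.Injective φ := by
    rintro ⟨a, ha⟩ ⟨b, hb⟩ h
    have h1 : uu (kap a) = uu (kap b) := congrArg Prod.fst h
    have h2 : lev a = lev b := congrArg (fun q : (ℕ →₀ ℕ) × Bt J θ c => q.2.1.1) h
    have h3 : co 0 (kap a) = co 0 (kap b) :=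
      congrArg (fun q : (ℕ →₀ ℕ) × Bt J θ c => q.2.1.2) h
    apply Subtype.ext
    have hk : kap a = kap b := by
      apply G_ext
      intro i
      rcases i with _ | i
      · exact h3
      · have h4 := congrArg (fun u : ℕ →₀ ℕ => (u i : ℤ)) h1
        simp only [uu_apply] at h4
        rwa [Int.toNat_of_nonneg (ha.2.1.2 _), Int.toNat_of_nonneg (hb.2.1.2 _)] at h4
    have : mk (kap a) (lev a) = mk (kap b) (lev b) := by rw [hk, h2]
    exact this
  have h1 : lc K x (fun q : Bt J θ c => bb J θ q.1.1 q.1.2) (v.mapDomain φ) = 0 := by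
    rw [← hv]
    unfold lc
    rw [Finsupp.linearCombination_mapDomain]
    rfl
  have h2 := indep H.reg (hb_indep H) (v.mapDomain φ) (by
    intro q hq j hj
    have h3 := Finsupp.mapDomain_support (Finsupp.mem_support_iff.mpr hq)
    rw [Finset.mem_image] at h3
    obtain ⟨a, _, rfl⟩ := h3
    exact uu_supp a.2.2.2 j hj) h1
  exact Finsupp.mapDomain_injective hφ (by rw [h2, Finsupp.mapDomain_zero])

lemma exists_D {X : Ix → R} {Ω : Set Ix} (h : LinearIndependent K (fun a : Ω => X a)) :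
    ∃ D : Ix → R →ₗ[K] K, ∀ a, ∀ b ∈ Ω, D a (X b) = if a = b then 1 else 0 := by
  classical
  have h1 : ∀ a : Ω, ∃ g : R →ₗ[K] K, ∀ b : Ω, g (X b) = if a = b then 1 else 0 := by
    intro a
    obtain ⟨g, hg⟩ := LinearMap.exists_extend ((Finsupp.lapply a) ∘ₗ h.repr)
    refine ⟨g, fun b => ?_⟩
    have h2 : X b ∈ Submodule.span K (Set.range (fun a : Ω => X a)) :=
      Submodule.subset_span ⟨b, rfl⟩
    have h3 := LinearMap.congr_fun hg ⟨X b, h2⟩
    simp only [LinearMap.comp_apply, Submodule.subtype_apply] at h3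
    rw [h3]
    have h4 : h.repr ⟨X b, h2⟩ = Finsupp.single b 1 := h.repr_eq_single b ⟨X b, h2⟩ rfl
    rw [h4]
    simp [Finsupp.single_apply, eq_comm]
  choose g hg using h1
  refine ⟨fun a => if ha : a ∈ Ω then g ⟨a, ha⟩ else 0, fun a b hb => ?_⟩
  by_cases ha : a ∈ Ω
  · simp only [dif_pos ha]
    rw [hg ⟨a, ha⟩ ⟨b, hb⟩]
    simp
  · simp only [dif_neg ha]
    rw [if_neg (by rintro rfl; exact ha hb)]
    rfl

lemma exists_A (Md : ℕ → Set ℤ) (n c : ℕ) (l : ℤ) :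
    ∃ A : Finset Ix, ∀ a, a ∈ A ↔ a ∈ Om Md n c ∧ dg (kap a) = l := by
  have hfin : {a : Ix | a ∈ Om Md n c ∧ dg (kap a) = l}.Finite := by
    apply Set.Finite.subset (((finite_G n l).prod (Set.finite_Iio c)).image
      (fun q : G × ℕ => mk q.1 q.2))
    rintro j ⟨h1, h2⟩
    exact ⟨(kap j, lev j), ⟨⟨h1.2.1.2, h1.2.2, h2⟩, h1.1⟩, rfl⟩
  exact ⟨hfin.toFinset, fun j => by rw [Set.Finite.mem_toFinset]; rfl⟩

/-- the scalars -/
noncomputable def lamm (J : ℕ → ℤ → Submodule K R) (θ : ℕ → R →ₗ[K] K) (χ : ℕ → R →ₐ[K] K)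
    (i : ℕ) (a : Ix) : K := χ i (bb J θ (lev a) (co 0 (kap a)))

lemma χ_Jc (H : AData 𝒜 x n c J θ χ pr f) {i : ℕ} (hi : i < c) {m : ℤ} {r : R}
    (hr : r ∈ J c m) : χ i r = 0 := by
  obtain ⟨s, _, rfl⟩ := H.Jc m r hr
  rw [map_sum]
  apply Finset.sum_eq_zero
  intro j hj
  rw [map_mul, H.χx i hi j (Finset.mem_range.mp hj), zero_mul]

lemma prod_rule (H : AData 𝒜 x n c J θ χ pr f) {a b : Ix} (ha : a ∈ Om (MM J θ) n c)
    (hb : b ∈ Om (MM J θ) n c) :
    XX x J θ a * XX x J θ b - lamm J θ χ (lev b) a • XX x J θ (mk (kap a + kap b) (lev b)) ∈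
    FilR K (XX x J θ) (MM J θ) n c (dg (kap a) + dg (kap b))
      (c * (xd (kap a) + xd (kap b)) + lev b + 1) := by
  set w := co 0 (kap a) with hw
  set w' := co 0 (kap b) with hw'
  set i := lev b with hi
  have hic : i < c := hb.1
  set r := bb J θ (lev a) w * bb J θ i w' - lamm J θ χ i a • bb J θ i (w + w') with hr
  have hα : bb J θ (lev a) w ∈ 𝒜 w := H.JA _ _ (bb_mem ha.2.1.1)
  have hβ : bb J θ i w' ∈ J i w' := bb_mem hb.2.1.1
  have hprod : bb J θ (lev a) w * bb J θ i w' ∈ J i (w + w') := H.Jmul i hic _ _ _ _ hα hβ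
  have hθ : θ i (bb J θ (lev a) w * bb J θ i w') = lamm J θ χ i a := by
    rw [H.θmul i hic _ _ _ _ hα hβ, bb_θ hb.2.1.1, mul_one]; rfl
  have hrJ : r ∈ J (i + 1) (w + w') := by
    by_cases h0 : lamm J θ χ i a = 0
    · rw [hr, h0, zero_smul, sub_zero]
      apply H.θ0 i hic _ _ hprod
      rw [hθ, h0]
    · have hm : w + w' ∈ MM J θ i := ⟨_, hprod, by rw [hθ]; exact h0⟩
      apply H.θ0 i hic
      · exact Submodule.sub_mem _ hprod (Submodule.smul_mem _ _ (bb_mem hm))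
      · rw [hr, map_sub, map_smul, hθ, bb_θ hm]; simp
  have hrF := J_le_FilR H hic (w + w') hrJ
  have hnn : ∀ j, 0 ≤ co j (kap a + kap b) := fun j => by
    rw [map_add]; exact add_nonneg (ha.2.1.2 j) (hb.2.1.2 j)
  have hnv : nv n (kap a + kap b) := fun j hj => by
    rw [map_add, ha.2.2 j hj, hb.2.2 j hj, add_zero]
  have h1 := xmon_FilR (uu (kap a + kap b)) (uu_supp hnv) hrF
  rw [uu_sum hnv hnn] at h1
  have h2 : XX x J θ a * XX x J θ b - lamm J θ χ i a • XX x J θ (mk (kap a + kap b) i) =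
      xmon x (uu (kap a + kap b)) * r := by
    unfold XX
    rw [kap_mk, lev_mk, uu_add ha.2.1.2 hb.2.1.2, xmon_add, hr, map_add, ← hw, ← hw', ← hi,
      mul_sub, mul_smul_comm]
    congr 1
    ring
  rw [h2]
  have e1 : w + w' + xd (kap a + kap b) = dg (kap a) + dg (kap b) := by
    rw [map_add, xd_apply, xd_apply]; ring
  have e2 : ((i + 1 : ℕ) : ℤ) + c * xd (kap a + kap b) =
      c * (xd (kap a) + xd (kap b)) + i + 1 := by
    rw [map_add]; push_cast; ring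
  rw [e1, e2] at h1
  exact h1

/-- the data for the filtration theorem -/
theorem fdata (H : AData 𝒜 x n c J θ χ pr f) {l : ℤ} {A : Finset Ix}
    (hA : ∀ a, a ∈ A ↔ a ∈ Om (MM J θ) n c ∧ dg (kap a) = l) :
    ∃ D : Ix → R →ₗ[K] K,
      FData (XX x J θ) D (SS 𝒜 χ) (MM J θ) (lamm J θ χ) n c l f A := by
  obtain ⟨D, hD⟩ := exists_D (XX_indep H)
  refine ⟨D, ?_⟩
  constructor
  · exact fun i hi => pair_of H hi
  · exact hD
  · intro a ha
    obtain ⟨h1, h2⟩ := (hA a).mp ha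
    exact ⟨h1.2.2, h2⟩
  · intro a ha
    exact ((hA a).mp ha).1.2.1.2
  · intro i hi a ha h0
    obtain ⟨h1, h2⟩ := (hA a).mp ha
    exact ⟨⟨_, H.JA _ _ (bb_mem h1.2.1.1), h0⟩, h1.2.1.2⟩
  · intro i hi g hg hgn
    obtain ⟨s, hs, hs0⟩ := hg.1.1
    have h1 := J_le_Bs H (co 0 g) c 0 (by omega) (H.J0 _ hs)
    rw [Submodule.mem_sup] at h1
    obtain ⟨y, hy, z, hz, rfl⟩ := h1
    rw [map_add, χ_Jc H hi hz, add_zero] at hs0
    by_contra hcon
    push Not at hcon
    apply hs0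
    have h2 : Bs J θ c 0 (co 0 g) ≤ LinearMap.ker (χ i).toLinearMap := by
      apply Submodule.span_le.mpr
      rintro _ ⟨k, _, h3, h4, rfl⟩
      have h5 : mk g k ∈ A := (hA _).mpr ⟨⟨h3, ⟨h4, hg.1.2⟩, hgn⟩, hg.2⟩
      exact hcon _ h5 rfl
    exact h2 hy
  · intro a ha b hb
    exact prod_rule H ((hA a).mp ha).1 hb

lemma FilC_supp {X : Ix → R} {Md : ℕ → Set ℤ} {l : ℤ} {A : Finset Ix} {p : ℕ} {m k : ℤ}
    {b : Ch R Ix} (hb : b ∈ FilC K X Md n c l A p m k) (F : Finset Ix) (h : b F ≠ 0) :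
    F ⊆ A ∧ F.card = p := by
  unfold FilC at hb
  induction hb using Submodule.span_induction with
  | zero => exact absurd rfl h
  | add u v _ _ hu hv =>
    by_cases h1 : u F = 0
    · apply hv
      intro h2
      apply h
      rw [Finsupp.add_apply, h1, h2, add_zero]
    · exact hu h1
  | smul a u _ hu =>
    apply hu
    intro h1
    apply h
    rw [Finsupp.smul_apply, h1, smul_zero]
  | mem u hu =>
    obtain ⟨F', b', h1, h2, _, _, _, rfl⟩ := hu
    rw [Finsupp.single_apply] at h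
    by_cases h3 : F' = F
    · subst h3; exact ⟨h1, h2⟩
    · rw [if_neg h3] at h; exact absurd rfl h

lemma FilC_coef (H : AData 𝒜 x n c J θ χ pr f) {l : ℤ} {A : Finset Ix} {p : ℕ} {m k : ℤ}
    {b : Ch R Ix} (hb : b ∈ FilC K (XX x J θ) (MM J θ) n c l A p m k) (F : Finset Ix) :
    b F ∈ 𝒜 (m - p * l) := by
  unfold FilC at hb
  induction hb using Submodule.span_induction with
  | zero => exact Submodule.zero_mem _
  | add u v _ _ hu hv => rw [Finsupp.add_apply]; exact Submodule.add_mem _ hu hv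
  | smul a u _ hu => rw [Finsupp.smul_apply]; exact Submodule.smul_mem _ _ hu
  | mem u hu =>
    obtain ⟨F', b', h1, h2, h3, h4, _, rfl⟩ := hu
    rw [Finsupp.single_apply]
    split_ifs
    · rw [← h4]; exact XX_mem H h3
    · exact Submodule.zero_mem _

/-- **The exactness theorem, algebraic form.** -/
theorem exact_alg [CharZero K] (H : AData 𝒜 x n c J θ χ pr f) {l : ℤ} (hl : 0 ≤ l)
    {A : Finset Ix} (hA : ∀ a, a ∈ A ↔ a ∈ Om (MM J θ) n c ∧ dg (kap a) = l)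
    {p : ℕ} (hp : (p : ℤ) ≤ l - f - 2) {m : ℤ} (hm : tt l f p ≤ m) {y : Ch R Ix}
    (hy : ∀ F, y F ≠ 0 → F ⊆ A ∧ F.card = p) (hy2 : ∀ F, y F ∈ 𝒜 (m - p * l))
    (hdy : bdw R (XX x J θ) y = 0) :
    ∃ b : Ch R Ix, (∀ F, b F ≠ 0 → F ⊆ A ∧ F.card = p + 1) ∧
      (∀ F, b F ∈ 𝒜 (m - (p + 1 : ℕ) * l)) ∧ bdw R (XX x J θ) b = y := by
  obtain ⟨D, hF⟩ := fdata H hA
  have h1 : y ∈ FilC K (XX x J θ) (MM J θ) n c l A p m 0 := by
    rw [← Finsupp.sum_single y]
    apply Submodule.sum_mem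
    intro F hFs
    obtain ⟨h1, h2⟩ := hy F (Finsupp.mem_support_iff.mp hFs)
    apply single_FilC (K := K) h1 h2 (w := 0)
    · have h3 : 0 ≤ xd (kaps F) := by
        have h4 := uu_sum (nv_kaps hF h1) (kaps_nonneg hF h1)
        rw [← h4]
        exact Finset.sum_nonneg (fun _ _ => by positivity)
      have : 0 ≤ c * xd (kaps F) := by positivity
      linarith
    · exact A_le_FilR' H _ (hy2 F)
  obtain ⟨b, hb, hb2⟩ := filt_main hF hl hp hm h1 hdy
  exact ⟨b, FilC_supp hb, FilC_coef H hb, hb2⟩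

end Pool.Agent.Helper40.MukN
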