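import Pool.Agent.Helper40.MukN.Ext

/-!
# Exactness for the monomials of degree `l` in `n` variables with non-zero scalars
-/

namespace Pool.Agent.Helper40.MukN

open Finset

variable {S M : Set ℤ} {l f : ℤ} {K : Type*} [Field K]

/-- section of `kap` -/
def sig (k : G → ℕ) (g : G) : Ix := toLex (g, k g)

lemma kap_sig (k : G → ℕ) (g : G) : kap (sig k g) = g := rfl

lemma sig_mono (k : G → ℕ) : StrictMono (sig k) := by
  intro g h hgh
  exact Prod.Lex.toLex_lt_toLex.mpr (Or.inl hgh)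

lemma kaps_image (k : G → ℕ) (H : Finset G) : kaps (H.image (sig k)) = ∑ g ∈ H, g := by
  unfold kaps
  rw [Finset.sum_image (fun a _ b _ h => (sig_mono k).injective h)]
  rfl

/-- from `G`-chains to `Ix`-chains -/
noncomputable def Psi (lam : Ix → K) (k : G → ℕ) : Ch K G →ₗ[K] Ch K Ix :=
  Finsupp.linearCombination K (fun H => (∏ g ∈ H, lam (sig k g))⁻¹ • e K (H.image (sig k)))

/-- from `Ix`-chains to `G`-chains -/
noncomputable def Phi (lam : Ix → K) : Ch K Ix →ₗ[K] Ch K G :=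
  Finsupp.linearCombination K (fun F => (∏ a ∈ F, lam a) • e K (F.image kap))

lemma Psi_e (lam : Ix → K) (k : G → ℕ) (H : Finset G) :
    Psi lam k (e K H) = (∏ g ∈ H, lam (sig k g))⁻¹ • e K (H.image (sig k)) := by
  simp [Psi, Finsupp.linearCombination_single]

lemma Phi_e (lam : Ix → K) (F : Finset Ix) :
    Phi lam (e K F) = (∏ a ∈ F, lam a) • e K (F.image kap) := by
  simp [Phi, Finsupp.linearCombination_single]

lemma image_kap_sig (k : G → ℕ) (H : Finset G) : (H.image (sig k)).image kap = H := by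
  rw [Finset.image_image]
  have : kap ∘ sig k = id := by funext g; rfl
  rw [this, Finset.image_id]

lemma prod_sig (lam : Ix → K) (k : G → ℕ) (H : Finset G) :
    ∏ a ∈ H.image (sig k), lam a = ∏ g ∈ H, lam (sig k g) :=
  Finset.prod_image (fun a _ b _ h => (sig_mono k).injective h)

lemma Phi_Psi {lam : Ix → K} {k : G → ℕ} {B : Finset G} (hB : ∀ g ∈ B, lam (sig k g) ≠ 0)
    {c : Ch K G} (hc : c ∈ Finsupp.supported K K {H | H ⊆ B}) :
    Phi lam (Psi lam k c) = c := by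
  have := map_eq ((Phi lam) ∘ₗ (Psi lam k)) LinearMap.id (A := {H | H ⊆ B}) ?_ hc
  · exact this
  · intro H hH
    simp only [LinearMap.comp_apply, LinearMap.id_apply]
    rw [Psi_e, map_smul, Phi_e, image_kap_sig, prod_sig, smul_smul, inv_mul_cancel₀, one_smul]
    exact Finset.prod_ne_zero_iff.mpr (fun g hg => hB g (hH hg))

lemma Psi_Phi {lam : Ix → K} {k : G → ℕ} {B : Finset G} (hB : ∀ g ∈ B, lam (sig k g) ≠ 0)
    {c : Ch K Ix} (hc : c ∈ Finsupp.supported K K {F | F ⊆ B.image (sig k)}) :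
    Psi lam k (Phi lam c) = c := by
  have := map_eq ((Psi lam k) ∘ₗ (Phi lam)) LinearMap.id (A := {F | F ⊆ B.image (sig k)}) ?_ hc
  · exact this
  · intro F hF
    obtain ⟨H, hH, rfl⟩ := Finset.subset_image_iff.mp (show F ⊆ B.image (sig k) from hF)
    simp only [LinearMap.comp_apply, LinearMap.id_apply]
    rw [Phi_e, map_smul, image_kap_sig, Psi_e, prod_sig, smul_smul, mul_inv_cancel₀, one_smul]
    exact Finset.prod_ne_zero_iff.mpr (fun g hg => hB g (hH hg))

lemma bdw_Psi {lam : Ix → K} {k : G → ℕ} {B : Finset G} (hB : ∀ g ∈ B, lam (sig k g) ≠ 0)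
    {c : Ch K G} (hc : c ∈ Finsupp.supported K K {H | H ⊆ B}) :
    bdw K lam (Psi lam k c) = Psi lam k (bd K c) := by
  refine map_eq ((bdw K lam) ∘ₗ (Psi lam k)) ((Psi lam k) ∘ₗ (bd K)) (A := {H | H ⊆ B}) ?_ hc
  intro H hH
  simp only [LinearMap.comp_apply]
  rw [Psi_e, map_smul, bdw_e, bd_e, map_sum, Finset.smul_sum,
    Finset.sum_image (fun a _ b _ h => (sig_mono k).injective h)]
  apply Finset.sum_congr rfl
  intro g hg
  rw [con_e_mem K (Finset.mem_image_of_mem _ hg), con_e_mem K hg, map_smul, Psi_e,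
    sg_image _ (sig_mono k), ← Finset.image_erase (sig_mono k).injective, smul_smul, smul_smul,
    smul_smul]
  congr 1
  rw [← Finset.mul_prod_erase H _ hg, mul_inv]
  have := hB g (hH hg)
  field_simp

lemma base_ex [CharZero K] (hS : IsPair S M f) {n : ℕ} {B : Finset G}
    (hB : ∀ g, g ∈ B ↔ g ∈ Mon S l ∧ nv n g) {lam : Ix → K} {k : G → ℕ}
    (hlam : ∀ g ∈ B, lam (sig k g) ≠ 0) :
    ∀ p : ℕ, (p : ℤ) ≤ l - f - 2 → ∀ μ, nv n μ → tt l f p ≤ dg μ →
      EXl M K lam (B.image (sig k)) p μ := by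
  intro p hp μ hμn hμ c hc hc0
  have hcA : c ∈ Finsupp.supported K K {F | F ⊆ B.image (sig k)} :=
    Finsupp.supported_mono (fun F hF => hF.1) hc
  have hPhi : Phi lam c ∈ Cc S M l K p μ := by
    apply map_mem _ _ hc
    rintro F ⟨h1, h2, h3⟩
    obtain ⟨H, hH, rfl⟩ := Finset.subset_image_iff.mp h1
    rw [Phi_e, image_kap_sig]
    refine Submodule.smul_mem _ _ (e_mem K ⟨?_, ?_, ?_⟩)
    · rwa [Finset.card_image_of_injective _ (sig_mono k).injective] at h2
    · exact fun v hv => ((hB v).mp (hH hv)).1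
    · rwa [kaps_image] at h3
  have hPhiB : Phi lam c ∈ Finsupp.supported K K {H | H ⊆ B} := by
    apply map_mem _ _ hc
    rintro F ⟨h1, h2, h3⟩
    obtain ⟨H, hH, rfl⟩ := Finset.subset_image_iff.mp h1
    rw [Phi_e, image_kap_sig]
    exact Submodule.smul_mem _ _ (e_mem K hH)
  have hbdB : bd K (Phi lam c) ∈ Finsupp.supported K K {H | H ⊆ B} := by
    rw [bd_eq B hPhiB]
    exact Submodule.sum_mem _ (fun v _ => con_sup K v hPhiB)
  have hPhi0 : bd K (Phi lam c) = 0 := by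
    rw [← Phi_Psi hlam hbdB, ← bdw_Psi hlam hPhiB, Psi_Phi hlam hcA, hc0, map_zero]
  obtain ⟨b, hb, hb2⟩ := exact_mono hS p hp μ hμ (Phi lam c) hPhi hPhi0
  have hbB : b ∈ Finsupp.supported K K {H | H ⊆ B} := by
    refine Finsupp.supported_mono ?_ hb
    intro H hH v hv
    rw [hB]
    exact ⟨hH.2.1 v hv, fun i hi => co_zero hH.2 (hμn i hi) hv⟩
  refine ⟨Psi lam k b, ?_, ?_⟩
  · have h1 : Psi lam k b ∈ Finsupp.supported K K (Fp M (B.image (sig k)) (p + 1) μ) := by
      apply map_mem _ _ hb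
      intro H hH
      rw [Psi_e]
      refine Submodule.smul_mem _ _ (e_mem K ⟨?_, ?_, ?_⟩)
      · apply Finset.image_subset_image
        intro v hv
        rw [hB]
        exact ⟨hH.2.1 v hv, fun i hi => co_zero hH.2 (hμn i hi) hv⟩
      · rw [Finset.card_image_of_injective _ (sig_mono k).injective]; exact hH.1
      · rw [kaps_image]; exact hH.2.2
    exact h1
  · rw [bdw_Psi hlam hbB, hb2, Psi_Phi hlam hcA]

/-- **Exactness with scalars.** -/
theorem scal_ex [CharZero K] (hS : IsPair S M f) (hl : 0 ≤ l) {n : ℕ} {A : Finset Ix}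
    {lam : Ix → K} (hA : ∀ a ∈ A, nv n (kap a) ∧ dg (kap a) = l ∧ (lam a ≠ 0 → kap a ∈ Gam S))
    (hsec : ∀ g, g ∈ Mon S l → nv n g → ∃ a ∈ A, kap a = g ∧ lam a ≠ 0) :
    ∀ p : ℕ, (p : ℤ) ≤ l - f - 2 → ∀ μ, nv n μ → tt l f p ≤ dg μ → EXl M K lam A p μ := by
  classical
  -- the section
  choose! s hs using hsec
  set B : Finset G := (A.image kap).filter (fun g => g ∈ Mon S l) with hBdef
  have hB : ∀ g, g ∈ B ↔ g ∈ Mon S l ∧ nv n g := by
    intro g
    rw [hBdef, Finset.mem_filter, Finset.mem_image]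
    constructor
    · rintro ⟨⟨a, ha, rfl⟩, h2⟩
      exact ⟨h2, (hA a ha).1⟩
    · rintro ⟨h1, h2⟩
      exact ⟨⟨s g, (hs g h1 h2).1, (hs g h1 h2).2.1⟩, h1⟩
  set k : G → ℕ := fun g => (ofLex (s g)).2 with hk
  have hsig : ∀ g ∈ B, sig k g = s g := by
    intro g hg
    obtain ⟨h1, h2⟩ := (hB g).mp hg
    have h3 := (hs g h1 h2).2.1
    unfold sig
    apply ofLex.injective
    apply Prod.ext
    · exact h3.symm
    · rfl
  have hlam : ∀ g ∈ B, lam (sig k g) ≠ 0 := by
    intro g hg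
    obtain ⟨h1, h2⟩ := (hB g).mp hg
    rw [hsig g hg]
    exact (hs g h1 h2).2.2
  have hsub : B.image (sig k) ⊆ A := by
    intro a ha
    rw [Finset.mem_image] at ha
    obtain ⟨g, hg, rfl⟩ := ha
    obtain ⟨h1, h2⟩ := (hB g).mp hg
    rw [hsig g hg]
    exact (hs g h1 h2).1
  have hmain := ext_many (M := M) (lam := lam) (A₀ := B.image (sig k)) (n := n) (l := l) (f := f)
    hl A (fun a ha => by
      obtain ⟨h1, h2, h3⟩ := hA a ha
      refine ⟨h1, h2, ?_⟩
      by_cases h0 : lam a = 0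
      · exact Or.inl h0
      · have hg : kap a ∈ B := (hB _).mpr ⟨⟨h3 h0, h2⟩, h1⟩
        exact Or.inr ⟨sig k (kap a), Finset.mem_image_of_mem _ hg, rfl, hlam _ hg⟩)
    (P := l - f - 2) (base_ex hS hB hlam)
  rwa [Finset.union_eq_left.mpr hsub] at hmain

end Pool.Agent.Helper40.MukN
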