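import Mathlib

/-!
# Koszul cohomology in coordinates
-/

namespace Pool.Agent.Helper40.MukN

/-- The differential of the Koszul complex of `v_1, ..., v_N` in a commutative ring: a chain
`c = ∑ c_F e_F` (`F` runs through the subsets of `{1, ..., N}`, `e_F` is the exterior product of
the `e_j`, `j ∈ F`, in increasing order) is mapped to the chain with the coefficients
`∑_(j not in F) ± v_j c_(F ∪ {j})`, where the sign is given by the number of `i ∈ F` with
`i < j`. -/
def kd {R : Type*} [CommRing R] {N : ℕ} (v : Fin N → R) (c : Finset (Fin N) → R)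
    (F : Finset (Fin N)) : R :=
  ∑ j ∈ Fᶜ, (-1) ^ (F.filter (· < j)).card * (v j * c (insert j F))

/-- The space `∧^p V ⊗ W`, `V` with basis `e_1, ..., e_N`: the chains with coefficients in `W`
which are concentrated on the sets `F` with `p` elements. -/
def IsChain {R : Type*} (W : Set R) [Zero R] {N : ℕ} (p : ℕ) (c : Finset (Fin N) → R) : Prop :=
  ∀ F, c F ∈ W ∧ (F.card ≠ p → c F = 0)

/-- `K_{p,q+1} = 0` for the graded algebra with homogeneous parts `𝒜 m` and its part of degree
`l`: if `v_1, ..., v_N` is a basis of `𝒜 l`, then the Koszul complex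
`∧^(p+1) V ⊗ 𝒜 (q l) → ∧^p V ⊗ 𝒜 ((q+1) l) → ∧^(p-1) V ⊗ 𝒜 ((q+2) l)` is exact in the middle. -/
def KZero {K R : Type*} [Field K] [CommRing R] [Algebra K R] (𝒜 : ℕ → Submodule K R)
    (l p q : ℕ) : Prop :=
  ∀ (N : ℕ) (v : Fin N → R), LinearIndependent K v → Submodule.span K (Set.range v) = 𝒜 l →
    ∀ c : Finset (Fin N) → R, IsChain (𝒜 ((q + 1) * l) : Set R) p c → kd v c = 0 →
      ∃ b : Finset (Fin N) → R, IsChain (𝒜 (q * l) : Set R) (p + 1) b ∧ kd v b = c

end Pool.Agent.Helper40.MukN
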