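import Mathlib

/-!
# Koszul cohomology of a graded algebra, definitions

For a subspace `V` of a commutative `K`-algebra `R` the Koszul complex is the exterior algebra over
`R` of the free module `R ⊗ V`, its differential is the contraction with `r ⊗ v ↦ r v`, and
`∧^p V ⊗ W` (`W` a subspace of `R`) is the span of the `w • (v₁ ∧ ... ∧ v_p)`.
-/

open scoped TensorProduct

namespace Pool.Agent.Helper40.MukN

variable {K : Type*} [Field K] {R : Type*} [CommRing R] [Algebra K R]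

/-- the `R`-linear map `R ⊗ V → R`, `r ⊗ v ↦ r v` -/
noncomputable def mulMap (V : Submodule K R) : (R ⊗[K] V) →ₗ[R] R :=
  LinearMap.liftBaseChange R V.subtype

/-- the Koszul differential on `∧_R (R ⊗ V)` -/
noncomputable def koszulD (V : Submodule K R) :
    ExteriorAlgebra R (R ⊗[K] V) →ₗ[R] ExteriorAlgebra R (R ⊗[K] V) :=
  CliffordAlgebra.contractLeft (mulMap V)

/-- the space `∧^p V ⊗ W` -/
noncomputable def koszulC (V W : Submodule K R) (p : ℕ) :
    Submodule K (ExteriorAlgebra R (R ⊗[K] V)) :=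
  Submodule.span K {y | ∃ w ∈ W, ∃ v : Fin p → V,
    y = w • ExteriorAlgebra.ιMulti R p (fun i => (1 : R) ⊗ₜ[K] v i)}

/-- `K_{p,q+1} = 0`: the complex
`∧^(p+1) R_l ⊗ R_(ql) → ∧^p R_l ⊗ R_((q+1)l) → ∧^(p-1) R_l ⊗ R_((q+2)l)`
is exact in the middle -/
def KoszulZero (𝒜 : ℕ → Submodule K R) (l p q : ℕ) : Prop :=
  ∀ y ∈ koszulC (𝒜 l) (𝒜 ((q + 1) * l)) p, koszulD (𝒜 l) y = 0 →
    ∃ b ∈ koszulC (𝒜 l) (𝒜 (q * l)) (p + 1), koszulD (𝒜 l) b = y

end Pool.Agent.Helper40.MukN
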