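import Pool.Agent.Helper40.MukN.Ext
import Pool.Agent.Helper40.MukN.Defs

/-!
# The intrinsic Koszul complex in coordinates
-/

open scoped TensorProduct

namespace Pool.Agent.Helper40.MukN

open Finset

section Wed

variable {R : Type*} [CommRing R] {ι : Type*} [LinearOrder ι]

lemma wed_wed_self (v : ι) (c : Ch R ι) : wed R v (wed R v c) = 0 := by
  have : (wed R v) ∘ₗ (wed R v) = (0 : Ch R ι →ₗ[R] Ch R ι) := by
    apply ext_e
    intro F
    simp only [LinearMap.comp_apply, LinearMap.zero_apply]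
    by_cases hv : v ∈ F
    · rw [wed_e_mem R hv, map_zero]
    · rw [wed_e_not R hv, map_smul, wed_e_mem R (by simp), smul_zero]
  exact LinearMap.congr_fun this c

lemma wed_wed (v w : ι) (c : Ch R ι) : wed R v (wed R w c) = - wed R w (wed R v c) := by
  by_cases h : v = w
  · subst h; rw [wed_wed_self]; simp
  have : (wed R v) ∘ₗ (wed R w) = - ((wed R w) ∘ₗ (wed R v)) := by
    apply ext_e
    intro F
    simp only [LinearMap.comp_apply, LinearMap.neg_apply]
    by_cases hv : v ∈ F
    · rw [wed_e_mem R hv, map_zero, neg_zero]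
      by_cases hw : w ∈ F
      · rw [wed_e_mem R hw, map_zero]
      · rw [wed_e_not R hw, map_smul, wed_e_mem R (by simp [hv]), smul_zero]
    · by_cases hw : w ∈ F
      · rw [wed_e_mem R hw, map_zero, wed_e_not R hv, map_smul, wed_e_mem R (by simp [hw])]
        simp
      · rw [wed_e_not R hw, wed_e_not R hv, map_smul, map_smul, wed_e_not R (by simp [hv, h]),
          wed_e_not R (by simp [hw, Ne.symm h]), smul_smul, smul_smul, Finset.insert_comm,
          ← neg_smul]
        congr 1
        rw [sg_insert R v w F hw, sg_insert R w v F hv]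
        rcases lt_or_gt_of_ne h with h | h
        · rw [if_neg (not_lt.mpr h.le), if_pos h]; ring
        · rw [if_pos h, if_neg (not_lt.mpr h.le)]; ring
  have h2 := LinearMap.congr_fun this c
  simpa using h2

end Wed

variable {K : Type*} [Field K] {R : Type*} [CommRing R] [Algebra K R]
  {ι : Type*} [LinearOrder ι] [Fintype ι] {V : Submodule K R} (bV : Module.Basis ι K V)

/-- the operator of multiplication by `u ∈ R ⊗ V` -/
noncomputable def Wop : (R ⊗[K] V) →ₗ[R] Module.End R (Ch R ι) :=
  (bV.baseChange R).constr R (fun a => wed R a)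

lemma Wop_basis (a : ι) : Wop bV ((1 : R) ⊗ₜ[K] bV a) = wed R a := by
  unfold Wop
  have : (1 : R) ⊗ₜ[K] bV a = bV.baseChange R a := by simp
  rw [this, Module.Basis.constr_basis]

lemma Wop_apply (u : R ⊗[K] V) (c : Ch R ι) :
    Wop bV u c = ∑ a, (bV.baseChange R).repr u a • wed R a c := by
  unfold Wop
  rw [Module.Basis.constr_apply_fintype]
  simp [Module.Basis.equivFun_apply, LinearMap.sum_apply]

lemma Wop_sq (u : R ⊗[K] V) : Wop bV u * Wop bV u = 0 := by
  apply LinearMap.ext
  intro c
  rw [Module.End.mul_apply, LinearMap.zero_apply, Wop_apply, Wop_apply]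
  simp only [map_sum, map_smul, Finset.smul_sum]
  rw [← Finset.sum_product']
  apply Finset.sum_involution (fun q _ => (q.2, q.1))
  · rintro ⟨a, b⟩ _
    simp only
    rw [wed_wed a b, smul_neg, smul_neg, smul_comm ((bV.baseChange R).repr u b)]
    abel
  · rintro ⟨a, b⟩ _ h1 h2
    simp only [Prod.mk.injEq] at h2
    apply h1
    simp only
    rw [h2.1, wed_wed_self, smul_zero, smul_zero]
  · rintro ⟨a, b⟩ _; simp
  · rintro ⟨a, b⟩ _; rfl

/-- the action of the exterior algebra on chains -/
noncomputable def act : ExteriorAlgebra R (R ⊗[K] V) →ₐ[R] Module.End R (Ch R ι) :=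
  ExteriorAlgebra.lift R ⟨Wop bV, Wop_sq bV⟩

lemma act_ι (u : R ⊗[K] V) : act bV (ExteriorAlgebra.ι R u) = Wop bV u := by
  unfold act
  rw [ExteriorAlgebra.lift_ι_apply]

/-- from the exterior algebra to chains -/
noncomputable def Ps : ExteriorAlgebra R (R ⊗[K] V) →ₗ[R] Ch R ι where
  toFun y := act bV y (e R ∅)
  map_add' a b := by rw [map_add, LinearMap.add_apply]
  map_smul' r a := by rw [map_smul]; rfl

lemma Ps_apply (y : ExteriorAlgebra R (R ⊗[K] V)) : Ps bV y = act bV y (e R ∅) := rfl

lemma Ps_ι_mul (u : R ⊗[K] V) (y : ExteriorAlgebra R (R ⊗[K] V)) :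
    Ps bV (ExteriorAlgebra.ι R u * y) = Wop bV u (Ps bV y) := by
  rw [Ps_apply, map_mul, act_ι]; rfl

lemma Ps_algebraMap (r : R) : Ps bV (algebraMap R _ r) = r • e R (∅ : Finset ι) := by
  rw [Ps_apply, AlgHom.commutes]; rfl

lemma Ps_surj : Function.Surjective (Ps (R := R) bV) := by
  rw [← LinearMap.range_eq_top, eq_top_iff]
  intro c _
  induction c using Finsupp.induction_linear with
  | zero => exact Submodule.zero_mem _
  | add a b ha hb => exact Submodule.add_mem _ (ha trivial) (hb trivial)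
  | single F r =>
    have h1 : (Finsupp.single F r : Ch R ι) = r • e R F := by simp
    rw [h1]
    clear h1
    apply Submodule.smul_mem
    induction F using Finset.induction_on with
    | empty => exact ⟨algebraMap R _ 1, by rw [Ps_algebraMap, one_smul]⟩
    | insert a F ha ih =>
      rw [e_insert R ha]
      apply Submodule.smul_mem
      obtain ⟨y, hy⟩ := ih trivial
      exact ⟨ExteriorAlgebra.ι R ((1 : R) ⊗ₜ[K] bV a) * y, by
        rw [Ps_ι_mul, Wop_basis, hy]⟩

lemma Ps_inj : Function.Injective (Ps (R := R) bV) := by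
  let bE : Module.Basis (Finset ι) R (ExteriorAlgebra R (R ⊗[K] V)) :=
    (bV.baseChange R).ExteriorAlgebra
  have h1 : Function.Surjective ((Ps (R := R) bV) ∘ₗ bE.repr.symm.toLinearMap) :=
    (Ps_surj bV).comp bE.repr.symm.surjective
  have h2 := OrzechProperty.injective_of_surjective_endomorphism _ h1
  intro a b hab
  have h3 : ((Ps (R := R) bV) ∘ₗ bE.repr.symm.toLinearMap) (bE.repr a) =
      ((Ps (R := R) bV) ∘ₗ bE.repr.symm.toLinearMap) (bE.repr b) := by
    simpa using hab
  exact bE.repr.injective (h2 h3)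

/-- `Ps` intertwines the differentials -/
lemma Ps_koszulD (y : ExteriorAlgebra R (R ⊗[K] V)) :
    Ps bV (koszulD V y) = bdw R (fun a => ((bV a : V) : R)) (Ps bV y) := by
  induction y using CliffordAlgebra.left_induction with
  | algebraMap r =>
    unfold koszulD
    rw [CliffordAlgebra.contractLeft_algebraMap, map_zero]
    have := Ps_algebraMap bV r
    rw [show (algebraMap R (CliffordAlgebra 0)) r = algebraMap R (ExteriorAlgebra R (R ⊗[K] V)) r
      from rfl, this, map_smul, bdw_e]
    simp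
  | add a b ha hb => rw [map_add, map_add, map_add, map_add, ha, hb]
  | ι_mul y u hy =>
    unfold koszulD at hy ⊢
    rw [CliffordAlgebra.contractLeft_ι_mul, map_sub, map_smul]
    have h1 : Ps bV (CliffordAlgebra.ι 0 u * (CliffordAlgebra.contractLeft (mulMap V)) y) =
      Wop bV u (Ps bV ((CliffordAlgebra.contractLeft (mulMap V)) y)) := Ps_ι_mul bV u _
    have h2 : Ps bV (CliffordAlgebra.ι 0 u * y) = Wop bV u (Ps bV y) := Ps_ι_mul bV u _
    rw [h1, h2, hy, Wop_apply, Wop_apply, map_sum]
    simp only [map_smul, bdw_wed, smul_sub, Finset.sum_sub_distrib]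
    congr 1
    simp only [smul_smul]
    rw [← Finset.sum_smul]
    congr 1
    have h3 : u = ∑ a, (bV.baseChange R).repr u a • (bV.baseChange R a) :=
      ((bV.baseChange R).sum_repr u).symm
    conv_lhs => rw [h3]
    rw [map_sum]
    apply Finset.sum_congr rfl
    intro a _
    rw [map_smul]
    simp [mulMap]

/-- chains with coefficients in `W` -/
def CW (ι : Type*) [LinearOrder ι] (W : Submodule K R) (p : ℕ) : Submodule K (Ch R ι) where
  carrier := {c | (∀ F, c F ≠ 0 → F.card = p) ∧ ∀ F, c F ∈ W}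
  add_mem' := by
    rintro a b ⟨h1, h2⟩ ⟨h3, h4⟩
    refine ⟨fun F hF => ?_, fun F => ?_⟩
    · by_cases h : a F = 0
      · apply h3
        intro h5
        apply hF
        rw [Finsupp.add_apply, h, h5, add_zero]
      · exact h1 F h
    · rw [Finsupp.add_apply]; exact Submodule.add_mem _ (h2 F) (h4 F)
  zero_mem' := ⟨fun F hF => absurd rfl hF, fun F => Submodule.zero_mem _⟩
  smul_mem' := by
    rintro k a ⟨h1, h2⟩
    refine ⟨fun F hF => h1 F ?_, fun F => ?_⟩
    · intro h
      apply hF
      rw [Finsupp.smul_apply, h, smul_zero]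
    · rw [Finsupp.smul_apply]; exact Submodule.smul_mem _ _ (h2 F)

lemma wed_CW {W : Submodule K R} {p : ℕ} {c : Ch R ι} (hc : c ∈ CW (K := K) ι W p) (a : ι) :
    wed R a c ∈ CW (K := K) ι W (p + 1) := by
  obtain ⟨h1, h2⟩ := hc
  rw [← Finsupp.sum_single c, Finsupp.sum, map_sum]
  apply Submodule.sum_mem
  intro F hF
  have h3 : (Finsupp.single F (c F) : Ch R ι) = c F • e R F := by simp
  rw [h3, map_smul, wed_e]
  split_ifs with h
  · rw [smul_zero]; exact Submodule.zero_mem _
  · rw [smul_smul, Finsupp.smul_single, smul_eq_mul, mul_one]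
    refine ⟨fun F' hF' => ?_, fun F' => ?_⟩
    · rw [Finsupp.single_apply] at hF'
      by_cases h4 : insert a F = F'
      · rw [← h4, Finset.card_insert_of_notMem h, h1 F (Finsupp.mem_support_iff.mp hF)]
      · rw [if_neg h4] at hF'; exact absurd rfl hF'
    · rw [Finsupp.single_apply]
      split_ifs
      · unfold sg
        rcases neg_one_pow_eq_or R (F.filter (fun w => w < a)).card with h5 | h5
        · rw [h5, mul_one]; exact h2 F
        · rw [h5, mul_neg, mul_one]; exact Submodule.neg_mem _ (h2 F)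
      · exact Submodule.zero_mem _

lemma Wop_CW {W : Submodule K R} {p : ℕ} {c : Ch R ι} (hc : c ∈ CW (K := K) ι W p) (v : V) :
    Wop (R := R) bV ((1 : R) ⊗ₜ[K] v) c ∈ CW (K := K) ι W (p + 1) := by
  rw [Wop_apply]
  apply Submodule.sum_mem
  intro a _
  have : (bV.baseChange R).repr ((1 : R) ⊗ₜ[K] v) a = algebraMap K R (bV.repr v a) := by
    rw [Module.Basis.baseChange_repr_tmul]
    simp [Algebra.smul_def]
  rw [this, algebraMap_smul]
  exact Submodule.smul_mem _ _ (wed_CW hc a)

lemma Ps_mem {W : Submodule K R} {p : ℕ} {y : ExteriorAlgebra R (R ⊗[K] V)}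
    (hy : y ∈ koszulC V W p) : Ps bV y ∈ CW (K := K) ι W p := by
  unfold koszulC at hy
  induction hy using Submodule.span_induction with
  | zero => rw [map_zero]; exact Submodule.zero_mem _
  | add a b _ _ ha hb => rw [map_add]; exact Submodule.add_mem _ ha hb
  | smul k a _ ha =>
    have : Ps bV (k • a) = k • Ps bV a := ((Ps (R := R) bV).restrictScalars K).map_smul k a
    rw [this]; exact Submodule.smul_mem _ _ ha
  | mem y hy =>
    obtain ⟨w, hw, v, rfl⟩ := hy
    rw [map_smul]
    have key : ∀ p : ℕ, ∀ v : Fin p → V, ∀ w ∈ W,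
        w • Ps (R := R) bV (ExteriorAlgebra.ιMulti R p (fun i => (1 : R) ⊗ₜ[K] v i)) ∈
          CW (K := K) ι W p := by
      intro p
      induction p with
      | zero =>
        intro v w hw
        rw [ExteriorAlgebra.ιMulti_zero_apply]
        have : (1 : ExteriorAlgebra R (R ⊗[K] V)) = algebraMap R _ 1 := by simp
        rw [this, Ps_algebraMap, one_smul, Finsupp.smul_single, smul_eq_mul, mul_one]
        refine ⟨fun F' hF' => ?_, fun F' => ?_⟩
        · rw [Finsupp.single_apply] at hF'
          by_cases h4 : ∅ = F'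
          · rw [← h4, Finset.card_empty]
          · rw [if_neg h4] at hF'; exact absurd rfl hF'
        · rw [Finsupp.single_apply]
          split_ifs
          · exact hw
          · exact Submodule.zero_mem _
      | succ p ih =>
        intro v w hw
        rw [ExteriorAlgebra.ιMulti_succ_apply, Ps_ι_mul, ← map_smul]
        exact Wop_CW bV (ih (fun i => v i.succ) w hw) (v 0)
    exact key p v w hw

lemma exists_ιMulti : ∀ p : ℕ, ∀ F : Finset ι, F.card = p → ∃ v : Fin p → V, ∃ ε : K,
    e R F = algebraMap K R ε •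
      Ps (R := R) bV (ExteriorAlgebra.ιMulti R p (fun i => (1 : R) ⊗ₜ[K] v i)) := by
  intro p
  induction p with
  | zero =>
    intro F hF
    rw [Finset.card_eq_zero] at hF
    subst hF
    refine ⟨fun i => i.elim0, 1, ?_⟩
    rw [ExteriorAlgebra.ιMulti_zero_apply]
    have : (1 : ExteriorAlgebra R (R ⊗[K] V)) = algebraMap R _ 1 := by simp
    rw [this, Ps_algebraMap]; simp
  | succ p ih =>
    intro F hF
    obtain ⟨a, ha⟩ := Finset.card_pos.mp (by omega : 0 < F.card)
    obtain ⟨v, ε, hv⟩ := ih (F.erase a) (by rw [Finset.card_erase_of_mem ha, hF]; rfl)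
    refine ⟨Fin.cons (bV a) v, sg K a F * ε, ?_⟩
    have h1 : (fun i => (1 : R) ⊗ₜ[K] (Fin.cons (bV a) v : Fin (p + 1) → V) i) =
        Fin.cons ((1 : R) ⊗ₜ[K] bV a) (fun i => (1 : R) ⊗ₜ[K] v i) := by
      funext i
      refine Fin.cases ?_ (fun i => ?_) i <;> simp
    rw [h1, ExteriorAlgebra.ιMulti_succ_apply, Fin.cons_zero, Ps_ι_mul, Wop_basis]
    have h4 : (fun i : Fin p => (Fin.cons ((1 : R) ⊗ₜ[K] bV a)
        (fun i => (1 : R) ⊗ₜ[K] v i) : Fin (p + 1) → R ⊗[K] V) i.succ) =
        fun i => (1 : R) ⊗ₜ[K] v i := by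
      funext i; rw [Fin.cons_succ]
    first
      | rw [h4]
      | skip
    have h2 : e R F = sg R a (F.erase a) • wed R a (e R (F.erase a)) := by
      conv_lhs => rw [← Finset.insert_erase ha]
      exact e_insert R (by simp)
    rw [h2, hv, map_smul, smul_smul, sg_self]
    congr 1
    rw [map_mul]
    unfold sg
    simp

lemma mem_Ps {W : Submodule K R} {p : ℕ} {c : Ch R ι} (hc : c ∈ CW (K := K) ι W p) :
    ∃ y ∈ koszulC V W p, Ps bV y = c := by
  have h1 : c ∈ (koszulC V W p).map ((Ps (R := R) bV).restrictScalars K) := by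
    rw [← Finsupp.sum_single c, Finsupp.sum]
    apply Submodule.sum_mem
    intro F hF
    obtain ⟨v, ε, hv⟩ := exists_ιMulti (R := R) bV p F (hc.1 F (Finsupp.mem_support_iff.mp hF))
    refine ⟨(ε • c F) • ExteriorAlgebra.ιMulti R p (fun i => (1 : R) ⊗ₜ[K] v i),
      Submodule.subset_span ⟨ε • c F, Submodule.smul_mem _ _ (hc.2 F), v, rfl⟩, ?_⟩
    rw [LinearMap.restrictScalars_apply, map_smul]
    have h3 : (Finsupp.single F (c F) : Ch R ι) = c F • e R F := by simp
    rw [h3, hv, smul_smul, Algebra.smul_def, mul_comm]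
  obtain ⟨y, hy, hy2⟩ := h1
  exact ⟨y, hy, hy2⟩

/-- exactness of the intrinsic complex from exactness in coordinates -/
theorem koszul_of_coord {W W' : Submodule K R} {p : ℕ}
    (h : ∀ c ∈ CW (K := K) ι W p, bdw R (fun a => ((bV a : V) : R)) c = 0 →
      ∃ b ∈ CW (K := K) ι W' (p + 1), bdw R (fun a => ((bV a : V) : R)) b = c) :
    ∀ y ∈ koszulC V W p, koszulD V y = 0 → ∃ b ∈ koszulC V W' (p + 1), koszulD V b = y := by
  intro y hy hdy
  obtain ⟨b, hb, hb2⟩ := h (Ps bV y) (Ps_mem bV hy) (by rw [← Ps_koszulD, hdy, map_zero])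
  obtain ⟨z, hz, rfl⟩ := mem_Ps bV hb
  refine ⟨z, hz, Ps_inj bV ?_⟩
  rw [Ps_koszulD, hb2]

end Pool.Agent.Helper40.MukN
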