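import Pool.Agent.Helper40.MukN.Cd
import Pool.Agent.Helper40.MukN.Kos

/-!
# From the intrinsic complex to coordinates in a basis
-/

open scoped TensorProduct

namespace Pool.Agent.Helper40.MukN

open Finset

section Bdw

variable {R : Type*} [CommRing R] {N : ℕ}

lemma bdw_apply (X : Fin N → R) (c : Ch R (Fin N)) (F : Finset (Fin N)) :
    bdw R X c F = kd X (fun F => c F) F := by
  induction c using Finsupp.induction_linear with
  | zero => simp [kd]
  | add a b ha hb =>
    rw [map_add, Finsupp.add_apply, ha, hb]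
    unfold kd
    rw [← Finset.sum_add_distrib]
    apply Finset.sum_congr rfl
    intro j _
    simp only [Finsupp.add_apply]
    ring
  | single F' r =>
    have h1 : (Finsupp.single F' r : Ch R (Fin N)) = r • e R F' := by simp
    rw [h1, map_smul, bdw_e]
    unfold kd
    have h2 : (∑ v ∈ F', X v • con R v (e R F')) =
        ∑ v, if v ∈ F' then X v • (sg R v F' • e R (F'.erase v)) else 0 := by
      rw [Finset.sum_ite_mem, Finset.univ_inter]
      apply Finset.sum_congr rfl
      intro v hv
      rw [con_e_mem R hv]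
    rw [h2, Finsupp.smul_apply, Finsupp.finsetSum_apply, Finset.smul_sum]
    have h3 : ∀ g : Fin N → R, ∑ j ∈ Fᶜ, g j = ∑ j, if j ∈ F then 0 else g j := by
      intro g
      rw [← Finset.sum_filter_add_sum_filter_not Finset.univ (fun j => j ∈ F)]
      have h4 : ∑ x ∈ univ.filter (fun x => x ∈ F), (if x ∈ F then 0 else g x) = 0 := by
        apply Finset.sum_eq_zero
        intro x hx
        rw [if_pos (Finset.mem_filter.mp hx).2]
      rw [h4, zero_add]
      have h5 : univ.filter (fun x => x ∉ F) = Fᶜ := by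
        ext x; simp
      rw [h5]
      apply Finset.sum_congr rfl
      intro x hx
      rw [if_neg (Finset.mem_compl.mp hx)]
    rw [h3]
    apply Finset.sum_congr rfl
    intro j _
    by_cases hj : j ∈ F
    · rw [if_pos hj]
      by_cases hj' : j ∈ F'
      · rw [if_pos hj']
        have : F'.erase j ≠ F := by
          rintro rfl
          simp at hj
        simp [Finsupp.single_apply, this]
      · rw [if_neg hj']; simp
    · rw [if_neg hj]
      by_cases hj' : j ∈ F'
      · rw [if_pos hj']
        by_cases h6 : F'.erase j = F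
        · subst h6
          rw [Finset.insert_erase hj']
          simp only [Finsupp.smul_apply, smul_eq_mul]
          rw [← sg_self R j F']
          simp [sg]
          ring
        · have h7 : insert j F ≠ F' := by
            rintro rfl
            apply h6
            rw [Finset.erase_insert hj]
          simp [Finsupp.single_apply, h6, h7.symm]
      · rw [if_neg hj']
        have h7 : F' ≠ insert j F := by
          rintro rfl
          simp at hj'
        simp [h7]

end Bdw

/-- **From the intrinsic complex to coordinates.** -/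
theorem kzero_of_koszulZero {K : Type*} [Field K] {R : Type*} [CommRing R] [Algebra K R]
    {𝒜 : ℕ → Submodule K R} {l p q : ℕ} (h : KoszulZero 𝒜 l p q) : KZero 𝒜 l p q := by
  intro N v hli hsp c hc hdc
  have hmem : ∀ a, v a ∈ 𝒜 l := by
    intro a
    rw [← hsp]
    exact Submodule.subset_span ⟨a, rfl⟩
  have hli' : LinearIndependent K (fun a => (⟨v a, hmem a⟩ : 𝒜 l)) := by
    apply LinearIndependent.of_comp (𝒜 l).subtype
    exact hli
  have hsp' : ⊤ ≤ Submodule.span K (Set.range (fun a => (⟨v a, hmem a⟩ : 𝒜 l))) := by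
    rintro ⟨r, hr⟩ _
    have h1 : r ∈ (Submodule.span K (Set.range (fun a => (⟨v a, hmem a⟩ : 𝒜 l)))).map
        (𝒜 l).subtype := by
      rw [Submodule.map_span, ← Set.range_comp]
      have : ((𝒜 l).subtype ∘ fun a => (⟨v a, hmem a⟩ : 𝒜 l)) = v := rfl
      rw [this, hsp]
      exact hr
    obtain ⟨s, hs, hs2⟩ := h1
    have h3 : s = ⟨r, hr⟩ := Subtype.ext hs2
    rw [← h3]; exact hs
  let bV : Module.Basis (Fin N) K (𝒜 l) := Module.Basis.mk hli' hsp'
  have hbV : (fun a => ((bV a : 𝒜 l) : R)) = v := by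
    funext a
    simp only [bV, Module.Basis.mk_apply]
  let C : Ch R (Fin N) := Finsupp.equivFunOnFinite.symm c
  have hCc : ∀ F, C F = c F := fun F => rfl
  have hC : C ∈ CW (K := K) (Fin N) (𝒜 ((q + 1) * l)) p := by
    refine ⟨fun F hF => ?_, fun F => (hc F).1⟩
    by_contra h5
    exact hF ((hc F).2 h5)
  obtain ⟨y, hy, hy2⟩ := mem_Ps bV hC
  have hdy : koszulD (𝒜 l) y = 0 := by
    apply Ps_inj bV
    rw [Ps_koszulD, hy2, hbV, map_zero]
    ext F
    rw [bdw_apply, Finsupp.zero_apply]
    exact congrFun hdc F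
  obtain ⟨b, hb, hb2⟩ := h y hy hdy
  have hPb := Ps_mem bV hb
  refine ⟨fun F => Ps bV b F, fun F => ⟨hPb.2 F, fun hF => ?_⟩, ?_⟩
  · by_contra h5
    exact hF (hPb.1 F h5)
  · funext F
    rw [← bdw_apply, ← hbV, ← Ps_koszulD, hb2, hy2]
    exact hCc F

/-- transport along an isomorphism of algebras -/
theorem KZero.transport {K R R' : Type*} [Field K] [CommRing R] [Algebra K R] [CommRing R']
    [Algebra K R'] {𝒜 : ℕ → Submodule K R} {𝒜' : ℕ → Submodule K R'} (ψ : R ≃ₐ[K] R')
    (h𝒜 : ∀ m r, ψ r ∈ 𝒜' m ↔ r ∈ 𝒜 m) {l p q : ℕ} (h : KZero 𝒜 l p q) : KZero 𝒜' l p q := by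
  intro N v hli hsp c hc hdc
  have hm : ∀ m r, ψ.symm r ∈ 𝒜 m ↔ r ∈ 𝒜' m := by
    intro m r
    rw [← h𝒜, AlgEquiv.apply_symm_apply]
  have hkd : ∀ (c : Finset (Fin N) → R'),
      kd (fun j => ψ.symm (v j)) (fun F => ψ.symm (c F)) = fun F => ψ.symm (kd v c F) := by
    intro c
    funext F
    unfold kd
    rw [map_sum]
    apply Finset.sum_congr rfl
    intro j _
    rw [map_mul, map_mul, map_pow, map_neg, map_one]
  obtain ⟨b, hb, hb2⟩ := h N (fun j => ψ.symm (v j))
    (by
      have := hli.map' ψ.symm.toLinearMap (LinearMap.ker_eq_bot.mpr ψ.symm.injective)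
      exact this)
    (by
      have h1 : Set.range (fun j => ψ.symm (v j)) = ψ.symm.toLinearMap '' Set.range v := by
        rw [← Set.range_comp]; rfl
      rw [h1, Submodule.span_image, hsp]
      ext r
      constructor
      · rintro ⟨s, hs, rfl⟩
        exact (hm l s).mpr hs
      · intro hr
        exact ⟨ψ r, (h𝒜 l r).mpr hr, by simp⟩)
    (fun F => ψ.symm (c F))
    (fun F => ⟨(hm _ _).mpr (hc F).1, fun hF => by
      show ψ.symm (c F) = 0
      rw [(hc F).2 hF, map_zero]⟩)
    (by
      rw [hkd, hdc]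
      funext F
      exact map_zero _)
  refine ⟨fun F => ψ (b F), fun F => ⟨(h𝒜 _ _).mpr (hb F).1, fun hF => by
    show ψ (b F) = 0
    rw [(hb F).2 hF, map_zero]⟩, ?_⟩
  have h2 := hkd (fun F => ψ (b F))
  simp only [AlgEquiv.symm_apply_apply] at h2
  rw [hb2] at h2
  funext F
  have h3 := congrFun h2 F
  exact ψ.symm.injective h3.symm

end Pool.Agent.Helper40.MukN
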