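import Mathlib

/-!
# Simplicial chains on the full simplex over a linearly ordered set

`Ch K ι = Finset ι →₀ K`, contraction `con v`, multiplication `wed v`, boundary `bd`,
and the canonical anticommutation relations.
-/

namespace Pool.Agent.Helper40.MukN

open Finset

variable (K : Type*) [CommRing K] {ι : Type*} [LinearOrder ι]

/-- chains -/
abbrev Ch (ι : Type*) := Finset ι →₀ K

/-- the basis chain -/
noncomputable abbrev e (F : Finset ι) : Ch K ι := Finsupp.single F 1

/-- the sign `(-1)^#{w ∈ F, w < v}` -/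
def sg (v : ι) (F : Finset ι) : K := (-1) ^ (F.filter (fun w => w < v)).card

lemma sg_sq (v : ι) (F : Finset ι) : sg K v F * sg K v F = 1 := by
  unfold sg
  rw [← pow_add, ← two_mul, pow_mul]
  simp

lemma sg_insert (v w : ι) (F : Finset ι) (hw : w ∉ F) :
    sg K v (insert w F) = (if w < v then -1 else 1) * sg K v F := by
  unfold sg
  rw [Finset.filter_insert]
  split_ifs with h
  · rw [Finset.card_insert_of_notMem (by simp [hw]), pow_succ]; ring
  · simp

lemma sg_erase (v w : ι) (F : Finset ι) (hw : w ∈ F) :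
    sg K v F = (if w < v then -1 else 1) * sg K v (F.erase w) := by
  conv_lhs => rw [← Finset.insert_erase hw]
  rw [sg_insert K v w _ (by simp)]

lemma sg_self (v : ι) (F : Finset ι) : sg K v (F.erase v) = sg K v F := by
  by_cases h : v ∈ F
  · rw [sg_erase K v v F h]; simp
  · rw [Finset.erase_eq_of_notMem h]

lemma sg_insert_self (v : ι) (F : Finset ι) : sg K v (insert v F) = sg K v F := by
  by_cases h : v ∈ F
  · rw [Finset.insert_eq_of_mem h]
  · rw [sg_insert K v v F h]; simp

/-- contraction -/
noncomputable def con (v : ι) : Ch K ι →ₗ[K] Ch K ι :=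
  Finsupp.linearCombination K (fun F => if v ∈ F then sg K v F • e K (F.erase v) else 0)

/-- multiplication -/
noncomputable def wed (v : ι) : Ch K ι →ₗ[K] Ch K ι :=
  Finsupp.linearCombination K (fun F => if v ∈ F then 0 else sg K v F • e K (insert v F))

/-- boundary -/
noncomputable def bd : Ch K ι →ₗ[K] Ch K ι :=
  Finsupp.linearCombination K (fun F => ∑ v ∈ F, sg K v F • e K (F.erase v))

lemma con_e (v : ι) (F : Finset ι) :
    con K v (e K F) = if v ∈ F then sg K v F • e K (F.erase v) else 0 := by
  simp [con, Finsupp.linearCombination_single]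

lemma con_e_mem {v : ι} {F : Finset ι} (h : v ∈ F) :
    con K v (e K F) = sg K v F • e K (F.erase v) := by
  rw [con_e, if_pos h]

lemma con_e_not {v : ι} {F : Finset ι} (h : v ∉ F) : con K v (e K F) = 0 := by
  rw [con_e, if_neg h]

lemma wed_e (v : ι) (F : Finset ι) :
    wed K v (e K F) = if v ∈ F then 0 else sg K v F • e K (insert v F) := by
  simp [wed, Finsupp.linearCombination_single]

lemma wed_e_mem {v : ι} {F : Finset ι} (h : v ∈ F) : wed K v (e K F) = 0 := by
  rw [wed_e, if_pos h]

lemma wed_e_not {v : ι} {F : Finset ι} (h : v ∉ F) :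
    wed K v (e K F) = sg K v F • e K (insert v F) := by
  rw [wed_e, if_neg h]

lemma bd_e (F : Finset ι) : bd K (e K F) = ∑ v ∈ F, con K v (e K F) := by
  have h1 : bd K (e K F) = ∑ v ∈ F, sg K v F • e K (F.erase v) := by
    simp [bd, Finsupp.linearCombination_single]
  rw [h1]
  exact Finset.sum_congr rfl (fun v hv => (con_e_mem K hv).symm)

variable {K} in
/-- two linear maps on chains agree if they agree on basis chains -/
lemma ext_e {M : Type*} [AddCommGroup M] [Module K M] {f g : Ch K ι →ₗ[K] M}
    (h : ∀ F, f (e K F) = g (e K F)) : f = g := by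
  apply Finsupp.lhom_ext'
  intro F
  ext
  exact h F

variable {K} in
/-- membership for a linear map on a supported submodule -/
lemma map_mem {M : Type*} [AddCommGroup M] [Module K M] (f : Ch K ι →ₗ[K] M)
    {A : Set (Finset ι)} {W : Submodule K M} (h : ∀ F ∈ A, f (e K F) ∈ W)
    {c : Ch K ι} (hc : c ∈ Finsupp.supported K K A) : f c ∈ W := by
  have h1 : Finsupp.supported K K A ≤ W.comap f := by
    rw [Finsupp.supported_eq_span_single, Submodule.span_le]
    rintro _ ⟨F, hF, rfl⟩
    exact h F hF
  exact h1 hc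

variable {K} in
/-- equality of two linear maps on a supported submodule -/
lemma map_eq {M : Type*} [AddCommGroup M] [Module K M] (f g : Ch K ι →ₗ[K] M)
    {A : Set (Finset ι)} (h : ∀ F ∈ A, f (e K F) = g (e K F))
    {c : Ch K ι} (hc : c ∈ Finsupp.supported K K A) : f c = g c := by
  have := map_mem (W := ⊥) (f - g) (A := A) (fun F hF => by simp [h F hF]) hc
  rw [Submodule.mem_bot, LinearMap.sub_apply, sub_eq_zero] at this
  exact this

lemma e_mem {A : Set (Finset ι)} {F : Finset ι} (h : F ∈ A) :
    e K F ∈ Finsupp.supported K K A := Finsupp.single_mem_supported K 1 h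

lemma con_con_e (v w : ι) (F : Finset ι) (hvw : v ≠ w) :
    con K v (con K w (e K F)) = - con K w (con K v (e K F)) := by
  by_cases hv : v ∈ F
  · by_cases hw : w ∈ F
    · rw [con_e_mem K hw, con_e_mem K hv, map_smul, map_smul,
        con_e_mem K (Finset.mem_erase.mpr ⟨hvw, hv⟩),
        con_e_mem K (Finset.mem_erase.mpr ⟨hvw.symm, hw⟩), Finset.erase_right_comm, smul_smul,
        smul_smul, ← neg_smul]
      congr 1
      rw [sg_erase K w v F hv, sg_erase K v w F hw]
      rcases lt_or_gt_of_ne hvw with h | h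
      · rw [if_pos h, if_neg (not_lt.mpr h.le)]; ring
      · rw [if_neg (not_lt.mpr h.le), if_pos h]; ring
    · rw [con_e_not K hw, con_e_mem K hv, map_smul, con_e_not K (by simp [hw]), map_zero]
      simp
  · by_cases hw : w ∈ F
    · rw [con_e_not K hv, con_e_mem K hw, map_smul, con_e_not K (by simp [hv]), map_zero]
      simp
    · rw [con_e_not K hw, con_e_not K hv]; simp

lemma con_con_self_e (v : ι) (F : Finset ι) : con K v (con K v (e K F)) = 0 := by
  by_cases hv : v ∈ F
  · rw [con_e_mem K hv, map_smul, con_e_not K (by simp)]; simp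
  · rw [con_e_not K hv]; simp

lemma con_con (v w : ι) (c : Ch K ι) : con K v (con K w c) = - con K w (con K v c) := by
  have : (con K v) ∘ₗ (con K w) = - ((con K w) ∘ₗ (con K v)) := by
    apply ext_e
    intro F
    simp only [LinearMap.comp_apply, LinearMap.neg_apply]
    by_cases h : v = w
    · subst h; rw [con_con_self_e]; simp
    · exact con_con_e K v w F h
  have h2 := LinearMap.congr_fun this c
  simpa using h2

lemma con_wed_self (v : ι) (c : Ch K ι) : con K v (wed K v c) + wed K v (con K v c) = c := by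
  have : (con K v) ∘ₗ (wed K v) + (wed K v) ∘ₗ (con K v) = LinearMap.id := by
    apply ext_e
    intro F
    simp only [LinearMap.comp_apply, LinearMap.add_apply, LinearMap.id_apply]
    by_cases hv : v ∈ F
    · rw [wed_e_mem K hv, con_e_mem K hv, map_smul, wed_e_not K (by simp), map_zero, smul_smul,
        Finset.insert_erase hv, sg_self, sg_sq]
      simp
    · rw [wed_e_not K hv, con_e_not K hv, map_smul, con_e_mem K (by simp), map_zero, smul_smul,
        Finset.erase_insert hv, sg_insert_self, sg_sq]
      simp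
  have h2 := LinearMap.congr_fun this c
  simpa using h2

lemma con_wed (v w : ι) (hvw : v ≠ w) (c : Ch K ι) :
    con K v (wed K w c) = - wed K w (con K v c) := by
  have : (con K v) ∘ₗ (wed K w) = - ((wed K w) ∘ₗ (con K v)) := by
    apply ext_e
    intro F
    simp only [LinearMap.comp_apply, LinearMap.neg_apply]
    by_cases hv : v ∈ F
    · by_cases hw : w ∈ F
      · rw [wed_e_mem K hw, con_e_mem K hv, map_smul, wed_e_mem K (by simp [hw, hvw.symm])]
        simp
      · rw [wed_e_not K hw, con_e_mem K hv, map_smul, map_smul, con_e_mem K (by simp [hv]),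
          wed_e_not K (by simp [hw]), smul_smul, smul_smul, ← neg_smul]
        rw [← Finset.erase_insert_of_ne hvw.symm]
        congr 1
        rw [sg_insert K v w F hw, sg_erase K w v F hv]
        rcases lt_or_gt_of_ne hvw with h | h
        · rw [if_pos h, if_neg (not_lt.mpr h.le)]; ring
        · rw [if_neg (not_lt.mpr h.le), if_pos h]; ring
    · by_cases hw : w ∈ F
      · rw [wed_e_mem K hw, con_e_not K hv]; simp
      · rw [wed_e_not K hw, con_e_not K hv, map_smul, con_e_not K (by simp [hv, hvw])]; simp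
  have h2 := LinearMap.congr_fun this c
  simpa using h2

variable {K} in
/-- `bd` on chains supported on subsets of a finite set -/
lemma bd_eq (A : Finset ι) {c : Ch K ι} (hc : c ∈ Finsupp.supported K K {F | F ⊆ A}) :
    bd K c = ∑ v ∈ A, con K v c := by
  have := map_eq (bd K) (∑ v ∈ A, con K v) (A := {F | F ⊆ A}) ?_ hc
  · rw [this]; simp [LinearMap.sum_apply]
  · intro F hF
    rw [bd_e, LinearMap.sum_apply]
    apply Finset.sum_subset hF
    intro v _ hv
    exact con_e_not K hv

variable {K} in
lemma exists_sup (c : Ch K ι) : ∃ A : Finset ι, c ∈ Finsupp.supported K K {F | F ⊆ A} := by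
  classical
  refine ⟨c.support.sup id, ?_⟩
  rw [Finsupp.mem_supported]
  intro F hF
  exact Finset.le_sup (f := id) (Finset.mem_coe.mp hF)

lemma con_sup {A : Finset ι} (v : ι) {c : Ch K ι}
    (hc : c ∈ Finsupp.supported K K {F | F ⊆ A}) :
    con K v c ∈ Finsupp.supported K K {F | F ⊆ A} := by
  apply map_mem _ _ hc
  intro F hF
  rw [con_e]
  split_ifs
  · exact Submodule.smul_mem _ _ (e_mem K ((Finset.erase_subset _ _).trans hF))
  · exact Submodule.zero_mem _

lemma wed_sup {A : Finset ι} (v : ι) {c : Ch K ι}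
    (hc : c ∈ Finsupp.supported K K {F | F ⊆ A}) :
    wed K v c ∈ Finsupp.supported K K {F | F ⊆ insert v A} := by
  apply map_mem _ _ hc
  intro F hF
  rw [wed_e]
  split_ifs
  · exact Submodule.zero_mem _
  · exact Submodule.smul_mem _ _ (e_mem K (Finset.insert_subset_insert v hF))

lemma sup_mono {A B : Finset ι} (h : A ⊆ B) {c : Ch K ι}
    (hc : c ∈ Finsupp.supported K K {F | F ⊆ A}) :
    c ∈ Finsupp.supported K K {F | F ⊆ B} :=
  Finsupp.supported_mono (fun _ hF => hF.trans h) hc

lemma bd_con (w : ι) (c : Ch K ι) : bd K (con K w c) = - con K w (bd K c) := by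
  obtain ⟨A, hA⟩ := exists_sup c
  rw [bd_eq A hA, bd_eq A (con_sup K w hA), map_sum, ← Finset.sum_neg_distrib]
  exact Finset.sum_congr rfl (fun v _ => con_con K v w c)

lemma bd_wed (w : ι) (c : Ch K ι) : bd K (wed K w c) = c - wed K w (bd K c) := by
  obtain ⟨A, hA⟩ := exists_sup c
  have hA' := sup_mono K (Finset.subset_insert w A) hA
  rw [bd_eq (insert w A) hA', bd_eq (insert w A) (wed_sup K w hA), map_sum,
    ← Finset.add_sum_erase _ _ (Finset.mem_insert_self w A),
    ← Finset.add_sum_erase _ _ (Finset.mem_insert_self w A)]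
  have h1 : ∑ x ∈ (insert w A).erase w, con K x (wed K w c)
      = - ∑ x ∈ (insert w A).erase w, wed K w (con K x c) := by
    rw [← Finset.sum_neg_distrib]
    exact Finset.sum_congr rfl (fun v hv => con_wed K v w (Finset.ne_of_mem_erase hv) c)
  rw [h1]
  have h2 : con K w (wed K w c) = c - wed K w (con K w c) := by
    rw [eq_sub_iff_add_eq]; exact con_wed_self K w c
  rw [h2]
  abel

lemma e_insert {v : ι} {F : Finset ι} (h : v ∉ F) :
    e K (insert v F) = sg K v F • wed K v (e K F) := by
  rw [wed_e_not K h, smul_smul, sg_sq, one_smul]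

lemma bd_empty : bd K (e K (∅ : Finset ι)) = 0 := by
  rw [bd_e]; simp

lemma bd_bd (c : Ch K ι) : bd K (bd K c) = 0 := by
  have : (bd K) ∘ₗ (bd K) = (0 : Ch K ι →ₗ[K] Ch K ι) := by
    apply ext_e
    intro F
    simp only [LinearMap.comp_apply, LinearMap.zero_apply]
    induction F using Finset.induction_on with
    | empty => rw [bd_empty, map_zero]
    | insert v F hv ih =>
      rw [e_insert K hv, map_smul, map_smul, bd_wed, map_sub, bd_wed, ih, map_zero]
      simp
  exact LinearMap.congr_fun this c

lemma con_con_self (v : ι) (c : Ch K ι) : con K v (con K v c) = 0 := by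
  have : (con K v) ∘ₗ (con K v) = 0 := ext_e (fun F => con_con_self_e K v F)
  exact LinearMap.congr_fun this c

/-- the operator `∑ v, f v • wed (τ v) (con v ·)` -/
noncomputable def Op (τ : ι → ι) (f : ι → K) : Ch K ι →ₗ[K] Ch K ι :=
  Finsupp.linearCombination K (fun F => ∑ v ∈ F, f v • wed K (τ v) (con K v (e K F)))

lemma Op_e (τ : ι → ι) (f : ι → K) (F : Finset ι) :
    Op K τ f (e K F) = ∑ v ∈ F, f v • wed K (τ v) (con K v (e K F)) := by
  simp [Op, Finsupp.linearCombination_single]

variable {K} in
lemma Op_eq (τ : ι → ι) (f : ι → K) (A : Finset ι) {c : Ch K ι}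
    (hc : c ∈ Finsupp.supported K K {F | F ⊆ A}) :
    Op K τ f c = ∑ v ∈ A, f v • wed K (τ v) (con K v c) := by
  have := map_eq (Op K τ f) (∑ v ∈ A, f v • ((wed K (τ v)) ∘ₗ (con K v)))
    (A := {F | F ⊆ A}) ?_ hc
  · rw [this]; simp [LinearMap.sum_apply]
  · intro F hF
    rw [Op_e, LinearMap.sum_apply]
    simp only [LinearMap.smul_apply, LinearMap.comp_apply]
    apply Finset.sum_subset hF
    intro v _ hv
    rw [con_e_not K hv]; simp

/-- the commutator of `bd` with `Op τ f` does not depend on `τ` -/
lemma bd_Op (τ τ' : ι → ι) (f : ι → K) (c : Ch K ι) :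
    bd K (Op K τ f c) - Op K τ f (bd K c) = bd K (Op K τ' f c) - Op K τ' f (bd K c) := by
  have key : ∀ σ : ι → ι, ∀ A : Finset ι, c ∈ Finsupp.supported K K {F | F ⊆ A} →
      bd K (Op K σ f c) - Op K σ f (bd K c) = ∑ v ∈ A, f v • con K v c := by
    intro σ A hA
    have h1 : bd K c ∈ Finsupp.supported K K {F | F ⊆ A} := by
      rw [bd_eq A hA]
      exact Submodule.sum_mem _ (fun v _ => con_sup K v hA)
    rw [Op_eq σ f A hA, Op_eq σ f A h1, map_sum, ← Finset.sum_sub_distrib]
    apply Finset.sum_congr rfl
    intro v _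
    rw [map_smul, bd_wed, bd_con, map_neg, ← smul_sub]
    congr 1
    abel
  obtain ⟨A, hA⟩ := exists_sup c
  rw [key τ A hA, key τ' A hA]

lemma Op_id_e (f : ι → K) (F : Finset ι) : Op K id f (e K F) = (∑ v ∈ F, f v) • e K F := by
  rw [Op_e, Finset.sum_smul]
  apply Finset.sum_congr rfl
  intro v hv
  rw [con_e_mem K hv, map_smul, id, wed_e_not K (by simp), smul_smul, smul_smul,
    Finset.insert_erase hv, sg_self, mul_assoc, sg_sq, mul_one]

end Pool.Agent.Helper40.MukN
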