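import Pool.Agent.Helper40.MukN.Chain

/-!
# The duality lemma for the full simplex
-/

namespace Pool.Agent.Helper40.MukN

open Finset

variable {K : Type*} [Field K] {ι : Type*} [LinearOrder ι]

lemma coef_con (v : ι) (c : Ch K ι) (F : Finset ι) (h : v ∉ F) :
    (con K v c) F = sg K v F * c (insert v F) := by
  induction c using Finsupp.induction_linear with
  | zero => simp
  | add c d hc hd => rw [map_add, Finsupp.add_apply, hc, hd, Finsupp.add_apply]; ring
  | single H a =>
    have h1 : (Finsupp.single H a : Ch K ι) = a • e K H := by simp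
    rw [h1, map_smul, Finsupp.smul_apply, Finsupp.smul_apply, con_e]
    split_ifs with hv
    · by_cases hH : H = insert v F
      · subst hH
        rw [Finset.erase_insert h, sg_insert_self]; simp; ring
      · have h2 : H.erase v ≠ F := by
          intro h3
          apply hH
          rw [← h3, Finset.insert_erase hv]
        simp [Finsupp.single_apply, hH, h2]
    · have : H ≠ insert v F := by
        intro h3; apply hv; rw [h3]; simp
      simp [Finsupp.single_apply, this]

lemma coef_con_mem (v : ι) (c : Ch K ι) (F : Finset ι) (h : v ∈ F) :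
    (con K v c) F = 0 := by
  induction c using Finsupp.induction_linear with
  | zero => simp
  | add c d hc hd => rw [map_add, Finsupp.add_apply, hc, hd]; ring
  | single H a =>
    have h1 : (Finsupp.single H a : Ch K ι) = a • e K H := by simp
    rw [h1, map_smul, Finsupp.smul_apply, con_e]
    split_ifs with hv
    · have h2 : H.erase v ≠ F := by
        intro h3
        rw [← h3] at h
        simp at h
      simp [Finsupp.single_apply, h2]
    · simp

/-- **Lemma G.** A cycle supported on `q`-subsets of `I` whose values of `τ - ∑ val` lie in a set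
of at most `q` integers is zero. -/
lemma lemG (val : ι → ℤ) : ∀ (n : ℕ) (I : Finset ι), I.card = n → Set.InjOn val I →
    ∀ (q : ℕ) (Y : Finset ℤ) (τ : ℤ) (α : Ch K ι), Y.card ≤ q →
    α ∈ Finsupp.supported K K {R | R ⊆ I ∧ R.card = q ∧ τ - ∑ v ∈ R, val v ∈ Y} →
    bd K α = 0 → α = 0 := by
  intro n
  induction n with
  | zero =>
    intro I hI _ q Y τ α hY hα _
    have hI0 : I = ∅ := Finset.card_eq_zero.mp hI
    have : (LinearMap.id : Ch K ι →ₗ[K] Ch K ι) α ∈ (⊥ : Submodule K (Ch K ι)) := by
      apply map_mem _ _ hα
      rintro F ⟨h1, h2, h3⟩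
      rw [hI0, Finset.subset_empty] at h1
      subst h1
      rw [Finset.card_empty] at h2
      have h4 : Y.card = 0 := by omega
      rw [Finset.card_eq_zero] at h4
      rw [h4] at h3
      simp at h3
    simpa using this
  | succ n ih =>
    intro I hI hinj q Y τ α hY hα hbd
    by_cases hY0 : Y = ∅
    · have : (LinearMap.id : Ch K ι →ₗ[K] Ch K ι) α ∈ (⊥ : Submodule K (Ch K ι)) := by
        apply map_mem _ _ hα
        rintro F ⟨h1, h2, h3⟩
        rw [hY0] at h3
        simp at h3
      simpa using this
    have hYne : Y.Nonempty := Finset.nonempty_iff_ne_empty.mpr hY0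
    have hq : 1 ≤ q := le_trans (Finset.card_pos.mpr hYne) hY
    obtain ⟨r, rfl⟩ : ∃ r, q = r + 1 := ⟨q - 1, by omega⟩
    have hIne : I.Nonempty := Finset.card_pos.mp (by omega)
    obtain ⟨v₀, hv₀, hmax⟩ := Finset.exists_max_image I val hIne
    set M := Y.max' hYne with hM
    have hcard : (I.erase v₀).card = n := by rw [Finset.card_erase_of_mem hv₀, hI]; rfl
    have hinj' : Set.InjOn val (I.erase v₀ : Finset ι) :=
      hinj.mono (fun _ h => Finset.mem_of_mem_erase h)
    -- the contraction
    have hβ0 : con K v₀ α = 0 := by
      apply ih (I.erase v₀) hcard hinj' r (Y.erase M) (τ - val v₀) _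
      · rw [Finset.card_erase_of_mem (Finset.max'_mem Y hYne)]; omega
      · have h1 : con K v₀ α ∈ Finsupp.supported K K {R | R ⊆ I.erase v₀ ∧ R.card = r ∧
            τ - val v₀ - ∑ v ∈ R, val v ∈ Y} := by
          apply map_mem _ _ hα
          rintro F ⟨h1, h2, h3⟩
          rw [con_e]
          split_ifs with hv
          · refine Submodule.smul_mem _ _ (e_mem K ⟨Finset.erase_subset_erase _ h1, ?_, ?_⟩)
            · rw [Finset.card_erase_of_mem hv, h2]; rfl
            · have := Finset.add_sum_erase F val hv
              have h4 : τ - val v₀ - ∑ v ∈ F.erase v₀, val v = τ - ∑ v ∈ F, val v := by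
                rw [← this]; ring
              rw [h4]; exact h3
          · exact Submodule.zero_mem _
        rw [Finsupp.mem_supported] at h1 ⊢
        intro R hR
        obtain ⟨h2, h3, h4⟩ := h1 hR
        refine ⟨h2, h3, Finset.mem_erase.mpr ⟨?_, h4⟩⟩
        intro hRM
        -- the coefficient of `R` in `bd α`
        have hv₀R : v₀ ∉ R := fun h => by simpa using h2 h
        have h5 : (bd K α) R = 0 := by rw [hbd]; rfl
        have hα' : α ∈ Finsupp.supported K K {F | F ⊆ I} :=
          Finsupp.supported_mono (fun F hF => hF.1) hα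
        rw [bd_eq I hα', Finsupp.finset_sum_apply, ← Finset.add_sum_erase I _ hv₀] at h5
        have h6 : ∀ v ∈ I.erase v₀, (con K v α) R = 0 := by
          intro v hv
          by_cases hvR : v ∈ R
          · exact coef_con_mem v α R hvR
          · rw [coef_con v α R hvR]
            have h7 : α (insert v R) = 0 := by
              by_contra h8
              rw [Finsupp.mem_supported] at hα
              have h9 := (hα (Finset.mem_coe.mpr (Finsupp.mem_support_iff.mpr h8))).2.2
              rw [Finset.sum_insert hvR] at h9
              have h10 := Finset.le_max' Y _ h9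
              have h11 : val v < val v₀ := by
                rcases lt_or_eq_of_le (hmax v (Finset.mem_of_mem_erase hv)) with h | h
                · exact h
                · exact absurd (hinj (Finset.mem_of_mem_erase hv) hv₀ h)
                    (Finset.ne_of_mem_erase hv)
              rw [← hM, ← hRM] at h10
              linarith
            rw [h7, mul_zero]
        rw [Finset.sum_eq_zero h6, add_zero] at h5
        have h12 := Finset.mem_coe.mp hR
        rw [Finsupp.mem_support_iff] at h12
        exact h12 h5
      · rw [bd_con, hbd, map_zero, neg_zero]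
    -- now `α` lives on `I.erase v₀`
    apply ih (I.erase v₀) hcard hinj' (r + 1) Y τ α hY _ hbd
    rw [Finsupp.mem_supported] at hα ⊢
    intro R hR
    obtain ⟨h2, h3, h4⟩ := hα hR
    refine ⟨?_, h3, h4⟩
    rw [Finset.subset_erase]
    refine ⟨h2, fun hv => ?_⟩
    have h5 : (con K v₀ α) (R.erase v₀) = 0 := by rw [hβ0]; rfl
    rw [coef_con v₀ α _ (by simp), Finset.insert_erase hv] at h5
    have h6 : sg K v₀ (R.erase v₀) ≠ 0 := by
      intro h7
      have := sg_sq K v₀ (R.erase v₀)
      rw [h7] at this
      simp at this
    rcases mul_eq_zero.mp h5 with h | h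
    · exact h6 h
    · exact (Finsupp.mem_support_iff.mp (Finset.mem_coe.mp hR)) h

lemma sg_union (v : ι) {A B : Finset ι} (h : Disjoint A B) :
    sg K v (A ∪ B) = sg K v A * sg K v B := by
  unfold sg
  rw [Finset.filter_union, Finset.card_union_of_disjoint, pow_add]
  exact Finset.disjoint_filter_filter h

/-- **Lemma G'.** Chains can be moved off a small set of faces by boundaries. -/
lemma lemG' (val : ι → ℤ) (I : Finset ι) (hinj : Set.InjOn val I) (r : ℕ) (hr : r ≤ I.card)
    (Y : Finset ℤ) (hY : Y.card ≤ I.card - r) (U : Set (Finset ι))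
    (hU1 : ∀ Q ∈ U, Q ⊆ I ∧ Q.card = r) (σ : ℤ) (hU : ∀ Q ∈ U, σ + ∑ v ∈ Q, val v ∈ Y)
    (b : Ch K ι) :
    ∃ c ∈ Finsupp.supported K K {Q | Q ⊆ I ∧ Q.card = r + 1}, ∀ Q ∈ U, (b - bd K c) Q = 0 := by
  set W : Submodule K (Ch K ι) := (Finsupp.supported K K {Q | Q ⊆ I ∧ Q.card = r + 1}).map (bd K)
    ⊔ Finsupp.supported K K Uᶜ with hW
  have hWtop : W = ⊤ := by
    by_contra hne
    obtain ⟨g, hg0, hg⟩ := Submodule.exists_le_ker_of_lt_top W (lt_top_iff_ne_top.mpr hne)
    have hg1 : ∀ Q ∉ U, g (e K Q) = 0 := by
      intro Q hQ
      have : e K Q ∈ W := Submodule.mem_sup_right (e_mem K hQ)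
      exact hg this
    have hg2 : ∀ Q : Finset ι, Q ⊆ I → Q.card = r + 1 → g (bd K (e K Q)) = 0 := by
      intro Q h1 h2
      have : bd K (e K Q) ∈ W :=
        Submodule.mem_sup_left (Submodule.mem_map_of_mem (e_mem K ⟨h1, h2⟩))
      exact hg this
    set ε : Finset ι → K := fun Q => ∏ s ∈ Q, sg K s I with hε
    set α : Ch K ι := ∑ R ∈ I.powersetCard (I.card - r), (ε (I \ R) * g (e K (I \ R))) • e K R
      with hα
    have hαc : ∀ R : Finset ι, R ⊆ I → R.card = I.card - r → α R = ε (I \ R) * g (e K (I \ R)) := by
      intro R h1 h2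
      rw [hα, Finsupp.finset_sum_apply]
      rw [Finset.sum_eq_single R]
      · simp
      · intro R' _ hR'
        simp [Finsupp.single_apply, hR']
      · intro h3
        exact absurd (Finset.mem_powersetCard.mpr ⟨h1, h2⟩) h3
    have hαs : α ∈ Finsupp.supported K K {R | R ⊆ I ∧ R.card = I.card - r ∧
        (σ + ∑ v ∈ I, val v) - ∑ v ∈ R, val v ∈ Y} := by
      rw [hα]
      apply Submodule.sum_mem
      intro R hR
      rw [Finset.mem_powersetCard] at hR
      by_cases h1 : I \ R ∈ U
      · refine Submodule.smul_mem _ _ (e_mem K ⟨hR.1, hR.2, ?_⟩)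
        have h2 := hU _ h1
        have h3 := Finset.sum_sdiff (f := val) hR.1
        have h4 : σ + ∑ v ∈ I, val v - ∑ v ∈ R, val v = σ + ∑ v ∈ I \ R, val v := by
          rw [← h3]; ring
        rw [h4]; exact h2
      · rw [hg1 _ h1, mul_zero, zero_smul]; exact Submodule.zero_mem _
    have hαI : α ∈ Finsupp.supported K K {F | F ⊆ I} :=
      Finsupp.supported_mono (fun F hF => hF.1) hαs
    have hαbd : bd K α = 0 := by
      ext R'
      rw [bd_eq I hαI, Finsupp.finset_sum_apply]
      by_cases hcase : R' ⊆ I ∧ R'.card + 1 = I.card - r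
      · obtain ⟨h1, h2⟩ := hcase
        have h3 : (∑ v ∈ I, (con K v α) R') =
            ∑ v ∈ I \ R', ε (I \ R') * (sg K v (I \ R') * g (e K ((I \ R').erase v))) := by
          rw [← Finset.sum_sdiff h1, Finset.sum_eq_zero (s := R')
            (fun v hv => coef_con_mem v α R' hv), add_zero]
          apply Finset.sum_congr rfl
          intro v hv
          obtain ⟨hvI, hvR⟩ := Finset.mem_sdiff.mp hv
          rw [coef_con v α R' hvR, hαc (insert v R') (Finset.insert_subset hvI h1)
            (by rw [Finset.card_insert_of_notMem hvR, h2])]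
          have h4 : I \ insert v R' = (I \ R').erase v := by
            ext w; simp only [Finset.mem_sdiff, Finset.mem_insert, Finset.mem_erase]; tauto
          rw [h4]
          have h5 : ε (I \ R') = sg K v I * ε ((I \ R').erase v) := by
            simp only [hε]
            rw [← Finset.mul_prod_erase _ _ hv]
          have h6 : sg K v I = sg K v R' * sg K v (I \ R') := by
            rw [← sg_union v (Finset.disjoint_sdiff), Finset.union_sdiff_of_subset h1]
          rw [h5, h6]
          have h7 := sg_sq K v (I \ R')
          linear_combination (-(sg K v R' * ε ((I \ R').erase v) * g (e K ((I \ R').erase v)))) * h7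
        rw [h3, ← Finset.mul_sum]
        have h8 := hg2 (I \ R') Finset.sdiff_subset (by
          rw [Finset.card_sdiff_of_subset h1]
          have := Finset.card_le_card h1
          omega)
        rw [bd_e, map_sum] at h8
        have h9 : ∑ v ∈ I \ R', sg K v (I \ R') * g (e K ((I \ R').erase v)) = 0 := by
          rw [← h8]
          apply Finset.sum_congr rfl
          intro v hv
          rw [con_e_mem K hv, map_smul, smul_eq_mul]
        rw [h9, mul_zero]; rfl
      · rw [Finset.sum_eq_zero]
        · rfl
        · intro v hv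
          by_cases hvR : v ∈ R'
          · exact coef_con_mem v α R' hvR
          · rw [coef_con v α R' hvR]
            have : α (insert v R') = 0 := by
              by_contra h8
              rw [Finsupp.mem_supported] at hαs
              obtain ⟨h9, h10, _⟩ := hαs (Finset.mem_coe.mpr (Finsupp.mem_support_iff.mpr h8))
              apply hcase
              refine ⟨(Finset.subset_insert _ _).trans h9, ?_⟩
              rw [Finset.card_insert_of_notMem hvR] at h10
              exact h10
            rw [this, mul_zero]
    have hα0 := lemG val I.card I rfl hinj (I.card - r) Y _ α hY hαs hαbd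
    apply hg0
    apply ext_e
    intro Q
    rw [LinearMap.zero_apply]
    by_cases hQ : Q ∈ U
    · obtain ⟨h1, h2⟩ := hU1 Q hQ
      have h3 := hαc (I \ Q) Finset.sdiff_subset (by
        rw [Finset.card_sdiff_of_subset h1, h2])
      rw [hα0, Finset.sdiff_sdiff_eq_self h1] at h3
      have h4 : ε Q ≠ 0 := by
        simp only [hε]
        rw [Finset.prod_ne_zero_iff]
        intro s _ h5
        have := sg_sq K s I
        rw [h5] at this
        simp at this
      have h5 : ε Q * g (e K Q) = 0 := h3.symm
      rcases mul_eq_zero.mp h5 with h | h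
      · exact absurd h h4
      · exact h
    · exact hg1 Q hQ
  have hb : b ∈ W := by rw [hWtop]; trivial
  rw [hW, Submodule.mem_sup] at hb
  obtain ⟨y, hy, w, hw, hyw⟩ := hb
  obtain ⟨c, hc, rfl⟩ := hy
  refine ⟨c, hc, fun Q hQ => ?_⟩
  rw [← hyw, add_sub_cancel_left]
  rw [Finsupp.mem_supported] at hw
  by_contra h
  exact hw (Finset.mem_coe.mpr (Finsupp.mem_support_iff.mpr h)) hQ

end Pool.Agent.Helper40.MukN
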