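import Pool.Agent.Helper40.MukN.One

/-!
# Several basis vectors with the same monomial, and scalars
-/

namespace Pool.Agent.Helper40.MukN

open Finset

section General

variable {K : Type*} [CommRing K] {ι : Type*} [LinearOrder ι]

variable (K) in
/-- the boundary with scalars -/
noncomputable def bdw (lam : ι → K) : Ch K ι →ₗ[K] Ch K ι :=
  Finsupp.linearCombination K (fun F => ∑ v ∈ F, lam v • con K v (e K F))

lemma bdw_e (lam : ι → K) (F : Finset ι) :
    bdw K lam (e K F) = ∑ v ∈ F, lam v • con K v (e K F) := by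
  simp [bdw, Finsupp.linearCombination_single]

lemma bdw_eq (lam : ι → K) (A : Finset ι) {c : Ch K ι}
    (hc : c ∈ Finsupp.supported K K {F | F ⊆ A}) :
    bdw K lam c = ∑ v ∈ A, lam v • con K v c := by
  have := map_eq (bdw K lam) (∑ v ∈ A, lam v • con K v) (A := {F | F ⊆ A}) ?_ hc
  · rw [this]; simp [LinearMap.sum_apply]
  · intro F hF
    rw [bdw_e, LinearMap.sum_apply]
    apply Finset.sum_subset hF
    intro v _ hv
    rw [con_e_not K hv, smul_zero]

lemma bdw_con (lam : ι → K) (w : ι) (c : Ch K ι) :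
    bdw K lam (con K w c) = - con K w (bdw K lam c) := by
  obtain ⟨A, hA⟩ := exists_sup c
  rw [bdw_eq lam A hA, bdw_eq lam A (con_sup K w hA), map_sum, ← Finset.sum_neg_distrib]
  refine Finset.sum_congr rfl (fun v _ => ?_)
  rw [map_smul, con_con K v w c, smul_neg]

lemma bdw_wed (lam : ι → K) (w : ι) (c : Ch K ι) :
    bdw K lam (wed K w c) = lam w • c - wed K w (bdw K lam c) := by
  obtain ⟨A, hA⟩ := exists_sup c
  have hA' := sup_mono K (Finset.subset_insert w A) hA
  rw [bdw_eq lam (insert w A) hA', bdw_eq lam (insert w A) (wed_sup K w hA), map_sum,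
    ← Finset.add_sum_erase _ _ (Finset.mem_insert_self w A),
    ← Finset.add_sum_erase _ _ (Finset.mem_insert_self w A)]
  have h1 : ∑ x ∈ (insert w A).erase w, lam x • con K x (wed K w c)
      = - ∑ x ∈ (insert w A).erase w, wed K w (lam x • con K x c) := by
    rw [← Finset.sum_neg_distrib]
    refine Finset.sum_congr rfl (fun v hv => ?_)
    rw [con_wed K v w (Finset.ne_of_mem_erase hv) c, map_smul, smul_neg]
  rw [h1]
  have h2 : con K w (wed K w c) = c - wed K w (con K w c) := by
    rw [eq_sub_iff_add_eq]; exact con_wed_self K w c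
  rw [h2, map_smul, smul_sub]
  abel

lemma bdw_bdw (lam : ι → K) (c : Ch K ι) : bdw K lam (bdw K lam c) = 0 := by
  have : (bdw K lam) ∘ₗ (bdw K lam) = (0 : Ch K ι →ₗ[K] Ch K ι) := by
    apply ext_e
    intro F
    simp only [LinearMap.comp_apply, LinearMap.zero_apply]
    induction F using Finset.induction_on with
    | empty => rw [bdw_e]; simp
    | insert v F hv ih =>
      rw [e_insert K hv, map_smul, map_smul, bdw_wed, map_sub, bdw_wed, ih, map_zero, map_smul]
      simp
  exact LinearMap.congr_fun this c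

lemma sg_image {ι' : Type*} [LinearOrder ι'] (σ : ι → ι') (hσ : StrictMono σ) (v : ι)
    (H : Finset ι) : sg K (σ v) (H.image σ) = sg K v H := by
  unfold sg
  congr 1
  rw [Finset.filter_image, Finset.card_image_of_injective _ hσ.injective]
  congr 1
  ext w
  simp [hσ.lt_iff_lt]

end General

/-- index type for the basis vectors -/
abbrev Ix := G ×ₗ ℕ

/-- the multidegree of a basis vector -/
def kap (a : Ix) : G := (ofLex a).1

/-- the multidegree of a set of basis vectors -/
noncomputable def kaps (F : Finset Ix) : G := ∑ a ∈ F, kap a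

lemma kaps_erase {F : Finset Ix} {a : Ix} (h : a ∈ F) : kaps (F.erase a) = kaps F - kap a := by
  unfold kaps
  rw [← Finset.add_sum_erase F kap h]; abel

lemma kaps_insert {F : Finset Ix} {a : Ix} (h : a ∉ F) :
    kaps (insert a F) = kap a + kaps F := by
  unfold kaps
  rw [Finset.sum_insert h]

variable {S M : Set ℤ} {l f : ℤ} {K : Type*} [Field K]

/-- no variable `x_i` with `i > n` -/
def nv (n : ℕ) (μ : G) : Prop := ∀ i, n < i → co i μ = 0

lemma nv_sub {n : ℕ} {μ ν : G} (h1 : nv n μ) (h2 : nv n ν) : nv n (μ - ν) := by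
  intro i hi
  rw [map_sub, h1 i hi, h2 i hi, sub_zero]

/-- faces -/
def Fp (M : Set ℤ) (A : Finset Ix) (p : ℕ) (μ : G) : Set (Finset Ix) :=
  {F | F ⊆ A ∧ F.card = p ∧ μ - kaps F ∈ Gam M}

variable (K M) in
/-- exactness with scalars -/
def EXl (lam : Ix → K) (A : Finset Ix) (p : ℕ) (μ : G) : Prop :=
  ∀ c ∈ Finsupp.supported K K (Fp M A p μ), bdw K lam c = 0 →
    ∃ b ∈ Finsupp.supported K K (Fp M A (p + 1) μ), bdw K lam b = c

lemma wed_Fp {A : Finset Ix} {p : ℕ} {μ : G} {a : Ix} (ha : a ∈ A) {c : Ch K Ix}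
    (hc : c ∈ Finsupp.supported K K (Fp M A p (μ - kap a))) :
    wed K a c ∈ Finsupp.supported K K (Fp M A (p + 1) μ) := by
  apply map_mem _ _ hc
  rintro F ⟨h1, h2, h3⟩
  rw [wed_e]
  split_ifs with h
  · exact Submodule.zero_mem _
  · refine Submodule.smul_mem _ _ (e_mem K ⟨Finset.insert_subset ha h1, ?_, ?_⟩)
    · rw [Finset.card_insert_of_notMem h, h2]
    · rw [kaps_insert h]
      have : μ - (kap a + kaps F) = μ - kap a - kaps F := by abel
      rw [this]; exact h3

/-- adding one basis vector -/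
lemma ext_one {lam : Ix → K} {A : Finset Ix} {a : Ix} (ha : a ∉ A) {n : ℕ} (hn : nv n (kap a))
    (hdg : dg (kap a) = l) (h1 : lam a = 0 ∨ ∃ a₀ ∈ A, kap a₀ = kap a ∧ lam a₀ ≠ 0)
    {p : ℕ} {T : ℤ} (hp : ∀ μ, nv n μ → T ≤ dg μ → EXl M K lam A p μ)
    (hp1 : ∀ q, p = q + 1 → ∀ μ, nv n μ → T - l ≤ dg μ → EXl M K lam A q μ) :
    ∀ μ, nv n μ → T ≤ dg μ → EXl M K lam (insert a A) p μ := by
  intro μ hμn hμ c hc hc0
  set c₁ := con K a c with hc₁
  set c₀ := c - wed K a c₁ with hc₀
  have hcc : c = c₀ + wed K a c₁ := by rw [hc₀]; abel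
  have hc₀' : c₀ = con K a (wed K a c) := by
    have := con_wed_self K a c
    rw [hc₀, hc₁]
    exact (eq_sub_of_add_eq this).symm
  have hc₀m : c₀ ∈ Finsupp.supported K K (Fp M A p μ) := by
    rw [hc₀']
    have : ((con K a) ∘ₗ (wed K a)) c ∈ Finsupp.supported K K (Fp M A p μ) := by
      apply map_mem _ _ hc
      rintro F ⟨h1, h2, h3⟩
      rw [LinearMap.comp_apply, wed_e]
      split_ifs with h
      · rw [map_zero]; exact Submodule.zero_mem _
      · rw [map_smul, con_e_mem K (Finset.mem_insert_self a F), Finset.erase_insert h]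
        refine Submodule.smul_mem _ _ (Submodule.smul_mem _ _ (e_mem K ⟨?_, h2, h3⟩))
        intro w hw
        rcases Finset.mem_insert.mp (h1 hw) with rfl | h5
        · exact absurd hw h
        · exact h5
    exact this
  have hc₁0 : bdw K lam c₁ = 0 := by rw [hc₁, bdw_con, hc0, map_zero, neg_zero]
  have hbc₀ : bdw K lam c₀ = - (lam a • c₁) := by
    rw [hc₀, map_sub, hc0, bdw_wed, hc₁0, map_zero, sub_zero, zero_sub]
  -- `c₁` is a boundary
  obtain ⟨b₁, hb₁m, hb₁⟩ : ∃ b₁ ∈ Finsupp.supported K K (Fp M A p (μ - kap a)),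
      bdw K lam b₁ = c₁ := by
    rcases p with _ | q
    · refine ⟨0, Submodule.zero_mem _, ?_⟩
      have : c₁ ∈ (⊥ : Submodule K (Ch K Ix)) := by
        apply map_mem _ _ hc
        rintro F ⟨h1, h2, h3⟩
        have : F = ∅ := Finset.card_eq_zero.mp h2
        subst this
        rw [con_e_not K (by simp)]
        exact Submodule.zero_mem _
      rw [Submodule.mem_bot] at this
      rw [this, map_zero]
    · apply hp1 q rfl (μ - kap a) (nv_sub hμn hn) (by rw [map_sub, hdg]; omega) c₁ _ hc₁0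
      apply map_mem _ _ hc
      rintro F ⟨h1, h2, h3⟩
      rw [con_e]
      split_ifs with h
      · refine Submodule.smul_mem _ _ (e_mem K ⟨?_, ?_, ?_⟩)
        · intro w hw
          rw [Finset.mem_erase] at hw
          rcases Finset.mem_insert.mp (h1 hw.2) with h5 | h5
          · exact absurd h5 hw.1
          · exact h5
        · rw [Finset.card_erase_of_mem h, h2]; rfl
        · rw [kaps_erase h]
          have : μ - kap a - (kaps F - kap a) = μ - kaps F := by abel
          rw [this]; exact h3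
      · exact Submodule.zero_mem _
  have hmono : ∀ q ν, Finsupp.supported K K (Fp M A q ν) ≤
      Finsupp.supported K K (Fp M (insert a A) q ν) := fun q ν =>
    Finsupp.supported_mono (fun F hF => ⟨hF.1.trans (Finset.subset_insert a A), hF.2⟩)
  have hwb : wed K a b₁ ∈ Finsupp.supported K K (Fp M (insert a A) (p + 1) μ) :=
    wed_Fp (Finset.mem_insert_self a A) (hmono _ _ hb₁m)
  rcases h1 with h1 | ⟨a₀, ha₀, hκ, hl0⟩
  · -- `lam a = 0`
    obtain ⟨b₀, hb₀m, hb₀⟩ := hp μ hμn hμ c₀ hc₀m (by rw [hbc₀, h1, zero_smul, neg_zero])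
    refine ⟨b₀ - wed K a b₁, Submodule.sub_mem _ (hmono _ _ hb₀m) hwb, ?_⟩
    rw [map_sub, hb₀, bdw_wed, h1, zero_smul, zero_sub, hb₁, sub_neg_eq_add, ← hcc]
  · set r := lam a * (lam a₀)⁻¹ with hr
    have hr2 : r * lam a₀ = lam a := by rw [hr]; field_simp
    have hw1 : wed K a₀ c₁ ∈ Finsupp.supported K K (Fp M A p μ) := by
      rcases p with _ | q
      · have : c₁ ∈ (⊥ : Submodule K (Ch K Ix)) := by
          apply map_mem _ _ hc
          rintro F ⟨h1, h2, h3⟩
          have : F = ∅ := Finset.card_eq_zero.mp h2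
          subst this
          rw [con_e_not K (by simp)]
          exact Submodule.zero_mem _
        rw [Submodule.mem_bot] at this
        rw [this, map_zero]; exact Submodule.zero_mem _
      · apply wed_Fp ha₀
        rw [hκ]
        apply map_mem _ _ hc
        rintro F ⟨h1, h2, h3⟩
        rw [con_e]
        split_ifs with h
        · refine Submodule.smul_mem _ _ (e_mem K ⟨?_, ?_, ?_⟩)
          · intro w hw
            rw [Finset.mem_erase] at hw
            rcases Finset.mem_insert.mp (h1 hw.2) with h5 | h5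
            · exact absurd h5 hw.1
            · exact h5
          · rw [Finset.card_erase_of_mem h, h2]; rfl
          · rw [kaps_erase h]
            have : μ - kap a - (kaps F - kap a) = μ - kaps F := by abel
            rw [this]; exact h3
        · exact Submodule.zero_mem _
    obtain ⟨b₀, hb₀m, hb₀⟩ := hp μ hμn hμ (c₀ + r • wed K a₀ c₁)
      (Submodule.add_mem _ hc₀m (Submodule.smul_mem _ _ hw1)) (by
        rw [map_add, map_smul, hbc₀, bdw_wed, hc₁0, map_zero, sub_zero, smul_smul, hr2]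
        abel)
    have hw2 : wed K a₀ b₁ ∈ Finsupp.supported K K (Fp M A (p + 1) μ) :=
      wed_Fp ha₀ (by rw [hκ]; exact hb₁m)
    refine ⟨b₀ - wed K a b₁ + r • wed K a₀ b₁, Submodule.add_mem _
      (Submodule.sub_mem _ (hmono _ _ hb₀m) hwb)
      (Submodule.smul_mem _ _ (hmono _ _ hw2)), ?_⟩
    rw [map_add, map_sub, map_smul, hb₀, bdw_wed, bdw_wed, hb₁, smul_sub, smul_smul, hr2]
    conv_rhs => rw [hcc]
    abel

/-- adding several basis vectors -/
lemma ext_many {lam : Ix → K} {A₀ : Finset Ix} {n : ℕ} {f : ℤ} (hl : 0 ≤ l)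
    (C : Finset Ix) (hC : ∀ a ∈ C, nv n (kap a) ∧ dg (kap a) = l ∧
      (lam a = 0 ∨ ∃ a₀ ∈ A₀, kap a₀ = kap a ∧ lam a₀ ≠ 0))
    {P : ℤ} (hbase : ∀ p : ℕ, (p : ℤ) ≤ P → ∀ μ, nv n μ → tt l f p ≤ dg μ →
      EXl M K lam A₀ p μ) :
    ∀ p : ℕ, (p : ℤ) ≤ P → ∀ μ, nv n μ → tt l f p ≤ dg μ → EXl M K lam (C ∪ A₀) p μ := by
  classical
  induction C using Finset.induction_on with
  | empty => simpa using hbase
  | insert a C _ ih =>
    have ih' := ih (fun b hb => hC b (Finset.mem_insert_of_mem hb))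
    intro p hp
    rw [Finset.insert_union]
    by_cases haA : a ∈ C ∪ A₀
    · rw [Finset.insert_eq_of_mem haA]; exact ih' p hp
    obtain ⟨h1, h2, h3⟩ := hC a (Finset.mem_insert_self a C)
    apply ext_one haA h1 h2 _ (ih' p hp)
    · intro q hq μ hμn hμ
      apply ih' q (by omega) μ hμn
      rw [hq, tt_succ] at hμ
      linarith
    · rcases h3 with h3 | ⟨a₀, ha₀, h4, h5⟩
      · exact Or.inl h3
      · exact Or.inr ⟨a₀, Finset.mem_union_right _ ha₀, h4, h5⟩

end Pool.Agent.Helper40.MukN
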