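import Pool.Agent.Helper40.MukN.Base

/-!
# The filtration argument
-/

namespace Pool.Agent.Helper40.MukN

open Finset

/-- degree in the variables `x_i` -/
noncomputable def xd : G →+ ℤ := dg - co 0

lemma xd_apply (g : G) : xd g = dg g - co 0 g := rfl

/-- level of a basis vector -/
def lev (a : Ix) : ℕ := (ofLex a).2

/-- build an index -/
def mk (g : G) (i : ℕ) : Ix := toLex (g, i)

@[simp] lemma kap_mk (g : G) (i : ℕ) : kap (mk g i) = g := rfl
@[simp] lemma lev_mk (g : G) (i : ℕ) : lev (mk g i) = i := rfl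
@[simp] lemma mk_kap_lev (a : Ix) : mk (kap a) (lev a) = a := rfl

lemma mk_eq {g : G} {i : ℕ} {a : Ix} : mk g i = a ↔ g = kap a ∧ i = lev a := by
  constructor
  · rintro rfl; exact ⟨rfl, rfl⟩
  · rintro ⟨rfl, rfl⟩; rfl

lemma finite_G (n : ℕ) (m : ℤ) : {g : G | (∀ i, 0 ≤ co i g) ∧ nv n g ∧ dg g = m}.Finite := by
  apply Set.Finite.of_finite_image (f := fun (g : G) (i : Fin (n + 1)) => co i g)
  · apply Set.Finite.subset (Set.Finite.pi' (fun _ : Fin (n + 1) => Set.finite_Icc (0 : ℤ) m))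
    rintro _ ⟨g, ⟨h1, h2, h3⟩, rfl⟩ i
    refine ⟨h1 i, ?_⟩
    have := sum_le_dg g h1 {(i : ℕ)}
    rw [Finset.sum_singleton, h3] at this
    exact this
  · rintro g ⟨h1, h2, _⟩ h ⟨h4, h5, _⟩ hgh
    apply G_ext
    intro i
    rcases Nat.lt_or_ge n i with hi | hi
    · rw [h2 i hi, h5 i hi]
    · exact congrFun hgh ⟨i, by omega⟩

variable {K : Type*} [Field K] {R : Type*} [CommRing R] [Algebra K R]

/-- the index set of the basis of `R` -/
def Om (Md : ℕ → Set ℤ) (n c : ℕ) : Set Ix :=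
  {a | lev a < c ∧ kap a ∈ Gam (Md (lev a)) ∧ nv n (kap a)}

variable (K) in
/-- the filtration of `R` -/
noncomputable def FilR (X : Ix → R) (Md : ℕ → Set ℤ) (n c : ℕ) (m w : ℤ) : Submodule K R :=
  Submodule.span K (X '' {d | d ∈ Om Md n c ∧ dg (kap d) = m ∧ w ≤ c * xd (kap d) + lev d})

/-- all the data -/
structure FData (X : Ix → R) (D : Ix → R →ₗ[K] K) (Sg Md : ℕ → Set ℤ) (lam : ℕ → Ix → K)
    (n c : ℕ) (l f : ℤ) (A : Finset Ix) : Prop where
  pair : ∀ i, i < c → IsPair (Sg i) (Md i) f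
  hD : ∀ a, ∀ b ∈ Om Md n c, D a (X b) = if a = b then 1 else 0
  hA : ∀ a ∈ A, nv n (kap a) ∧ dg (kap a) = l
  hA0 : ∀ a ∈ A, ∀ i, 0 ≤ co i (kap a)
  hlamS : ∀ i, i < c → ∀ a ∈ A, lam i a ≠ 0 → kap a ∈ Gam (Sg i)
  hsec : ∀ i, i < c → ∀ g ∈ Mon (Sg i) l, nv n g → ∃ a ∈ A, kap a = g ∧ lam i a ≠ 0
  prod : ∀ a ∈ A, ∀ b ∈ Om Md n c, X a * X b - lam (lev b) a • X (mk (kap a + kap b) (lev b)) ∈
    FilR K X Md n c (dg (kap a) + dg (kap b)) (c * (xd (kap a) + xd (kap b)) + lev b + 1)

variable (K) in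
/-- the filtration of the chains -/
noncomputable def FilC (X : Ix → R) (Md : ℕ → Set ℤ) (n c : ℕ) (l : ℤ) (A : Finset Ix) (p : ℕ) (m k : ℤ) :
    Submodule K (Ch R Ix) :=
  Submodule.span K {y | ∃ F b, F ⊆ A ∧ F.card = p ∧ b ∈ Om Md n c ∧ dg (kap b) = m - p * l ∧
    k ≤ c * (xd (kaps F) + xd (kap b)) + lev b ∧ y = Finsupp.single F (X b)}

variable (K) in
/-- the filtration of the chains, any degree -/
noncomputable def FilN (X : Ix → R) (Md : ℕ → Set ℤ) (n c : ℕ) (k : ℤ) : Submodule K (Ch R Ix) :=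
  Submodule.span K {y | ∃ F b, b ∈ Om Md n c ∧
    k ≤ c * (xd (kaps F) + xd (kap b)) + lev b ∧ y = Finsupp.single F (X b)}

/-- realization of a multigraded chain -/
noncomputable def real (K : Type*) [Field K] {R : Type*} [CommRing R] [Algebra K R]
    (X : Ix → R) (μ : G) (i : ℕ) : Ch K Ix →ₗ[K] Ch R Ix :=
  Finsupp.linearCombination K (fun F => Finsupp.single F (X (mk (μ - kaps F) i)))

/-- extraction of a multigraded component -/
noncomputable def comp (D : Ix → R →ₗ[K] K) (μ : G) (i : ℕ) : Ch R Ix →ₗ[K] Ch K Ix :=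
  Finsupp.lsum K (fun F => (LinearMap.toSpanSingleton K (Ch K Ix) (e K F)) ∘ₗ
    (D (mk (μ - kaps F) i)))

lemma real_e (X : Ix → R) (μ : G) (i : ℕ) (F : Finset Ix) :
    real K X μ i (e K F) = Finsupp.single F (X (mk (μ - kaps F) i)) := by
  simp [real, Finsupp.linearCombination_single]

lemma comp_single (D : Ix → R →ₗ[K] K) (μ : G) (i : ℕ) (F : Finset Ix) (r : R) :
    comp D μ i (Finsupp.single F r) = D (mk (μ - kaps F) i) r • e K F := by
  simp [comp]

/-- the Koszul differential on a single chain -/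
lemma dR_single (X : Ix → R) (F : Finset Ix) (r : R) :
    bdw R X (Finsupp.single F r) =
      ∑ a ∈ F, sg K a F • Finsupp.single (F.erase a) (X a * r) := by
  have h1 : (Finsupp.single F r : Ch R Ix) = r • e R F := by simp
  rw [h1, map_smul, bdw_e, Finset.smul_sum]
  apply Finset.sum_congr rfl
  intro a ha
  rw [con_e_mem R ha]
  have h2 : sg R a F = algebraMap K R (sg K a F) := by
    unfold sg; simp
  rw [h2, smul_smul, smul_smul, Finsupp.smul_single, Finsupp.smul_single, smul_eq_mul, mul_one,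
    Algebra.smul_def]
  congr 1
  ring

lemma bdw_smulK (X : Ix → R) (a : K) (y : Ch R Ix) :
    bdw R X (a • y) = a • bdw R X y := ((bdw R X).restrictScalars K).map_smul a y

variable {X : Ix → R} {D : Ix → R →ₗ[K] K} {Sg Md : ℕ → Set ℤ} {lam : ℕ → Ix → K}
  {n c : ℕ} {l f : ℤ} {A : Finset Ix}

lemma nv_kaps (H : FData X D Sg Md lam n c l f A) {F : Finset Ix} (hF : F ⊆ A) :
    nv n (kaps F) := by
  intro i hi
  unfold kaps
  rw [map_sum]
  exact Finset.sum_eq_zero (fun a ha => (H.hA a (hF ha)).1 i hi)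

lemma dg_kaps (H : FData X D Sg Md lam n c l f A) {F : Finset Ix} (hF : F ⊆ A) :
    dg (kaps F) = F.card * l := by
  unfold kaps
  rw [map_sum, Finset.sum_congr rfl (fun a ha => (H.hA a (hF ha)).2)]
  simp

lemma D_zero (H : FData X D Sg Md lam n c l f A) {g : G} {i : ℕ} {m w : ℤ}
    (hw : c * xd g + i < w) {r : R} (hr : r ∈ FilR K X Md n c m w) : D (mk g i) r = 0 := by
  unfold FilR at hr
  induction hr using Submodule.span_induction with
  | mem x hx =>
    obtain ⟨d, ⟨hd1, hd2, hd3⟩, rfl⟩ := hx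
    rw [H.hD _ d hd1, if_neg]
    intro h
    rw [← h, kap_mk, lev_mk] at hd3
    omega
  | zero => simp
  | add x y _ _ hx hy => rw [map_add, hx, hy, add_zero]
  | smul a x _ hx => rw [map_smul, hx, smul_zero]

/-- a single chain with coefficient in `FilR` lies in `FilC` -/
lemma single_FilC {F : Finset Ix} (hF : F ⊆ A) {p : ℕ} (hp : F.card = p) {m k w : ℤ}
    (hw : k ≤ c * xd (kaps F) + w) {r : R} (hr : r ∈ FilR K X Md n c (m - p * l) w) :
    Finsupp.single F r ∈ FilC K X Md n c l A p m k := by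
  unfold FilR at hr
  induction hr using Submodule.span_induction with
  | mem x hx =>
    obtain ⟨d, ⟨hd1, hd2, hd3⟩, rfl⟩ := hx
    exact Submodule.subset_span ⟨F, d, hF, hp, hd1, hd2, by linarith, rfl⟩
  | zero => simp
  | add x y _ _ hx hy => rw [Finsupp.single_add]; exact Submodule.add_mem _ hx hy
  | smul a x _ hx => rw [← Finsupp.smul_single]; exact Submodule.smul_mem _ _ hx

lemma xd_kaps_erase {F : Finset Ix} {a : Ix} (h : a ∈ F) :
    xd (kaps (F.erase a)) = xd (kaps F) - xd (kap a) := by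
  rw [kaps_erase h, map_sub]

lemma Om_of_Fp (H : FData X D Sg Md lam n c l f A) {p : ℕ} {μ : G} {i : ℕ} (hi : i < c)
    (hμn : nv n μ) {F : Finset Ix} (hF : F ∈ Fp (Md i) A p μ) :
    mk (μ - kaps F) i ∈ Om Md n c :=
  ⟨hi, hF.2.2, nv_sub hμn (nv_kaps H hF.1)⟩

/-- the differential and the realization -/
lemma dR_real (H : FData X D Sg Md lam n c l f A) {p : ℕ} {μ : G} {i : ℕ} (hi : i < c)
    (hμn : nv n μ) {d : Ch K Ix} (hd : d ∈ Finsupp.supported K K (Fp (Md i) A (p + 1) μ)) :
    bdw R X (real K X μ i d) - real K X μ i (bdw K (lam i) d) ∈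
      FilC K X Md n c l A p (dg μ) (c * xd μ + i + 1) := by
  have : ((bdw R X).restrictScalars K ∘ₗ (real K X μ i) - (real K X μ i) ∘ₗ (bdw K (lam i))) d ∈
      FilC K X Md n c l A p (dg μ) (c * xd μ + i + 1) := by
    apply map_mem _ _ hd
    intro F hF
    have hOm := Om_of_Fp H hi hμn hF
    simp only [LinearMap.sub_apply, LinearMap.comp_apply, LinearMap.restrictScalars_apply]
    rw [real_e, dR_single (K := K), bdw_e, map_sum, ← Finset.sum_sub_distrib]
    apply Submodule.sum_mem
    intro a ha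
    have haA : a ∈ A := hF.1 ha
    rw [con_e_mem K ha, map_smul, map_smul, real_e, smul_comm (lam i a), ← smul_sub]
    apply Submodule.smul_mem
    rw [Finsupp.smul_single, ← Finsupp.single_sub]
    have hP := H.prod a haA _ hOm
    rw [lev_mk, kap_mk] at hP
    have h1 : kap a + (μ - kaps F) = μ - kaps (F.erase a) := by rw [kaps_erase ha]; abel
    rw [h1] at hP
    have hcard : (F.erase a).card = p := by rw [Finset.card_erase_of_mem ha, hF.2.1]; rfl
    apply single_FilC (K := K) ((Finset.erase_subset _ _).trans hF.1) hcard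
      (w := c * (xd (kap a) + xd (μ - kaps F)) + i + 1)
    · rw [xd_kaps_erase ha, map_sub]
      apply le_of_eq; ring
    · convert hP using 2
      rw [map_sub, dg_kaps H hF.1, (H.hA a haA).2, hF.2.1]
      push_cast
      ring
  simpa using this

/-- the differential and the extraction -/
lemma comp_dR (H : FData X D Sg Md lam n c l f A) {p : ℕ} {m : ℤ} {μ : G} {i : ℕ} (hi : i < c)
    {y : Ch R Ix} (hy : y ∈ FilC K X Md n c l A p m (c * xd μ + i)) :
    comp D μ i (bdw R X y) = bdw K (lam i) (comp D μ i y) := by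
  unfold FilC at hy
  induction hy using Submodule.span_induction with
  | zero => simp
  | add x y _ _ hx hy => rw [map_add, map_add, map_add, map_add, hx, hy]
  | smul a x _ hx =>
    rw [bdw_smulK, map_smul, map_smul, map_smul, hx]
  | mem x hx =>
    obtain ⟨F, b, hF, hp, hb, hdb, hk, rfl⟩ := hx
    rw [dR_single (K := K), map_sum, comp_single, map_smul, bdw_e, Finset.smul_sum]
    apply Finset.sum_congr rfl
    intro a ha
    have haA := hF ha
    rw [map_smul, comp_single, con_e_mem K ha]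
    have h1 : X a * X b = lam (lev b) a • X (mk (kap a + kap b) (lev b)) +
        (X a * X b - lam (lev b) a • X (mk (kap a + kap b) (lev b))) := by abel
    have hP := H.prod a haA b hb
    have h2 : D (mk (μ - kaps (F.erase a)) i) (X a * X b -
        lam (lev b) a • X (mk (kap a + kap b) (lev b))) = 0 := by
      apply D_zero H _ hP
      rw [map_sub, xd_kaps_erase ha]
      nlinarith
    rw [h1, map_add, h2, add_zero, map_smul, H.hD _ b hb]
    -- the main term
    by_cases h0 : lam (lev b) a = 0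
    · rw [h0]
      by_cases h3 : mk (μ - kaps F) i = b
      · have h4 : i = lev b := (mk_eq.mp h3).2
        rw [if_pos h3, h4, h0]; simp
      · rw [if_neg h3]; simp
    · have hOm : mk (kap a + kap b) (lev b) ∈ Om Md n c := by
        refine ⟨hb.1, ?_, ?_⟩
        · rw [kap_mk]
          exact Gam_add (H.pair _ hb.1) (H.hlamS _ hb.1 a haA h0) hb.2.1
        · intro j hj
          rw [kap_mk, map_add, (H.hA a haA).1 j hj, hb.2.2 j hj, add_zero]
      rw [H.hD _ _ hOm]
      by_cases h3 : mk (μ - kaps F) i = b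
      · obtain ⟨h4, h5⟩ := mk_eq.mp h3
        have h6 : mk (μ - kaps (F.erase a)) i = mk (kap a + kap b) (lev b) := by
          rw [mk_eq, kap_mk, lev_mk]
          refine ⟨?_, h5⟩
          rw [← h4, kaps_erase ha]; abel
        rw [if_pos h3, if_pos h6, h5, smul_eq_mul, mul_one, one_smul, smul_smul, smul_smul,
          mul_comm]
      · have h6 : mk (μ - kaps (F.erase a)) i ≠ mk (kap a + kap b) (lev b) := by
          intro h7
          rw [mk_eq, kap_mk, lev_mk] at h7
          apply h3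
          rw [mk_eq]
          refine ⟨?_, h7.2⟩
          have h8 := h7.1
          rw [kaps_erase ha] at h8
          have h9 : μ - kaps F = μ - (kaps F - kap a) - kap a := by abel
          rw [h9, h8]; abel
        rw [if_neg h3, if_neg h6]; simp

lemma comp_mem (H : FData X D Sg Md lam n c l f A) {p : ℕ} {m k : ℤ} {μ : G} {i : ℕ}
    (hi : i < c) {y : Ch R Ix} (hy : y ∈ FilC K X Md n c l A p m k) :
    comp D μ i y ∈ Finsupp.supported K K (Fp (Md i) A p μ) := by
  unfold FilC at hy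
  induction hy using Submodule.span_induction with
  | zero => simp
  | add x y _ _ hx hy => rw [map_add]; exact Submodule.add_mem _ hx hy
  | smul a x _ hx => rw [map_smul]; exact Submodule.smul_mem _ _ hx
  | mem x hx =>
    obtain ⟨F, b, hF, hp, hb, hdb, hk, rfl⟩ := hx
    rw [comp_single, H.hD _ b hb]
    split_ifs with h
    · refine Submodule.smul_mem _ _ (e_mem K ⟨hF, hp, ?_⟩)
      obtain ⟨h1, h2⟩ := mk_eq.mp h
      rw [h1, h2]; exact hb.2.1
    · rw [zero_smul]; exact Submodule.zero_mem _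

lemma comp_zero (H : FData X D Sg Md lam n c l f A) {k : ℤ} {μ : G} {i : ℕ}
    (hk : c * xd μ + i < k) {y : Ch R Ix} (hy : y ∈ FilN K X Md n c k) :
    comp D μ i y = 0 := by
  unfold FilN at hy
  induction hy using Submodule.span_induction with
  | zero => simp
  | add x y _ _ hx hy => rw [map_add, hx, hy, add_zero]
  | smul a x _ hx => rw [map_smul, hx, smul_zero]
  | mem x hx =>
    obtain ⟨F, b, hb, hk2, rfl⟩ := hx
    rw [comp_single, H.hD _ b hb, if_neg, zero_smul]
    intro h
    obtain ⟨h1, h2⟩ := mk_eq.mp h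
    rw [← h1, ← h2, map_sub] at hk2
    nlinarith

lemma kaps_nonneg (H : FData X D Sg Md lam n c l f A) {F : Finset Ix} (hF : F ⊆ A) (i : ℕ) :
    0 ≤ co i (kaps F) := by
  unfold kaps
  rw [map_sum]
  exact Finset.sum_nonneg (fun a ha => H.hA0 a (hF ha) i)

/-- decomposition into multigraded components -/
lemma decomp (H : FData X D Sg Md lam n c l f A) {p : ℕ} {m k : ℤ} {J : Finset Ix}
    (hJ : ∀ j, j ∈ J ↔ (∀ i, 0 ≤ co i (kap j)) ∧ nv n (kap j) ∧ dg (kap j) = m ∧ lev j < c ∧
      c * xd (kap j) + lev j = k)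
    {y : Ch R Ix} (hy : y ∈ FilC K X Md n c l A p m k) :
    y - ∑ j ∈ J, real K X (kap j) (lev j) (comp D (kap j) (lev j) y) ∈
      FilC K X Md n c l A p m (k + 1) := by
  unfold FilC at hy
  induction hy using Submodule.span_induction with
  | zero => simp
  | add x y _ _ hx hy =>
    have := Submodule.add_mem _ hx hy
    simp only [map_add, Finset.sum_add_distrib]
    convert this using 1
    abel
  | smul a x _ hx =>
    have := Submodule.smul_mem _ a hx
    simp only [map_smul, ← Finset.smul_sum, ← smul_sub]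
    exact this
  | mem x hx =>
    obtain ⟨F, b, hF, hp, hb, hdb, hk, rfl⟩ := hx
    set j0 : Ix := mk (kaps F + kap b) (lev b) with hj0
    have h1 : ∀ j : Ix, real K X (kap j) (lev j) (comp D (kap j) (lev j) (Finsupp.single F (X b)))
        = if j = j0 then Finsupp.single F (X b) else 0 := by
      intro j
      rw [comp_single, H.hD _ b hb, map_smul, real_e]
      by_cases h : j = j0
      · have h2 : mk (kap j - kaps F) (lev j) = b := by
          rw [mk_eq, h, hj0, kap_mk, lev_mk]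
          exact ⟨by abel, rfl⟩
        rw [if_pos h, if_pos h2, h2, one_smul]
      · have h2 : mk (kap j - kaps F) (lev j) ≠ b := by
          intro h3
          rw [mk_eq] at h3
          apply h
          rw [hj0]
          symm
          rw [mk_eq]
          exact ⟨by rw [← h3.1]; abel, h3.2.symm⟩
        rw [if_neg h, if_neg h2, zero_smul]
    rw [Finset.sum_congr rfl (fun j _ => h1 j), Finset.sum_ite_eq']
    have hdg : dg (kaps F) + dg (kap b) = m := by
      rw [dg_kaps H hF, hdb, hp]; ring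
    by_cases hw : c * (xd (kaps F) + xd (kap b)) + lev b = k
    · have hj : j0 ∈ J := by
        rw [hJ, hj0, kap_mk, lev_mk]
        refine ⟨fun i => ?_, fun i hi => ?_, ?_, hb.1, ?_⟩
        · rw [map_add]
          exact add_nonneg (kaps_nonneg H hF i) (hb.2.1.2 i)
        · rw [map_add, nv_kaps H hF i hi, hb.2.2 i hi, add_zero]
        · rw [map_add]; exact hdg
        · rw [map_add]; exact hw
      rw [if_pos hj, sub_self]
      exact Submodule.zero_mem _
    · have hj : j0 ∉ J := by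
        rw [hJ, hj0, kap_mk, lev_mk, map_add]
        rintro ⟨_, _, _, _, h5⟩
        exact hw (by rw [← h5, map_add])
      rw [if_neg hj, sub_zero]
      exact Submodule.subset_span ⟨F, b, hF, hp, hb, hdb, by omega, rfl⟩

lemma exists_J (n c : ℕ) (m k : ℤ) : ∃ J : Finset Ix, ∀ j, j ∈ J ↔ (∀ i, 0 ≤ co i (kap j)) ∧
    nv n (kap j) ∧ dg (kap j) = m ∧ lev j < c ∧ c * xd (kap j) + lev j = k := by
  have hfin : {j : Ix | (∀ i, 0 ≤ co i (kap j)) ∧ nv n (kap j) ∧ dg (kap j) = m ∧ lev j < c ∧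
      c * xd (kap j) + lev j = k}.Finite := by
    apply Set.Finite.subset (((finite_G n m).prod (Set.finite_Iio c)).image
      (fun q : G × ℕ => mk q.1 q.2))
    rintro j ⟨h1, h2, h3, h4, _⟩
    exact ⟨(kap j, lev j), ⟨⟨h1, h2, h3⟩, h4⟩, rfl⟩
  exact ⟨hfin.toFinset, fun j => by rw [Set.Finite.mem_toFinset]; rfl⟩

lemma real_mem (H : FData X D Sg Md lam n c l f A) {p : ℕ} {μ : G} {i : ℕ} (hi : i < c)
    (hμn : nv n μ) {d : Ch K Ix} (hd : d ∈ Finsupp.supported K K (Fp (Md i) A p μ)) :
    real K X μ i d ∈ FilC K X Md n c l A p (dg μ) (c * xd μ + i) := by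
  apply map_mem _ _ hd
  intro F hF
  rw [real_e]
  refine Submodule.subset_span ⟨F, mk (μ - kaps F) i, hF.1, hF.2.1, Om_of_Fp H hi hμn hF, ?_, ?_,
    rfl⟩
  · rw [kap_mk, map_sub, dg_kaps H hF.1, hF.2.1]
  · rw [kap_mk, lev_mk, map_sub]
    apply le_of_eq; ring

/-- graded exactness -/
lemma graded_ex [CharZero K] (H : FData X D Sg Md lam n c l f A) (hl : 0 ≤ l) {p : ℕ}
    (hp : (p : ℤ) ≤ l - f - 2) {m k : ℤ} (hm : tt l f p ≤ m)
    {y : Ch R Ix} (hy : y ∈ FilC K X Md n c l A p m k)
    (hdy : bdw R X y ∈ FilN K X Md n c (k + 1)) :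
    ∃ b ∈ FilC K X Md n c l A (p + 1) m k, y - bdw R X b ∈ FilC K X Md n c l A p m (k + 1) := by
  obtain ⟨J, hJ⟩ := exists_J n c m k
  have hch : ∀ j ∈ J, ∃ b ∈ Finsupp.supported K K (Fp (Md (lev j)) A (p + 1) (kap j)),
      bdw K (lam (lev j)) b = comp D (kap j) (lev j) y := by
    intro j hj
    obtain ⟨h1, h2, h3, h4, h5⟩ := (hJ j).mp hj
    apply scal_ex (l := l) (f := f) (S := Sg (lev j)) (H.pair _ h4) hl (n := n)
      (fun a ha => ⟨(H.hA a ha).1, (H.hA a ha).2, H.hlamS _ h4 a ha⟩)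
      (fun g hg hgn => H.hsec _ h4 g hg hgn) p hp (kap j) h2 (by rw [h3]; exact hm)
    · exact comp_mem H h4 hy
    · rw [← comp_dR (p := p) (m := m) H h4 (by rw [h5]; exact hy)]
      exact comp_zero H (k := k + 1) (by omega) hdy
  choose! b hb1 hb2 using hch
  refine ⟨∑ j ∈ J, real K X (kap j) (lev j) (b j), ?_, ?_⟩
  · apply Submodule.sum_mem
    intro j hj
    obtain ⟨h1, h2, h3, h4, h5⟩ := (hJ j).mp hj
    have := real_mem H h4 h2 (hb1 j hj)
    rwa [h3, h5] at this
  · have h1 := decomp H hJ hy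
    have h2 : y - bdw R X (∑ j ∈ J, real K X (kap j) (lev j) (b j)) =
        (y - ∑ j ∈ J, real K X (kap j) (lev j) (comp D (kap j) (lev j) y)) -
        ∑ j ∈ J, (bdw R X (real K X (kap j) (lev j) (b j)) -
          real K X (kap j) (lev j) (bdw K (lam (lev j)) (b j))) := by
      rw [map_sum, Finset.sum_sub_distrib]
      rw [Finset.sum_congr rfl (fun j hj => by rw [← hb2 j hj] :
        ∀ j ∈ J, real K X (kap j) (lev j) (comp D (kap j) (lev j) y) =
          real K X (kap j) (lev j) (bdw K (lam (lev j)) (b j)))]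
      abel
    rw [h2]
    apply Submodule.sub_mem _ h1
    apply Submodule.sum_mem
    intro j hj
    obtain ⟨_, h2, h3, h4, h5⟩ := (hJ j).mp hj
    have := dR_real H h4 h2 (hb1 j hj)
    rwa [h3, h5] at this

lemma FilC_mono {p : ℕ} {m k k' : ℤ} (h : k ≤ k') :
    FilC K X Md n c l A p m k' ≤ FilC K X Md n c l A p m k := by
  apply Submodule.span_mono
  rintro y ⟨F, b, h1, h2, h3, h4, h5, h6⟩
  exact ⟨F, b, h1, h2, h3, h4, h.trans h5, h6⟩

/-- **The filtration theorem.** -/
theorem filt_main [CharZero K] (H : FData X D Sg Md lam n c l f A) (hl : 0 ≤ l) {p : ℕ}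
    (hp : (p : ℤ) ≤ l - f - 2) {m : ℤ} (hm : tt l f p ≤ m)
    {y : Ch R Ix} (hy : y ∈ FilC K X Md n c l A p m 0) (hdy : bdw R X y = 0) :
    ∃ b ∈ FilC K X Md n c l A (p + 1) m 0, bdw R X b = y := by
  have main : ∀ k : ℕ, ∃ b ∈ FilC K X Md n c l A (p + 1) m 0,
      y - bdw R X b ∈ FilC K X Md n c l A p m k := by
    intro k
    induction k with
    | zero => exact ⟨0, Submodule.zero_mem _, by rw [map_zero, sub_zero]; exact hy⟩
    | succ k ih =>
      obtain ⟨b, hb, hb2⟩ := ih
      obtain ⟨b', hb', hb2'⟩ := graded_ex H hl hp hm hb2 (by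
        rw [map_sub, hdy, bdw_bdw, sub_zero]; exact Submodule.zero_mem _)
      refine ⟨b + b', Submodule.add_mem _ hb (FilC_mono (by positivity) hb'), ?_⟩
      rw [map_add, ← sub_sub]
      exact_mod_cast hb2'
  obtain ⟨b, hb, hb2⟩ := main ((c * m + c).toNat + 1)
  refine ⟨b, hb, ?_⟩
  have hbot : FilC K X Md n c l A p m (((c * m + c).toNat + 1 : ℕ) : ℤ) = ⊥ := by
    rw [eq_bot_iff]
    apply Submodule.span_le.mpr
    rintro y ⟨F, b, h1, h2, h3, h4, h5, h6⟩
    exfalso
    have hdg : dg (kaps F) + dg (kap b) = m := by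
      rw [dg_kaps H h1, h4, h2]; ring
    have h7 : xd (kaps F) ≤ dg (kaps F) := by
      rw [xd_apply]; have := kaps_nonneg H h1 0; omega
    have h8 : xd (kap b) ≤ dg (kap b) := by
      rw [xd_apply]; have := h3.2.1.2 0; omega
    have h9 := h3.1
    have h10 : (c : ℤ) * (xd (kaps F) + xd (kap b)) ≤ c * m := by
      apply mul_le_mul_of_nonneg_left _ (by positivity)
      omega
    have h11 := Int.self_le_toNat (c * m + c)
    push_cast at h5
    omega
  rw [hbot, Submodule.mem_bot, sub_eq_zero] at hb2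
  exact hb2.symm

end Pool.Agent.Helper40.MukN
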