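import Pool.Agent.Helper40.MukN.Alg2
import Pool.Agent.Helper40.MukN.Kos

/-!
# Vanishing of Koszul cohomology from the algebraic data
-/

open scoped TensorProduct

namespace Pool.Agent.Helper40.MukN

open Finset

section Sub

variable {R : Type*} [CommRing R] (A : Finset Ix)

/-- image of a set of indices -/
noncomputable def img (F : Finset {a // a ∈ A}) : Finset Ix := F.image Subtype.val

lemma img_inj : Function.Injective (img A) := Finset.image_injective Subtype.val_injective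

lemma img_sub (F : Finset {a // a ∈ A}) : img A F ⊆ A := by
  intro a ha
  unfold img at ha
  rw [Finset.mem_image] at ha
  obtain ⟨b, _, rfl⟩ := ha
  exact b.2

lemma img_card (F : Finset {a // a ∈ A}) : (img A F).card = F.card :=
  Finset.card_image_of_injective _ Subtype.val_injective

lemma img_surj {F : Finset Ix} (hF : F ⊆ A) : ∃ F', img A F' = F := by
  refine ⟨F.subtype (fun a => a ∈ A), ?_⟩
  unfold img
  ext a
  simp only [Finset.mem_image, Finset.mem_subtype]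
  constructor
  · rintro ⟨b, hb, rfl⟩; exact hb
  · intro ha; exact ⟨⟨a, hF ha⟩, ha, rfl⟩

/-- the inclusion of chains -/
noncomputable def Lm : Ch R {a // a ∈ A} →ₗ[R] Ch R Ix := Finsupp.lmapDomain R R (img A)

lemma Lm_apply (c : Ch R {a // a ∈ A}) : Lm A c = c.mapDomain (img A) := rfl

lemma Lm_e (F : Finset {a // a ∈ A}) : Lm A (e R F) = e R (img A F) := by
  rw [Lm_apply, Finsupp.mapDomain_single]

lemma img_erase (F : Finset {a // a ∈ A}) (v : {a // a ∈ A}) :
    (img A F).erase v = img A (F.erase v) := by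
  unfold img
  rw [Finset.image_erase Subtype.val_injective]

lemma bdw_img (X : Ix → R) (c : Ch R {a // a ∈ A}) :
    bdw R X (Lm A c) = Lm A (bdw R (fun a : {a // a ∈ A} => X a) c) := by
  have h := ext_e (f := (bdw R X) ∘ₗ (Lm A))
    (g := (Lm A) ∘ₗ (bdw R (fun a : {a // a ∈ A} => X a))) ?_
  · exact LinearMap.congr_fun h c
  · intro F
    simp only [LinearMap.comp_apply]
    rw [Lm_e, bdw_e, bdw_e, map_sum]
    have h3 : ∑ v ∈ img A F, X v • con R v (e R (img A F)) =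
        ∑ v ∈ F, X v • con R (v : Ix) (e R (img A F)) := by
      unfold img
      rw [Finset.sum_image (fun a _ b _ h => Subtype.val_injective h)]
    rw [h3]
    apply Finset.sum_congr rfl
    intro v hv
    rw [map_smul]
    congr 1
    have h4 : (v : Ix) ∈ img A F := Finset.mem_image_of_mem _ hv
    rw [con_e_mem R h4, con_e_mem R hv, map_smul]
    have h5 : sg R (v : Ix) (img A F) = sg R v F :=
      sg_image (K := R) (Subtype.val : {a // a ∈ A} → Ix) (fun _ _ h => h) v F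
    rw [h5]
    congr 1
    have h6 := Lm_e (R := R) A (F.erase v)
    rw [← img_erase] at h6
    rw [← h6]
    have h7 : ∀ (i1 i2 : DecidableEq {a // a ∈ A}) (s : Finset {a // a ∈ A})
        (b : {a // a ∈ A}), @Finset.erase _ i1 s b = @Finset.erase _ i2 s b := by
      intro i1 i2 s b
      rw [Subsingleton.elim i1 i2]
    rw [h7]

end Sub

variable {K : Type*} [Field K] {R : Type*} [CommRing R] [Algebra K R]
  {𝒜 : ℤ → Submodule K R} {x : ℕ → R} {n c : ℕ} {J : ℕ → ℤ → Submodule K R}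
    {θ : ℕ → R →ₗ[K] K} {χ : ℕ → R →ₐ[K] K} {pr : ℤ → R →ₗ[K] R} {f : ℤ}

lemma exists_basis (H : AData 𝒜 x n c J θ χ pr f) {l : ℤ}
    {A : Finset Ix} (hA : ∀ a, a ∈ A ↔ a ∈ Om (MM J θ) n c ∧ dg (kap a) = l) :
    ∃ bV : Module.Basis {a // a ∈ A} K (𝒜 l), ∀ a, ((bV a : 𝒜 l) : R) = XX x J θ a := by
  have hmem : ∀ a : {a // a ∈ A}, XX x J θ a ∈ 𝒜 l := by
    rintro ⟨a, ha⟩
    obtain ⟨h1, h2⟩ := (hA a).mp ha
    have := XX_mem H h1
    rwa [h2] at this
  have hli : LinearIndependent K (fun a : {a // a ∈ A} => (⟨XX x J θ a, hmem a⟩ : 𝒜 l)) := by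
    have h1 := (XX_indep H).comp (fun a : {a // a ∈ A} => (⟨a.1, ((hA a.1).mp a.2).1⟩ :
      Om (MM J θ) n c)) (fun a b h => by
        apply Subtype.ext
        exact congrArg (fun t : Om (MM J θ) n c => t.1) h)
    exact LinearIndependent.of_comp (𝒜 l).subtype h1
  have hsp : ⊤ ≤ Submodule.span K (Set.range
      (fun a : {a // a ∈ A} => (⟨XX x J θ a, hmem a⟩ : 𝒜 l))) := by
    rintro ⟨r, hr⟩ _
    have h1 := A_le_FilR' H l hr
    have h2 : FilR K (XX x J θ) (MM J θ) n c l 0 ≤ (Submodule.span K (Set.range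
      (fun a : {a // a ∈ A} => (⟨XX x J θ a, hmem a⟩ : 𝒜 l)))).map (𝒜 l).subtype := by
      apply Submodule.span_le.mpr
      rintro _ ⟨d, ⟨hd1, hd2, _⟩, rfl⟩
      exact ⟨⟨XX x J θ d, hmem ⟨d, (hA d).mpr ⟨hd1, hd2⟩⟩⟩,
        Submodule.subset_span ⟨⟨d, (hA d).mpr ⟨hd1, hd2⟩⟩, rfl⟩, rfl⟩
    obtain ⟨s, hs, hs2⟩ := h2 h1
    have h3 : s = ⟨r, hr⟩ := Subtype.ext hs2
    rw [← h3]; exact hs
  exact ⟨Module.Basis.mk hli hsp, fun a => by rw [Module.Basis.mk_apply]⟩

/-- **Vanishing of Koszul cohomology from the algebraic data.** -/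
theorem koszul_alg [CharZero K] (H : AData 𝒜 x n c J θ χ pr f) {l : ℤ} (hl : 0 ≤ l)
    {p : ℕ} (hp : (p : ℤ) ≤ l - f - 2) {m : ℤ} (hm : tt l f p ≤ m) :
    ∀ y ∈ koszulC (𝒜 l) (𝒜 (m - p * l)) p, koszulD (𝒜 l) y = 0 →
      ∃ b ∈ koszulC (𝒜 l) (𝒜 (m - (p + 1 : ℕ) * l)) (p + 1), koszulD (𝒜 l) b = y := by
  obtain ⟨A, hA⟩ := exists_A (MM J θ) n c l
  obtain ⟨bV, hbV⟩ := exists_basis H hA
  apply koszul_of_coord bV
  intro v hv hdv
  have hX : (fun a : {a // a ∈ A} => ((bV a : 𝒜 l) : R)) =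
      fun a : {a // a ∈ A} => XX x J θ a.1 := by
    funext a; exact hbV a
  rw [hX] at hdv ⊢
  obtain ⟨b, hb1, hb2, hb3⟩ := exact_alg H hl hA hp hm (y := v.mapDomain (img A)) (by
    intro F hF
    have h3 := Finsupp.mapDomain_support (Finsupp.mem_support_iff.mpr hF)
    rw [Finset.mem_image] at h3
    obtain ⟨F', hF', rfl⟩ := h3
    exact ⟨img_sub A F', by rw [img_card, hv.1 F' (Finsupp.mem_support_iff.mp hF')]⟩) (by
    intro F
    by_cases h : F ⊆ A
    · obtain ⟨F', rfl⟩ := img_surj A h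
      rw [Finsupp.mapDomain_apply (img_inj A)]
      exact hv.2 F'
    · have : v.mapDomain (img A) F = 0 := by
        by_contra h4
        have h3 := Finsupp.mapDomain_support (Finsupp.mem_support_iff.mpr h4)
        rw [Finset.mem_image] at h3
        obtain ⟨F', hF', rfl⟩ := h3
        exact h (img_sub A F')
      rw [this]; exact Submodule.zero_mem _) (by
    rw [← Lm_apply, bdw_img, hdv, map_zero])
  set b' := b.comapDomain (img A) (img_inj A).injOn with hb'
  have hb'b : b'.mapDomain (img A) = b := by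
    rw [hb']
    apply Finsupp.mapDomain_comapDomain _ (img_inj A)
    intro F hF
    obtain ⟨F', hF'⟩ := img_surj A (hb1 F (Finsupp.mem_support_iff.mp (Finset.mem_coe.mp hF))).1
    exact ⟨F', hF'⟩
  refine ⟨b', ⟨fun F hF => ?_, fun F => ?_⟩, ?_⟩
  · have h1 : b (img A F) ≠ 0 := hF
    rw [← img_card A F, (hb1 _ h1).2]
  · exact hb2 (img A F)
  · apply Finsupp.mapDomain_injective (img_inj A)
    rw [← Lm_apply, ← bdw_img, Lm_apply, hb'b, hb3]

/-- the same for an `ℕ`-grading -/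
theorem koszulZero_of [CharZero K] {𝒜' : ℕ → Submodule K R}
    (H : AData 𝒜 x n c J θ χ pr f) (h𝒜 : ∀ m : ℕ, 𝒜 (m : ℤ) = 𝒜' m) {l d : ℕ}
    (hl : f + 2 + d ≤ l) {p q : ℕ} (hp : p ≤ d) (hq : 1 ≤ q) : KoszulZero 𝒜' l p q := by
  have h1 := koszul_alg H (l := (l : ℤ)) (by positivity) (p := p) (by omega)
    (m := ((p + q + 1 : ℕ) : ℤ) * l) (by
      unfold tt
      push_cast
      have h2 : ((p : ℤ) + 2) * l ≤ (p + q + 1) * l := by
        apply mul_le_mul_of_nonneg_right _ (by positivity)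
        have : (1 : ℤ) ≤ q := by exact_mod_cast hq
        linarith
      have h3 : ((p : ℤ) + 1) * (l + 1) + f ≤ (p + 2) * l := by
        have : (p : ℤ) ≤ d := by exact_mod_cast hp
        nlinarith
      linarith)
  have e1 : ((p + q + 1 : ℕ) : ℤ) * l - p * l = (((q + 1) * l : ℕ) : ℤ) := by push_cast; ring
  have e2 : ((p + q + 1 : ℕ) : ℤ) * l - (p + 1 : ℕ) * l = ((q * l : ℕ) : ℤ) := by
    push_cast; ring
  rw [e1, e2, h𝒜, h𝒜, h𝒜] at h1
  exact h1

end Pool.Agent.Helper40.MukN
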