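import Pool.Agent.Helper40.MukN.Fin

/-!
# From an `ℕ`-graded algebra to the algebraic data
-/

open scoped TensorProduct

namespace Pool.Agent.Helper40.MukN

open Finset

variable {K : Type*} [Field K] {R : Type*} [CommRing R] [Algebra K R]
  (𝒜 : ℕ → Submodule K R) [GradedAlgebra 𝒜]

/-- the `ℤ`-grading -/
def AZ (𝒜 : ℕ → Submodule K R) (m : ℤ) : Submodule K R := if 0 ≤ m then 𝒜 m.toNat else ⊥

/-- the projections -/
noncomputable def prZ (m : ℤ) : R →ₗ[K] R := if 0 ≤ m then GradedAlgebra.proj 𝒜 m.toNat else 0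

omit [GradedAlgebra 𝒜] in
lemma AZ_nat (m : ℕ) : AZ 𝒜 (m : ℤ) = 𝒜 m := by simp [AZ]

omit [GradedAlgebra 𝒜] in
lemma AZ_cases {m : ℤ} {r : R} (hr : r ∈ AZ 𝒜 m) : (∃ k : ℕ, m = k ∧ r ∈ 𝒜 k) ∨ r = 0 := by
  unfold AZ at hr
  split_ifs at hr with h
  · exact Or.inl ⟨m.toNat, (Int.toNat_of_nonneg h).symm, hr⟩
  · exact Or.inr (by simpa using hr)

omit [GradedAlgebra 𝒜] in
lemma AZ_neg {m : ℤ} (hm : m < 0) {r : R} (hr : r ∈ AZ 𝒜 m) : r = 0 := by
  unfold AZ at hr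
  rw [if_neg (by omega)] at hr
  simpa using hr

lemma AZ_one : (1 : R) ∈ AZ 𝒜 0 := by
  have h := AZ_nat 𝒜 0
  rw [Nat.cast_zero] at h
  rw [h]
  exact SetLike.GradedOne.one_mem

lemma AZ_mul {a b : ℤ} {r s : R} (hr : r ∈ AZ 𝒜 a) (hs : s ∈ AZ 𝒜 b) : r * s ∈ AZ 𝒜 (a + b) := by
  rcases AZ_cases 𝒜 hr with ⟨k, rfl, hk⟩ | rfl
  · rcases AZ_cases 𝒜 hs with ⟨k', rfl, hk'⟩ | rfl
    · rw [← Nat.cast_add, AZ_nat]
      exact SetLike.GradedMul.mul_mem hk hk'
    · rw [mul_zero]; exact Submodule.zero_mem _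
  · rw [zero_mul]; exact Submodule.zero_mem _

lemma prZ_same {m : ℤ} {r : R} (hr : r ∈ AZ 𝒜 m) : prZ 𝒜 m r = r := by
  rcases AZ_cases 𝒜 hr with ⟨k, rfl, hk⟩ | rfl
  · unfold prZ
    rw [if_pos (by positivity), GradedAlgebra.proj_apply, Int.toNat_natCast,
      DirectSum.decompose_of_mem_same _ hk]
  · simp

lemma prZ_ne {m m' : ℤ} (h : m ≠ m') {r : R} (hr : r ∈ AZ 𝒜 m') : prZ 𝒜 m r = 0 := by
  rcases AZ_cases 𝒜 hr with ⟨k, rfl, hk⟩ | rfl
  · unfold prZ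
    split_ifs with h0
    · rw [GradedAlgebra.proj_apply, DirectSum.decompose_of_mem_ne _ hk]
      intro h1
      apply h
      omega
    · rfl
  · simp

lemma prZ_mem (m : ℤ) (r : R) : prZ 𝒜 m r ∈ AZ 𝒜 m := by
  unfold prZ AZ
  split_ifs with h0
  · rw [GradedAlgebra.proj_apply]; exact SetLike.coe_mem _
  · simp

/-- projection of a multiple of an element of degree one -/
lemma prZ_mul {x : R} (hx : x ∈ 𝒜 1) (m : ℤ) (r : R) :
    prZ 𝒜 m (x * r) = x * prZ 𝒜 (m - 1) r := by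
  unfold prZ
  by_cases h0 : 0 ≤ m
  · rw [if_pos h0, GradedAlgebra.proj_apply]
    by_cases h1 : 1 ≤ m
    · rw [if_pos (by omega), GradedAlgebra.proj_apply,
        DirectSum.coe_decompose_mul_of_left_mem_of_le 𝒜 hx (by omega : 1 ≤ m.toNat)]
      have h2 : m.toNat - 1 = (m - 1).toNat := by omega
      rw [h2]
    · rw [if_neg (by omega), DirectSum.coe_decompose_mul_of_left_mem_of_not_le 𝒜 hx (by omega)]
      simp
  · rw [if_neg h0, if_neg (by omega)]; simp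

/-- decomposition of the elements of the ideal -/
lemma mem_Id_iff (x : ℕ → R) (n : ℕ) (r : R) :
    r ∈ Id x n ↔ ∃ s : ℕ → R, r = ∑ j ∈ range n, x j * s j := by
  have h1 : Id x n = Ideal.span (Set.range (fun j : Fin n => x j)) := by
    unfold Id
    congr 1
    ext y
    constructor
    · rintro ⟨j, hj, rfl⟩; exact ⟨⟨j, hj⟩, rfl⟩
    · rintro ⟨j, rfl⟩; exact ⟨j, j.2, rfl⟩
  rw [h1, Ideal.mem_span_range_iff_exists_fun]
  constructor
  · rintro ⟨s, rfl⟩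
    refine ⟨fun j => if h : j < n then s ⟨j, h⟩ else 0, ?_⟩
    rw [Finset.sum_range]
    apply Finset.sum_congr rfl
    intro j _
    show s j * x ↑j = x ↑j * (if h : (j : ℕ) < n then s ⟨j, h⟩ else 0)
    rw [dif_pos j.2, mul_comm]
  · rintro ⟨s, rfl⟩
    refine ⟨fun j => s j, ?_⟩
    rw [Finset.sum_range]
    exact Finset.sum_congr rfl (fun j _ => mul_comm _ _)

lemma prZ_Id {x : ℕ → R} {n : ℕ} (hx : ∀ j < n, x j ∈ 𝒜 1) (m : ℤ) {r : R} (hr : r ∈ Id x n) :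
    ∃ s : ℕ → R, (∀ j, s j ∈ AZ 𝒜 (m - 1)) ∧ prZ 𝒜 m r = ∑ j ∈ range n, x j * s j := by
  obtain ⟨s, rfl⟩ := (mem_Id_iff x n r).mp hr
  refine ⟨fun j => prZ 𝒜 (m - 1) (s j), fun j => prZ_mem 𝒜 _ _, ?_⟩
  rw [map_sum]
  apply Finset.sum_congr rfl
  intro j hj
  rw [prZ_mul 𝒜 (hx j (Finset.mem_range.mp hj))]

/-- regular sequences -/
lemma regSeq_of {n : ℕ} {x : Fin n → R}
    (h : RingTheory.Sequence.IsWeaklyRegular R (List.ofFn x)) :
    RegSeq (fun j => if h : j < n then x ⟨j, h⟩ else 0) n := by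
  intro i hi r hr
  have hlen : i < (List.ofFn x).length := by simpa using hi
  have h1 := h.regular_mod_prev i hlen
  have h2 : (Ideal.ofList ((List.ofFn x).take i) • ⊤ : Submodule R R) =
      Id (fun j => if h : j < n then x ⟨j, h⟩ else 0) i := by
    rw [smul_eq_mul, Ideal.mul_top]
    unfold Id Ideal.ofList
    congr 1
    ext y
    simp only [Set.mem_ofPred_eq, Set.mem_image]
    rw [List.mem_take_iff_getElem]
    constructor
    · rintro ⟨j, hj, rfl⟩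
      have hj1 : j < i := by omega
      refine ⟨j, hj1, ?_⟩
      rw [dif_pos (by omega), List.getElem_ofFn]
    · rintro ⟨j, hj, rfl⟩
      refine ⟨j, by simp; omega, ?_⟩
      rw [dif_pos (by omega), List.getElem_ofFn]
  have h3 : (List.ofFn x)[i] = x ⟨i, hi⟩ := by simp
  rw [h3, isSMulRegular_iff_right_eq_zero_of_smul] at h1
  have h4 := h1 (Submodule.Quotient.mk r) (by
    rw [← Submodule.Quotient.mk_smul, Submodule.Quotient.mk_eq_zero, h2]
    simp only [dif_pos hi] at hr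
    exact hr)
  rw [Submodule.Quotient.mk_eq_zero, h2] at h4
  exact h4

end Pool.Agent.Helper40.MukN
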