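import Pool.Agent.Helper40.MukN.HypP

/-!
# Hypersurfaces in `P(1^n, a, b)`
-/

namespace Pool.Agent.Helper40.MukN

open Finset MvPolynomial

attribute [local instance] MvPolynomial.weightedGradedAlgebra

variable {K : Type*} [Field K] {n a b : ℕ}

/-- set `x_j = 0` for `j < i` -/
noncomputable def kil (K : Type*) [Field K] (n i : ℕ) :
    MvPolynomial (Vr n) K →ₐ[K] MvPolynomial (Vr n) K :=
  aeval (Sum.elim (fun j : Fin n => if (j : ℕ) < i then 0 else X (Sum.inl j))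
    (fun j => X (Sum.inr j)))

lemma kil_sub (i : ℕ) (hi : i ≤ n) (g : MvPolynomial (Vr n) K) :
    g - kil K n i g ∈ Id (xP K n) i := by
  rw [← Ideal.Quotient.eq]
  have h : ((Ideal.Quotient.mkₐ K (Id (xP K n) i))) =
      ((Ideal.Quotient.mkₐ K (Id (xP K n) i))).comp (kil K n i) := by
    apply algHom_ext
    rintro (j | j)
    · simp only [AlgHom.comp_apply, kil, aeval_X, Sum.elim_inl]
      split_ifs with hj
      · rw [map_zero]
        apply Ideal.Quotient.eq_zero_iff_mem.mpr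
        apply Ideal.subset_span
        refine ⟨j, hj, ?_⟩
        unfold xP
        simp
      · rfl
    · simp [kil]
  exact DFunLike.congr_fun h g

lemma kil_Id {i k : ℕ} (hik : k ≤ i) (hi : i ≤ n) {g : MvPolynomial (Vr n) K}
    (hg : g ∈ Id (xP K n) k) : kil K n i g = 0 := by
  have : Id (xP K n) k ≤ RingHom.ker (kil K n i) := by
    unfold Id
    rw [Ideal.span_le]
    rintro _ ⟨j, hj, rfl⟩
    have hj' : j < k := hj
    have hjn : j < n := by omega
    unfold xP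
    rw [dif_pos hjn]
    show kil K n i (X (Sum.inl ⟨j, hjn⟩)) = 0
    simp only [kil, aeval_X, Sum.elim_inl]
    rw [if_pos (by omega)]
  exact this hg

lemma kil_hh1 (i : ℕ) (ν : K) : kil K n i (hh1 a b ν) = hh1 a b ν := by
  simp [kil, hh1, yy, zz]

lemma kil_prod (i c : ℕ) (ν : ℕ → K) : kil K n i (∏ j ∈ range c, hh1 a b (ν j)) =
    ∏ j ∈ range c, hh1 a b (ν j) := by
  rw [map_prod]
  exact Finset.prod_congr rfl (fun j _ => kil_hh1 i _)

lemma hh1_ne (ha : 0 < a) (hb : 0 < b) (ν : K) : (hh1 a b ν : MvPolynomial (Vr n) K) ≠ 0 := by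
  intro h
  have := eval_hh1 (n := n) (a := a) (b := b) 0 1 ν
  rw [h] at this
  simp [hb.ne'] at this

lemma prod_ne (ha : 0 < a) (hb : 0 < b) (c : ℕ) (ν : ℕ → K) :
    (∏ j ∈ range c, hh1 a b (ν j) : MvPolynomial (Vr n) K) ≠ 0 :=
  Finset.prod_ne_zero_iff.mpr (fun j _ => hh1_ne ha hb _)

/-- `H_c u ∈ (x)` implies `u ∈ (x)` -/
lemma cancel_prod (ha : 0 < a) (hb : 0 < b) (c : ℕ) (ν : ℕ → K) {u : MvPolynomial (Vr n) K}
    (h : (∏ j ∈ range c, hh1 a b (ν j)) * u ∈ Ix0 K n) : u ∈ Ix0 K n := by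
  rw [← Id_xP] at h ⊢
  have h1 := kil_Id le_rfl le_rfl h
  rw [map_mul, kil_prod] at h1
  have h2 := (mul_eq_zero.mp h1).resolve_left (prod_ne ha hb c ν)
  have h3 := kil_sub n le_rfl u
  rwa [h2, sub_zero] at h3

/-- the data of a hypersurface -/
structure HD (f : MvPolynomial (Vr n) K) (a b c : ℕ) (ν : ℕ → K) (κ : K) : Prop where
  hab : Nat.Coprime a b
  ha : 0 < a
  hb : 0 < b
  hc : 0 < c
  hf : IsWeightedHomogeneous (wts n a b) f (c * (a * b))
  hν : ∀ i, ν i ≠ 0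
  hκ : κ ≠ 0
  hν0 : ∀ i, ∃ j < c, ν i = ν j
  fac : f - C κ * ∏ i ∈ range c, hh1 a b (ν i) ∈ Ix0 K n

variable {f : MvPolynomial (Vr n) K} {c : ℕ} {ν : ℕ → K} {κ : K}

/-- the quotient map -/
noncomputable def qq (f : MvPolynomial (Vr n) K) :
    MvPolynomial (Vr n) K →ₐ[K] (MvPolynomial (Vr n) K ⧸ Ideal.span {f}) :=
  Ideal.Quotient.mkₐ K (Ideal.span {f})

lemma qq_surj : Function.Surjective (qq f) := Ideal.Quotient.mkₐ_surjective K _

lemma qq_zero {g : MvPolynomial (Vr n) K} (h : qq f g = 0) : ∃ t, g = f * t := by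
  have h1 : g ∈ Ideal.span {f} := Ideal.Quotient.eq_zero_iff_mem.mp h
  exact Ideal.mem_span_singleton.mp h1

lemma qq_f (t : MvPolynomial (Vr n) K) : qq f (f * t) = 0 :=
  Ideal.Quotient.eq_zero_iff_mem.mpr (Ideal.mul_mem_right _ _ (Ideal.mem_span_singleton_self f))

/-- the grading of the quotient -/
noncomputable def hypGr (f : MvPolynomial (Vr n) K) (a b m : ℕ) :
    Submodule K (MvPolynomial (Vr n) K ⧸ Ideal.span {f}) :=
  (weightedHomogeneousSubmodule K (wts n a b) m).map (qq f).toLinearMap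

lemma AZ_hyp {m : ℤ} {r : MvPolynomial (Vr n) K ⧸ Ideal.span {f}} :
    r ∈ AZ (hypGr f a b) m ↔ ∃ g ∈ AZ (AP K n a b) m, qq f g = r := by
  unfold AZ
  split_ifs with h
  · exact Iff.rfl
  · constructor
    · intro hr
      rw [Submodule.mem_bot] at hr
      exact ⟨0, Submodule.zero_mem _, by rw [map_zero, hr]⟩
    · rintro ⟨g, hg, rfl⟩
      rw [Submodule.mem_bot] at hg
      rw [hg, map_zero]; exact Submodule.zero_mem _

lemma exists_pr (H : HD f a b c ν κ) (m : ℤ) :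
    ∃ pr : (MvPolynomial (Vr n) K ⧸ Ideal.span {f}) →ₗ[K]
      (MvPolynomial (Vr n) K ⧸ Ideal.span {f}),
      ∀ g, pr (qq f g) = qq f (prZ (AP K n a b) m g) := by
  obtain ⟨σ, hσ⟩ := (qq f).toLinearMap.exists_rightInverse_of_surjective
    (LinearMap.range_eq_top.mpr qq_surj)
  refine ⟨(qq f).toLinearMap ∘ₗ (prZ (AP K n a b) m) ∘ₗ σ, fun g => ?_⟩
  simp only [LinearMap.comp_apply, AlgHom.toLinearMap_apply]
  have h1 : qq f (σ (qq f g) - g) = 0 := by
    rw [map_sub, sub_eq_zero]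
    exact LinearMap.congr_fun hσ (qq f g)
  obtain ⟨t, ht⟩ := qq_zero h1
  have h2 : σ (qq f g) = g + f * t := by rw [← ht]; abel
  have h3 : f ∈ AP K n a b (c * (a * b)) := H.hf
  rw [h2, map_add, prZ_mul' _ h3, map_add, qq_f, add_zero]

/-- the ideal `(H_i, x)` of the quotient -/
noncomputable def Jid (f : MvPolynomial (Vr n) K) (a b : ℕ) (ν : ℕ → K) (i : ℕ) :
    Ideal (MvPolynomial (Vr n) K ⧸ Ideal.span {f}) :=
  ((Ideal.span {∏ j ∈ range i, hh1 a b (ν j)}) ⊔ Ix0 K n).map (qq f)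

lemma mem_Jid {i : ℕ} {r : MvPolynomial (Vr n) K ⧸ Ideal.span {f}} :
    r ∈ Jid f a b ν i ↔ ∃ g, ∃ s ∈ Ix0 K n, r = qq f ((∏ j ∈ range i, hh1 a b (ν j)) * g + s) := by
  unfold Jid
  rw [Ideal.mem_map_iff_of_surjective _ qq_surj]
  constructor
  · rintro ⟨h, hh, rfl⟩
    rw [Submodule.mem_sup] at hh
    obtain ⟨u, hu, s, hs, rfl⟩ := hh
    obtain ⟨g, rfl⟩ := Ideal.mem_span_singleton.mp hu
    exact ⟨g, s, hs, rfl⟩
  · rintro ⟨g, s, hs, rfl⟩
    exact ⟨_, Ideal.add_mem _ (Ideal.mem_sup_left (Ideal.mul_mem_right _ _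
      (Ideal.mem_span_singleton_self _))) (Ideal.mem_sup_right hs), rfl⟩

/-- `f ≡ H_i * (...)` modulo `(x)` -/
lemma f_mod (H : HD f a b c ν κ) {i : ℕ} (hi : i ≤ c) : ∃ s ∈ Ix0 K n,
    f = (∏ j ∈ range i, hh1 a b (ν j)) * (C κ * ∏ j ∈ Ico i c, hh1 a b (ν j)) + s := by
  refine ⟨_, H.fac, ?_⟩
  have : ∏ j ∈ range c, hh1 (n := n) a b (ν j) =
      (∏ j ∈ range i, hh1 a b (ν j)) * ∏ j ∈ Ico i c, hh1 a b (ν j) := by
    rw [Finset.range_eq_Ico, Finset.range_eq_Ico, Finset.prod_Ico_consecutive _ (Nat.zero_le i) hi]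
  rw [this]; ring

lemma prod_hom (i : ℕ) : IsWeightedHomogeneous (wts n a b)
    (∏ j ∈ range i, hh1 a b (ν j) : MvPolynomial (Vr n) K) (i * (a * b)) := by
  have := IsWeightedHomogeneous.prod (range i) (fun j => (hh1 a b (ν j) : MvPolynomial (Vr n) K))
    (fun _ => a * b) (w := wts n a b) (fun j _ => hh1_hom (ν j))
  simpa using this

/-- homogeneous elements of `(H_i, x)` -/
lemma mem_Jid_hom (H : HD f a b c ν κ) {i : ℕ} (hi : i ≤ c) {m : ℤ}
    {r : MvPolynomial (Vr n) K ⧸ Ideal.span {f}} (hr : r ∈ AZ (hypGr f a b) m)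
    (hrJ : r ∈ Jid f a b ν i) : ∃ g ∈ AZ (AP K n a b) (m - (i * (a * b) : ℕ)), ∃ s ∈ Ix0 K n,
      r = qq f ((∏ j ∈ range i, hh1 a b (ν j)) * g + s) := by
  obtain ⟨h, hh, rfl⟩ := AZ_hyp.mp hr
  obtain ⟨g, s, hs, h1⟩ := mem_Jid.mp hrJ
  have h2 : qq f (h - ((∏ j ∈ range i, hh1 a b (ν j)) * g + s)) = 0 := by
    rw [map_sub, h1, sub_self]
  obtain ⟨t, ht⟩ := qq_zero h2
  obtain ⟨s', hs', h3⟩ := f_mod H hi
  have h4 : h = (∏ j ∈ range i, hh1 a b (ν j)) *
      (g + (C κ * ∏ j ∈ Ico i c, hh1 a b (ν j)) * t) + (s + s' * t) := by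
    have h5 : h = f * t + ((∏ j ∈ range i, hh1 a b (ν j)) * g + s) := by rw [← ht]; ring
    rw [h5]
    conv_lhs => rw [h3]
    ring
  refine ⟨prZ (AP K n a b) (m - (i * (a * b) : ℕ))
    (g + (C κ * ∏ j ∈ Ico i c, hh1 a b (ν j)) * t), prZ_mem _ _ _,
    prZ (AP K n a b) m (s + s' * t), prZ_Ix0 m (Ideal.add_mem _ hs
      (Ideal.mul_mem_right _ _ hs')), ?_⟩
  have h5 := prZ_mul' (AP K n a b) (prod_hom (K := K) (n := n) (a := a) (b := b) (ν := ν) i) m
    (g + (C κ * ∏ j ∈ Ico i c, hh1 a b (ν j)) * t)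
  rw [← h5, ← map_add, ← h4, prZ_same _ hh]

/-! ### the point evaluations -/

lemma eval_f (H : HD f a b c ν κ) (i : ℕ) : eval (pt n 1 (ν i)) f = 0 := by
  obtain ⟨j, hj, h1⟩ := H.hν0 i
  have h2 := eval_Ix0 1 (ν i) H.fac
  rw [map_sub, sub_eq_zero] at h2
  rw [h2, map_mul, map_prod, Finset.prod_eq_zero (Finset.mem_range.mpr hj), mul_zero]
  rw [eval_hh1, h1]; simp

/-- evaluation at `(0, 1, ν_i)` -/
noncomputable def chi (H : HD f a b c ν κ) (i : ℕ) :
    (MvPolynomial (Vr n) K ⧸ Ideal.span {f}) →ₐ[K] K :=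
  Ideal.Quotient.liftₐ (Ideal.span {f}) (aeval (pt n 1 (ν i))) (by
    intro g hg
    obtain ⟨t, rfl⟩ := Ideal.mem_span_singleton.mp hg
    rw [map_mul]
    have h1 : (aeval (pt n 1 (ν i)) : MvPolynomial (Vr n) K →ₐ[K] K) f = 0 := by
      rw [aeval_eq_eval]; exact eval_f H i
    rw [h1, zero_mul])

lemma chi_qq (H : HD f a b c ν κ) (i : ℕ) (g : MvPolynomial (Vr n) K) :
    chi H i (qq f g) = eval (pt n 1 (ν i)) g := by
  unfold chi qq
  rw [Ideal.Quotient.mkₐ_eq_mk, Ideal.Quotient.liftₐ_apply]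
  simp [aeval_eq_eval]

/-- the functional `θ_i (H_i g + s) = g (0, 1, ν_i)` -/
lemma exists_theta (H : HD f a b c ν κ) {i : ℕ} (hi : i < c) :
    ∃ θ : (MvPolynomial (Vr n) K ⧸ Ideal.span {f}) →ₗ[K] K, ∀ g, ∀ s ∈ Ix0 K n,
      θ (qq f ((∏ j ∈ range i, hh1 a b (ν j)) * g + s)) = eval (pt n 1 (ν i)) g := by
  let I0 : Submodule K (MvPolynomial (Vr n) K) := (Ix0 K n).restrictScalars K
  let Ξ : (MvPolynomial (Vr n) K × I0) →ₗ[K] (MvPolynomial (Vr n) K ⧸ Ideal.span {f}) :=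
    ((qq f).toLinearMap ∘ₗ (LinearMap.mulLeft K (∏ j ∈ range i, hh1 a b (ν j)))).coprod
      ((qq f).toLinearMap ∘ₗ I0.subtype)
  let L : (MvPolynomial (Vr n) K × I0) →ₗ[K] K :=
    (aeval (pt n 1 (ν i)) : MvPolynomial (Vr n) K →ₐ[K] K).toLinearMap ∘ₗ LinearMap.fst K _ _
  have h1 : L ∈ (LinearMap.ker Ξ).dualAnnihilator := by
    rw [Submodule.mem_dualAnnihilator]
    rintro ⟨g, ⟨s, hs⟩⟩ hgs
    have h2 : qq f ((∏ j ∈ range i, hh1 a b (ν j)) * g + s) = 0 := by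
      rw [map_add]; exact hgs
    obtain ⟨t, ht⟩ := qq_zero h2
    obtain ⟨s', hs', h3⟩ := f_mod H hi.le
    have h4 : (∏ j ∈ range i, hh1 a b (ν j)) *
        (g - (C κ * ∏ j ∈ Ico i c, hh1 a b (ν j)) * t) ∈ Ix0 K n := by
      have h5 : (∏ j ∈ range i, hh1 a b (ν j)) *
        (g - (C κ * ∏ j ∈ Ico i c, hh1 a b (ν j)) * t) = s' * t - s := by
        have h6 : (∏ j ∈ range i, hh1 a b (ν j)) * g = f * t - s := by rw [← ht]; ring
        rw [mul_sub, h6]
        conv_lhs => rw [h3]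
        ring
      rw [h5]
      exact Ideal.sub_mem _ (Ideal.mul_mem_right _ _ hs') hs
    have h5 := eval_Ix0 1 (ν i) (cancel_prod H.ha H.hb i ν h4)
    rw [map_sub, map_mul, map_mul, map_prod, Finset.prod_eq_zero
      (Finset.mem_Ico.mpr ⟨le_rfl, hi⟩) (by rw [eval_hh1]; simp), mul_zero, zero_mul,
      sub_zero] at h5
    show aeval (pt n 1 (ν i)) g = 0
    rw [aeval_eq_eval]
    exact h5
  rw [← LinearMap.range_dualMap_eq_dualAnnihilator_ker] at h1
  obtain ⟨θ, hθ⟩ := h1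
  refine ⟨θ, fun g s hs => ?_⟩
  have h2 := LinearMap.congr_fun hθ (g, ⟨s, hs⟩)
  have h3 : L (g, ⟨s, hs⟩) = eval (pt n 1 (ν i)) g := by
    show aeval (pt n 1 (ν i)) g = _
    rw [aeval_eq_eval]
  rw [← h3, ← h2]
  show _ = θ (Ξ (g, ⟨s, hs⟩))
  rw [map_add]; rfl

/-- the `x_j` form a regular sequence on the quotient -/
lemma reg_hyp (H : HD f a b c ν κ) : RegSeq (fun j => qq f (xP K n j)) n := by
  intro i hi r hr
  obtain ⟨g, rfl⟩ := qq_surj r
  have hIdm : Id (fun j => qq f (xP K n j)) i = (Id (xP K n) i).map (qq f) := by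
    unfold Id
    rw [Ideal.map_span]
    congr 1
    rw [Set.image_image]
  rw [hIdm] at hr ⊢
  rw [← map_mul, Ideal.mem_map_iff_of_surjective _ qq_surj] at hr
  obtain ⟨u, hu, h1⟩ := hr
  have h2 : qq f (xP K n i * g - u) = 0 := by rw [map_sub, ← h1, sub_self]
  obtain ⟨t, ht⟩ := qq_zero h2
  -- apply `kil i`
  have h3 : kil K n i (xP K n i) = X (Sum.inl ⟨i, hi⟩) := by
    unfold xP
    rw [dif_pos hi]
    simp only [kil, aeval_X, Sum.elim_inl]
    rw [if_neg (lt_irrefl i)]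
  have h4 : X (Sum.inl ⟨i, hi⟩) * kil K n i g = kil K n i f * kil K n i t := by
    have h5 := congrArg (kil K n i) ht
    rw [map_sub, map_mul, map_mul, h3, kil_Id le_rfl hi.le hu, sub_zero] at h5
    exact h5
  have hprime : Prime (X (Sum.inl ⟨i, hi⟩) : MvPolynomial (Vr n) K) := X_prime
  have hnd : ¬ (X (Sum.inl ⟨i, hi⟩) : MvPolynomial (Vr n) K) ∣ kil K n i f := by
    rintro ⟨v, hv⟩
    have h6 : eval (pt n 0 1) (kil K n i f) = 0 := by rw [hv]; simp [pt]
    have h7 : eval (pt n 0 1) (kil K n i f) = eval (pt n 0 1) f := by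
      have h8 := kil_sub i hi.le f
      have h9 : f - kil K n i f ∈ Ix0 K n := by
        rw [← Id_xP]; exact Id_mono _ hi.le h8
      have h10 := eval_Ix0 0 1 h9
      rw [map_sub, sub_eq_zero] at h10
      exact h10.symm
    have h8 := eval_Ix0 0 1 H.fac
    rw [map_sub, sub_eq_zero, map_mul, map_prod] at h8
    rw [h7, h8, eval_C] at h6
    rcases mul_eq_zero.mp h6 with h | h
    · exact H.hκ h
    · rw [Finset.prod_eq_zero_iff] at h
      obtain ⟨j, _, hj⟩ := h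
      rw [eval_hh1, zero_pow H.hb.ne'] at hj
      simp at hj
  have h5 : (X (Sum.inl ⟨i, hi⟩) : MvPolynomial (Vr n) K) ∣ kil K n i t :=
    (hprime.dvd_or_dvd (⟨_, h4.symm⟩ : _ ∣ kil K n i f * kil K n i t)).resolve_left hnd
  obtain ⟨v, hv⟩ := h5
  have h6 : kil K n i g = kil K n i f * v := by
    rw [hv] at h4
    have h7 : X (Sum.inl ⟨i, hi⟩) * kil K n i g = X (Sum.inl ⟨i, hi⟩) * (kil K n i f * v) := by
      rw [h4]; ring
    exact mul_left_cancel₀ hprime.ne_zero h7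
  have h7 : g = (g - kil K n i g) - (f - kil K n i f) * v + f * v := by rw [h6]; ring
  rw [Ideal.mem_map_iff_of_surjective _ qq_surj]
  refine ⟨(g - kil K n i g) - (f - kil K n i f) * v, Ideal.sub_mem _ (kil_sub i hi.le g)
    (Ideal.mul_mem_right _ _ (kil_sub i hi.le f)), ?_⟩
  conv_rhs => rw [h7]
  rw [map_add (qq f), qq_f, add_zero]

/-- Sylvester's symmetry -/
lemma sylvester (hab : Nat.Coprime a b) (ha : 0 < a) (w : ℤ)
    (hw : ¬ ∃ i k : ℕ, (a * i + b * k : ℤ) = w) :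
    ∃ i k : ℕ, (a * i + b * k : ℤ) = a * b - a - b - w := by
  -- solve `b k ≡ w` mod `a`
  obtain ⟨k, hk0, hka, i, hi⟩ : ∃ k : ℤ, 0 ≤ k ∧ k < a ∧ ∃ i : ℤ, a * i + b * k = w := by
    have h1 : IsCoprime (a : ℤ) (b : ℤ) := Nat.isCoprime_iff_coprime.mpr hab
    obtain ⟨u, v, huv⟩ := h1
    refine ⟨(v * w) % a, Int.emod_nonneg _ (by omega), Int.emod_lt_of_pos _ (by omega),
      u * w + b * ((v * w) / a), ?_⟩
    have h2 := Int.emod_add_mul_ediv (v * w) a
    have h3 : (v * w) % a = v * w - a * ((v * w) / a) := by linarith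
    rw [h3]
    linear_combination w * huv
  have hi0 : i < 0 := by
    by_contra h
    apply hw
    refine ⟨i.toNat, k.toNat, ?_⟩
    rw [Int.toNat_of_nonneg (by omega), Int.toNat_of_nonneg hk0]
    exact hi
  refine ⟨(-1 - i).toNat, (a - 1 - k).toNat, ?_⟩
  rw [Int.toNat_of_nonneg (by omega), Int.toNat_of_nonneg (by omega), ← hi]
  ring

/-- the homogeneous parts of the ideals -/
noncomputable def JH (f : MvPolynomial (Vr n) K) (a b c : ℕ) (ν : ℕ → K) (i : ℕ) (m : ℤ) :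
    Submodule K (MvPolynomial (Vr n) K ⧸ Ideal.span {f}) :=
  AZ (hypGr f a b) m ⊓ (Jid f a b ν (min i c)).restrictScalars K

lemma mem_JH {i : ℕ} {m : ℤ} {r : MvPolynomial (Vr n) K ⧸ Ideal.span {f}} :
    r ∈ JH f a b c ν i m ↔ r ∈ AZ (hypGr f a b) m ∧ r ∈ Jid f a b ν (min i c) := Iff.rfl

open Classical in
/-- the functionals -/
noncomputable def thH (H : HD f a b c ν κ) (i : ℕ) :
    (MvPolynomial (Vr n) K ⧸ Ideal.span {f}) →ₗ[K] K :=
  if h : i < c then (exists_theta H h).choose else 0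

lemma thH_apply (H : HD f a b c ν κ) {i : ℕ} (hi : i < c) (g : MvPolynomial (Vr n) K)
    {s : MvPolynomial (Vr n) K} (hs : s ∈ Ix0 K n) :
    thH H i (qq f ((∏ j ∈ range i, hh1 a b (ν j)) * g + s)) = eval (pt n 1 (ν i)) g := by
  unfold thH
  rw [dif_pos hi]
  exact (exists_theta H hi).choose_spec g s hs

/-- the projections -/
noncomputable def prH (H : HD f a b c ν κ) (m : ℤ) :
    (MvPolynomial (Vr n) K ⧸ Ideal.span {f}) →ₗ[K] (MvPolynomial (Vr n) K ⧸ Ideal.span {f}) :=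
  (exists_pr H m).choose

lemma prH_apply (H : HD f a b c ν κ) (m : ℤ) (g : MvPolynomial (Vr n) K) :
    prH H m (qq f g) = qq f (prZ (AP K n a b) m g) := (exists_pr H m).choose_spec g

lemma qq_Ix0 (H : HD f a b c ν κ) {s : MvPolynomial (Vr n) K} (hs : s ∈ Ix0 K n) (i : ℕ) :
    qq f s ∈ Jid f a b ν i :=
  mem_Jid.mpr ⟨0, s, hs, by rw [mul_zero, zero_add]⟩

lemma mono_mem (i k : ℕ) : (yy ^ i * zz ^ k : MvPolynomial (Vr n) K) ∈
    AP K n a b (a * i + b * k) := by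
  have h1 := (isWeightedHomogeneous_X K (wts n a b) (Sum.inr 0 : Vr n)).pow i
  have h2 := (isWeightedHomogeneous_X K (wts n a b) (Sum.inr 1 : Vr n)).pow k
  have h3 := h1.mul h2
  simpa [wts, yy, zz, mul_comm] using h3

/-- the algebraic data of a hypersurface -/
theorem adata_hyp (H : HD f a b c ν κ) :
    AData (AZ (hypGr f a b)) (fun j => qq f (xP K n j)) n c (JH f a b c ν) (thH H) (chi H)
      (prH H) (c * (a * b) - a - b) := by
  constructor
  · -- one
    rw [AZ_hyp]; exact ⟨1, AZ_one _, map_one _⟩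
  · -- mul
    intro u v r s hr hs
    obtain ⟨g, hg, rfl⟩ := AZ_hyp.mp hr
    obtain ⟨h, hh, rfl⟩ := AZ_hyp.mp hs
    rw [AZ_hyp]; exact ⟨g * h, AZ_mul _ hg hh, map_mul _ _ _⟩
  · -- neg
    intro m hm r hr; exact AZ_neg _ hm hr
  · -- hx
    intro j hj
    rw [AZ_hyp]
    refine ⟨xP K n j, ?_, rfl⟩
    have h := AZ_nat (AP K n a b) 1
    rw [Nat.cast_one] at h
    rw [h]; exact xP_mem hj
  · exact reg_hyp H
  · -- J0
    intro m r hr
    rw [mem_JH]
    refine ⟨hr, ?_⟩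
    obtain ⟨g, rfl⟩ := qq_surj r
    rw [Nat.zero_min]
    exact mem_Jid.mpr ⟨g, 0, Ideal.zero_mem _, by simp⟩
  · intro i m r hr; exact hr.1
  · -- Jle
    intro i m r hr
    rw [mem_JH] at hr ⊢
    refine ⟨hr.1, ?_⟩
    by_cases hi : i < c
    · have h1 : min (i + 1) c = i + 1 := by omega
      have h2 : min i c = i := by omega
      rw [h1] at hr
      rw [h2]
      obtain ⟨g, s, hs, h3⟩ := mem_Jid.mp hr.2
      refine mem_Jid.mpr ⟨hh1 a b (ν i) * g, s, hs, ?_⟩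
      rw [h3, Finset.prod_range_succ, mul_assoc]
    · have h1 : min (i + 1) c = c := by omega
      have h2 : min i c = c := by omega
      rw [h1] at hr
      rw [h2]; exact hr.2
  · -- Jmul
    intro i _ u v s r hs hr
    rw [mem_JH] at hr ⊢
    refine ⟨?_, Ideal.mul_mem_left _ _ hr.2⟩
    obtain ⟨g, hg, rfl⟩ := AZ_hyp.mp hs
    obtain ⟨h, hh, rfl⟩ := AZ_hyp.mp hr.1
    rw [AZ_hyp]; exact ⟨g * h, AZ_mul _ hg hh, map_mul _ _ _⟩
  · -- Jc
    intro m r hr
    rw [mem_JH, min_self] at hr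
    obtain ⟨g, hg, s, hs, h1⟩ := mem_Jid_hom H le_rfl hr.1 hr.2
    -- `H_c g` is a multiple of `f` modulo `(x)`
    obtain ⟨s', hs', h2⟩ := f_mod H le_rfl
    rw [Finset.Ico_self, Finset.prod_empty, mul_one] at h2
    have h3 : (∏ j ∈ range c, hh1 a b (ν j)) * g + s =
        f * (C κ⁻¹ * g) + (s - s' * (C κ⁻¹ * g)) := by
      have h4 : (C κ : MvPolynomial (Vr n) K) * C κ⁻¹ = 1 := by
        rw [← C_mul, mul_inv_cancel₀ H.hκ, C_1]
      conv_rhs => rw [h2]
      linear_combination (-(∏ j ∈ range c, hh1 a b (ν j)) * g) * h4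
    rw [h3, map_add, qq_f, zero_add] at h1
    have h4 : s - s' * (C κ⁻¹ * g) ∈ Id (xP K n) n := by
      rw [Id_xP]
      exact Ideal.sub_mem _ hs (Ideal.mul_mem_right _ _ hs')
    obtain ⟨h, hh, hr2⟩ := AZ_hyp.mp hr.1
    obtain ⟨t, ht1, ht2⟩ := prZ_Id (AP K n a b) (fun j hj => xP_mem hj) m h4
    refine ⟨fun j => qq f (t j), fun j => AZ_hyp.mpr ⟨t j, ht1 j, rfl⟩, ?_⟩
    have h5 : r = prH H m r := by
      rw [← hr2, prH_apply, prZ_same _ hh]
    rw [h5, h1, prH_apply, ht2, map_sum]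
    exact Finset.sum_congr rfl (fun j _ => map_mul _ _ _)
  · -- θ0
    intro i hi m r hr h0
    rw [mem_JH] at hr ⊢
    have h1 : min (i + 1) c = i + 1 := by omega
    have h2 : min i c = i := by omega
    rw [h2] at hr
    rw [h1]
    obtain ⟨g, hg, s, hs, h3⟩ := mem_Jid_hom H hi.le hr.1 hr.2
    rw [h3, thH_apply H hi g hs] at h0
    obtain ⟨g', hg', h4⟩ := exists_factor H.hab H.ha (H.hν i) hg h0
    refine ⟨hr.1, mem_Jid.mpr ⟨g', (∏ j ∈ range i, hh1 a b (ν j)) * (g - hh1 a b (ν i) * g') + s,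
      Ideal.add_mem _ (Ideal.mul_mem_left _ _ h4) hs, ?_⟩⟩
    rw [h3, Finset.prod_range_succ]
    congr 1
    ring
  · -- θJ
    intro i hi m r hr
    rw [mem_JH] at hr
    have h1 : min (i + 1) c = i + 1 := by omega
    rw [h1] at hr
    obtain ⟨g, s, hs, h3⟩ := mem_Jid.mp hr.2
    rw [h3, Finset.prod_range_succ, mul_assoc, thH_apply H hi _ hs, map_mul, eval_hh1]
    simp
  · -- θmul
    intro i hi u v s r _ hr
    rw [mem_JH] at hr
    have h2 : min i c = i := by omega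
    rw [h2] at hr
    obtain ⟨g, t, ht, h3⟩ := mem_Jid.mp hr.2
    obtain ⟨h, rfl⟩ := qq_surj s
    rw [h3, thH_apply H hi _ ht, chi_qq, ← map_mul, ← map_mul]
    have h4 : h * ((∏ j ∈ range i, hh1 a b (ν j)) * g + t) =
        (∏ j ∈ range i, hh1 a b (ν j)) * (h * g) + h * t := by ring
    rw [h4, thH_apply H hi _ (Ideal.mul_mem_left _ _ ht)]
  · -- χx
    intro i _ j hj
    rw [chi_qq]
    unfold xP
    rw [dif_pos hj]
    simp [pt]
  · -- dual
    intro i hi w hw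
    have hw' : ¬ ∃ α β : ℕ, (a * α + b * β : ℤ) = w - i * (a * b) := by
      rintro ⟨α, β, hαβ⟩
      have h2 : min i c = i := by omega
      have h3 : (yy ^ α * zz ^ β : MvPolynomial (Vr n) K) ∈
          AZ (AP K n a b) (w - i * (a * b)) := by
        have h4 := mono_mem (K := K) (n := n) (a := a) (b := b) α β
        rw [← AZ_nat (AP K n a b)] at h4
        push_cast at h4
        rwa [hαβ] at h4
      have h4 : qq f ((∏ j ∈ range i, hh1 a b (ν j)) * (yy ^ α * zz ^ β) + 0) ∈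
          JH f a b c ν i w := by
        rw [mem_JH, h2]
        refine ⟨AZ_hyp.mpr ⟨_, ?_, rfl⟩, mem_Jid.mpr ⟨_, 0, Ideal.zero_mem _, rfl⟩⟩
        rw [add_zero]
        have h5 := prod_hom (K := K) (n := n) (a := a) (b := b) (ν := ν) i
        have h6 : (∏ j ∈ range i, hh1 a b (ν j) : MvPolynomial (Vr n) K) ∈
            AZ (AP K n a b) ((i * (a * b) : ℕ) : ℤ) := by rw [AZ_nat]; exact h5
        have h7 := AZ_mul _ h6 h3
        push_cast at h7
        rwa [add_sub_cancel] at h7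
      have h5 := hw _ h4
      rw [thH_apply H hi _ (Ideal.zero_mem _)] at h5
      simp only [yy, zz, pt, map_mul, map_pow, eval_X, Sum.elim_inr] at h5
      simp only [Matrix.cons_val_zero, Matrix.cons_val_one, one_pow, one_mul] at h5
      exact pow_ne_zero _ (H.hν i) h5
    obtain ⟨α, β, hαβ⟩ := sylvester H.hab H.ha _ hw'
    refine ⟨qq f (yy ^ (α + b * (c - 1 - i)) * zz ^ β), AZ_hyp.mpr ⟨_, ?_, rfl⟩, ?_⟩
    · have h4 := mono_mem (K := K) (n := n) (a := a) (b := b) (α + b * (c - 1 - i)) β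
      rw [← AZ_nat (AP K n a b)] at h4
      convert h4 using 2
      push_cast
      have h5 : ((c - 1 - i : ℕ) : ℤ) = c - 1 - i := by omega
      rw [h5]
      linear_combination (-1 : ℤ) * hαβ
    · rw [chi_qq]
      simp only [yy, zz, pt, map_mul, map_pow, eval_X, Sum.elim_inr]
      simp only [Matrix.cons_val_zero, Matrix.cons_val_one, one_pow, one_mul]
      exact pow_ne_zero _ (H.hν i)
  · -- pr1
    intro m r hr
    obtain ⟨g, hg, rfl⟩ := AZ_hyp.mp hr
    rw [prH_apply, prZ_same _ hg]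
  · -- pr2
    intro m m' h r hr
    obtain ⟨g, hg, rfl⟩ := AZ_hyp.mp hr
    rw [prH_apply, prZ_ne _ h hg, map_zero]
  · -- prI
    intro m r hr
    rw [mem_JH, min_self]
    have hIdm : Id (fun j => qq f (xP K n j)) n = (Ix0 K n).map (qq f) := by
      rw [← Id_xP]
      unfold Id
      rw [Ideal.map_span]
      congr 1
      rw [Set.image_image]
    rw [hIdm, Ideal.mem_map_iff_of_surjective _ qq_surj] at hr
    obtain ⟨s, hs, rfl⟩ := hr
    have hs' : s ∈ Ix0 K n := hs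
    show prH H m (qq f s) ∈ _ ∧ _
    rw [prH_apply]
    exact ⟨AZ_hyp.mpr ⟨_, prZ_mem _ _ _, rfl⟩, qq_Ix0 H (prZ_Ix0 m hs') c⟩

/-- the degree of a polynomial not vanishing at the two coordinate points -/
lemma degree_hyp (hab : Nat.Coprime a b) {e : ℕ} (he : 0 < e)
    (hf : IsWeightedHomogeneous (wts n a b) f e)
    (hY : eval (pt n 1 0) f ≠ 0) (hZ : eval (pt n 0 1) f ≠ 0) :
    ∃ c, 0 < c ∧ e = c * (a * b) := by
  have h1 : a ∣ e := by
    have h2 : ∃ u ∈ f.support, eval (pt n 1 0) (monomial u (coeff u f)) ≠ 0 := by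
      by_contra h
      push Not at h
      apply hY
      rw [f.as_sum, map_sum]
      exact Finset.sum_eq_zero h
    obtain ⟨u, hu, h3⟩ := h2
    rcases mono_cases u (coeff u f) with h | ⟨h, hpure⟩
    · exact absurd (eval_Ix0 1 0 h) h3
    · have hwt := hf (mem_support_iff.mp hu)
      rw [weight_pure u hpure] at hwt
      rw [h] at h3
      have h4 : u (Sum.inr 1) = 0 := by
        by_contra h5
        apply h3
        simp [yy, zz, pt, h5]
      rw [h4, mul_zero, add_zero] at hwt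
      exact ⟨_, hwt.symm⟩
  have h2 : b ∣ e := by
    have h2 : ∃ u ∈ f.support, eval (pt n 0 1) (monomial u (coeff u f)) ≠ 0 := by
      by_contra h
      push Not at h
      apply hZ
      rw [f.as_sum, map_sum]
      exact Finset.sum_eq_zero h
    obtain ⟨u, hu, h3⟩ := h2
    rcases mono_cases u (coeff u f) with h | ⟨h, hpure⟩
    · exact absurd (eval_Ix0 0 1 h) h3
    · have hwt := hf (mem_support_iff.mp hu)
      rw [weight_pure u hpure] at hwt
      rw [h] at h3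
      have h4 : u (Sum.inr 0) = 0 := by
        by_contra h5
        apply h3
        simp [yy, zz, pt, h5]
      rw [h4, mul_zero, zero_add] at hwt
      exact ⟨_, hwt.symm⟩
  obtain ⟨c, hc⟩ := hab.mul_dvd_of_dvd_of_dvd h1 h2
  refine ⟨c, Nat.pos_of_ne_zero ?_, by rw [hc]; ring⟩
  rintro rfl
  rw [mul_zero] at hc
  omega

/-- **Hypersurfaces.** -/
theorem hypersurface [CharZero K] [IsAlgClosed K] (ha : 0 < a) (hb : 0 < b)
    (hab : Nat.Coprime a b) {e : ℕ} (he : 0 < e) (hf : IsWeightedHomogeneous (wts n a b) f e)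
    (hY : eval (pt n 1 0) f ≠ 0) (hZ : eval (pt n 0 1) f ≠ 0) {l d : ℕ}
    (hl : (e : ℤ) - a - b + 2 + d ≤ l) {p q : ℕ} (hp : p ≤ d) (hq : 1 ≤ q) :
    KoszulZero (hypGr f a b) l p q := by
  obtain ⟨c, hc, rfl⟩ := degree_hyp hab he hf hY hZ
  have hf' : f ∈ AZ (AP K n a b) ((c * (a * b) : ℕ) : ℤ) := by rw [AZ_nat]; exact hf
  obtain ⟨ν, hν, κ, hκ, hfac⟩ := factorization hab ha hb c f hf' hY hZ
  have H : HD f a b c (fun i => ν (min i (c - 1))) κ := by
    refine ⟨hab, ha, hb, hc, hf, fun i => hν _, hκ, fun i => ⟨min i (c - 1), by omega, ?_⟩, ?_⟩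
    · congr 1; omega
    · have h1 : ∏ i ∈ range c, hh1 (n := n) a b (ν (min i (c - 1))) =
          ∏ i ∈ range c, hh1 a b (ν i) := by
        apply Finset.prod_congr rfl
        intro i hi
        rw [Finset.mem_range] at hi
        congr 2
        omega
      rw [h1]; exact hfac
  refine koszulZero_of (adata_hyp H) (AZ_nat _) ?_ hp hq
  push_cast at hl
  linarith

end Pool.Agent.Helper40.MukN
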