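import Pool.Agent.Helper40.MukN.Gr

/-!
# Polynomials in `x_1, ..., x_n, y, z` with weights `1, ..., 1, a, b`
-/

namespace Pool.Agent.Helper40.MukN

open Finset MvPolynomial

/-- the variables `x_1, ..., x_n, y, z` -/
abbrev Vr (n : ℕ) := Fin n ⊕ Fin 2

/-- the weights `1, ..., 1, a, b` -/
def wts (n a b : ℕ) : Vr n → ℕ := Sum.elim (fun _ => 1) ![a, b]

attribute [local instance] MvPolynomial.weightedGradedAlgebra

variable {K : Type*} [Field K] {n a b : ℕ}

/-- `y` -/
noncomputable def yy : MvPolynomial (Vr n) K := X (Sum.inr 0)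
/-- `z` -/
noncomputable def zz : MvPolynomial (Vr n) K := X (Sum.inr 1)

/-- the point `(0, ..., 0, s, t)` -/
def pt (n : ℕ) (s t : K) : Vr n → K := Sum.elim (fun _ => 0) ![s, t]

/-- the ideal `(x_1, ..., x_n)` -/
noncomputable def Ix0 (K : Type*) [Field K] (n : ℕ) : Ideal (MvPolynomial (Vr n) K) :=
  Ideal.span (Set.range (fun j : Fin n => X (Sum.inl j)))

/-- `z^a - ν^a y^b` -/
noncomputable def hh1 (a b : ℕ) (ν : K) : MvPolynomial (Vr n) K := zz ^ a - C (ν ^ a) * yy ^ b

lemma eval_Ix0 (s t : K) {g : MvPolynomial (Vr n) K} (hg : g ∈ Ix0 K n) :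
    eval (pt n s t) g = 0 := by
  have : Ix0 K n ≤ RingHom.ker (eval (pt n s t)) := by
    unfold Ix0
    rw [Ideal.span_le]
    rintro _ ⟨j, rfl⟩
    simp [RingHom.mem_ker, pt]
  exact this hg

lemma eval_hh1 (s t ν : K) : eval (pt n s t) (hh1 a b ν) = t ^ a - ν ^ a * s ^ b := by
  simp [hh1, zz, yy, pt]

lemma hh1_hom (ν : K) : IsWeightedHomogeneous (wts n a b) (hh1 (n := n) a b ν) (a * b) := by
  have h1 : IsWeightedHomogeneous (wts n a b) (zz ^ a : MvPolynomial (Vr n) K) (a * b) := by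
    have := (isWeightedHomogeneous_X K (wts n a b) (Sum.inr 1)).pow a
    simpa [wts, zz] using this
  have h2 : IsWeightedHomogeneous (wts n a b) (C (ν ^ a) * yy ^ b : MvPolynomial (Vr n) K)
      (a * b) := by
    have := ((isWeightedHomogeneous_X K (wts n a b) (Sum.inr 0)).pow b).C_mul (ν ^ a)
    simpa [wts, yy, mul_comm] using this
  exact h1.sub h2

/-- comparison of two monomials of the same weight -/
lemma mono_cmp (hab : Nat.Coprime a b) (ha : 0 < a) {ν : K} {i k i' k' : ℕ}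
    (h : a * i + b * k = a * i' + b * k') (hk : k' ≤ k) :
    (yy ^ i * zz ^ k - C (ν ^ (k - k')) * (yy ^ i' * zz ^ k') : MvPolynomial (Vr n) K) ∈
      Ix0 K n ⊔ Ideal.span {hh1 a b ν} := by
  have h1 : a ∣ b * (k - k') := by
    have h2 : b * (k - k') = a * (i' - i) := by
      have h3 : b * k' ≤ b * k := Nat.mul_le_mul_left b hk
      have h4 : a * i ≤ a * i' := by omega
      rw [Nat.mul_sub, Nat.mul_sub]
      omega
    exact ⟨_, h2⟩
  obtain ⟨j, hj⟩ := hab.dvd_of_dvd_mul_left h1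
  have hk2 : k = k' + a * j := by omega
  have hi2 : i' = i + b * j := by
    subst hk2
    have h5 : a * (i + b * j) = a * i' := by
      have h6 : b * (k' + a * j) = b * k' + a * (b * j) := by ring
      rw [h6] at h
      rw [mul_add]
      omega
    exact (Nat.eq_of_mul_eq_mul_left ha h5).symm
  subst hk2 hi2
  rw [Nat.add_sub_cancel_left]
  have h7 : (yy ^ i * zz ^ (k' + a * j) - C (ν ^ (a * j)) * (yy ^ (i + b * j) * zz ^ k') :
      MvPolynomial (Vr n) K) =
      yy ^ i * zz ^ k' * ((zz ^ a) ^ j - (C (ν ^ a) * yy ^ b) ^ j) := by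
    rw [mul_pow, ← C_pow, ← pow_mul, ← pow_mul, ← pow_mul, pow_add, pow_add]
    ring
  rw [h7]
  apply Ideal.mem_sup_right
  apply Ideal.mul_mem_left
  rw [Ideal.mem_span_singleton]
  exact sub_dvd_pow_sub_pow _ _ j

/-- a monomial is `y^i z^k` or a multiple of some `x_j` -/
lemma mono_cases (u : Vr n →₀ ℕ) (r : K) :
    monomial u r ∈ Ix0 K n ∨ (monomial u r : MvPolynomial (Vr n) K) =
      C r * (yy ^ u (Sum.inr 0) * zz ^ u (Sum.inr 1)) ∧ ∀ j : Fin n, u (Sum.inl j) = 0 := by
  by_cases h : ∃ j : Fin n, u (Sum.inl j) ≠ 0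
  · left
    obtain ⟨j, hj⟩ := h
    have h1 : (X (Sum.inl j) : MvPolynomial (Vr n) K) ∣ monomial u r := by
      rw [X_dvd_monomial]
      exact Or.inr hj
    obtain ⟨g, hg⟩ := h1
    rw [hg]
    exact Ideal.mul_mem_right _ _ (Ideal.subset_span ⟨j, rfl⟩)
  · right
    push Not at h
    refine ⟨?_, h⟩
    rw [monomial_eq, Finsupp.prod_fintype _ _ (fun _ => pow_zero _), Fintype.prod_sum_type]
    simp [h, yy, zz]

lemma weight_pure (u : Vr n →₀ ℕ) (h : ∀ j : Fin n, u (Sum.inl j) = 0) :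
    Finsupp.weight (wts n a b) u = a * u (Sum.inr 0) + b * u (Sum.inr 1) := by
  rw [Finsupp.weight_apply, Finsupp.sum_fintype _ _ (fun _ => by simp), Fintype.sum_sum_type]
  simp [h, wts]
  ring

/-- a homogeneous polynomial vanishing at `(0, 1, ν)` lies in `(x, z^a - ν^a y^b)` -/
lemma mem_of_eval (hab : Nat.Coprime a b) (ha : 0 < a) {ν : K} (hν : ν ≠ 0) {w : ℕ}
    {g : MvPolynomial (Vr n) K} (hg : IsWeightedHomogeneous (wts n a b) g w)
    (h0 : eval (pt n 1 ν) g = 0) : g ∈ Ix0 K n ⊔ Ideal.span {hh1 a b ν} := by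
  classical
  -- a reference monomial
  by_cases hex : ∃ i k, a * i + b * k = w ∧ ∀ i' k', a * i' + b * k' = w → k ≤ k'
  · obtain ⟨i₀, k₀, hw0, hmin⟩ := hex
    have key : ∀ u ∈ g.support, monomial u (coeff u g) -
        C (eval (pt n 1 ν) (monomial u (coeff u g)) * (ν ^ k₀)⁻¹) * (yy ^ i₀ * zz ^ k₀) ∈
          Ix0 K n ⊔ Ideal.span {hh1 a b ν} := by
      intro u hu
      rcases mono_cases u (coeff u g) with h | ⟨h, hpure⟩
      · rw [eval_Ix0 1 ν h]
        simp only [zero_mul, map_zero, sub_zero]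
        exact Ideal.mem_sup_left h
      · have hwt := hg (mem_support_iff.mp hu)
        rw [weight_pure u hpure] at hwt
        have hk := hmin _ _ hwt
        have h1 := mono_cmp (n := n) hab ha (ν := ν) (hwt.trans hw0.symm) hk
        have h2 : eval (pt n 1 ν) (monomial u (coeff u g)) = coeff u g * ν ^ u (Sum.inr 1) := by
          rw [h]; simp [yy, zz, pt]
        rw [h2, h]
        have h3 : coeff u g * ν ^ u (Sum.inr 1) * (ν ^ k₀)⁻¹ =
            coeff u g * ν ^ (u (Sum.inr 1) - k₀) := by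
          have h4 : ν ^ u (Sum.inr 1) = ν ^ (u (Sum.inr 1) - k₀) * ν ^ k₀ := by
            rw [← pow_add, Nat.sub_add_cancel hk]
          rw [h4]
          have : ν ^ k₀ ≠ 0 := pow_ne_zero _ hν
          field_simp
        rw [h3]
        have h5 : C (coeff u g) * (yy ^ u (Sum.inr 0) * zz ^ u (Sum.inr 1)) -
            C (coeff u g * ν ^ (u (Sum.inr 1) - k₀)) * (yy ^ i₀ * zz ^ k₀) =
            C (coeff u g) * (yy ^ u (Sum.inr 0) * zz ^ u (Sum.inr 1) -
              C (ν ^ (u (Sum.inr 1) - k₀)) * (yy ^ i₀ * zz ^ k₀) : MvPolynomial (Vr n) K) := by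
          rw [C_mul]; ring
        rw [h5]
        exact Ideal.mul_mem_left _ _ h1
    have h1 : g = ∑ u ∈ g.support, (monomial u (coeff u g) -
        C (eval (pt n 1 ν) (monomial u (coeff u g)) * (ν ^ k₀)⁻¹) * (yy ^ i₀ * zz ^ k₀)) := by
      rw [Finset.sum_sub_distrib, ← g.as_sum, ← Finset.sum_mul, ← map_sum, ← Finset.sum_mul,
        ← map_sum, ← g.as_sum, h0]
      simp
    rw [h1]
    exact Ideal.sum_mem _ key
  · -- no pure monomials at all
    apply Ideal.mem_sup_left
    rw [g.as_sum]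
    apply Ideal.sum_mem
    intro u hu
    rcases mono_cases u (coeff u g) with h | ⟨h, hpure⟩
    · exact h
    · exfalso
      apply hex
      have hwt := hg (mem_support_iff.mp hu)
      rw [weight_pure u hpure] at hwt
      have h2 : ∃ k, ∃ i, a * i + b * k = w := ⟨_, _, hwt⟩
      obtain ⟨i, hi⟩ := Nat.find_spec h2
      exact ⟨i, Nat.find h2, hi, fun i' k' h' => Nat.find_min' h2 ⟨i', h'⟩⟩

/-! ### homogeneous components -/

section Graded

variable {R : Type*} [CommRing R] [Algebra K R] (𝒜 : ℕ → Submodule K R) [GradedAlgebra 𝒜]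

/-- projection of a multiple of a homogeneous element -/
lemma prZ_mul' {k : ℕ} {x : R} (hx : x ∈ 𝒜 k) (m : ℤ) (r : R) :
    prZ 𝒜 m (x * r) = x * prZ 𝒜 (m - k) r := by
  unfold prZ
  by_cases h0 : 0 ≤ m
  · rw [if_pos h0, GradedAlgebra.proj_apply]
    by_cases h1 : (k : ℤ) ≤ m
    · rw [if_pos (by omega), GradedAlgebra.proj_apply,
        DirectSum.coe_decompose_mul_of_left_mem_of_le 𝒜 hx (by omega : k ≤ m.toNat)]
      have h2 : m.toNat - k = (m - k).toNat := by omega
      rw [h2]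
    · rw [if_neg (by omega), DirectSum.coe_decompose_mul_of_left_mem_of_not_le 𝒜 hx (by omega)]
      simp
  · rw [if_neg h0, if_neg (by omega)]; simp

end Graded

/-- the grading of the polynomial ring -/
noncomputable abbrev AP (K : Type*) [Field K] (n a b : ℕ) : ℕ → Submodule K (MvPolynomial (Vr n) K) :=
  weightedHomogeneousSubmodule K (wts n a b)

/-- the variables `x_j` -/
noncomputable def xP (K : Type*) [Field K] (n : ℕ) (j : ℕ) : MvPolynomial (Vr n) K :=
  if h : j < n then X (Sum.inl ⟨j, h⟩) else 0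

lemma xP_mem {j : ℕ} (hj : j < n) : xP K n j ∈ AP K n a b 1 := by
  unfold xP
  rw [dif_pos hj]
  have := isWeightedHomogeneous_X K (wts n a b) (Sum.inl ⟨j, hj⟩)
  simpa [wts] using this

lemma Id_xP : Id (xP K n) n = Ix0 K n := by
  unfold Id Ix0
  congr 1
  ext y
  constructor
  · rintro ⟨j, hj, rfl⟩
    exact ⟨⟨j, hj⟩, by unfold xP; rw [dif_pos (show j < n from hj)]⟩
  · rintro ⟨j, rfl⟩
    exact ⟨j, j.2, by unfold xP; simp⟩

lemma prZ_Ix0 (m : ℤ) {g : MvPolynomial (Vr n) K} (hg : g ∈ Ix0 K n) :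
    prZ (AP K n a b) m g ∈ Ix0 K n := by
  rw [← Id_xP] at hg ⊢
  obtain ⟨s, _, h2⟩ := prZ_Id (AP K n a b) (fun j hj => xP_mem hj) m hg
  rw [h2, mem_Id_iff]
  exact ⟨s, rfl⟩

/-- homogeneous version of `mem_of_eval` -/
lemma exists_factor (hab : Nat.Coprime a b) (ha : 0 < a) {ν : K} (hν : ν ≠ 0) {w : ℤ}
    {g : MvPolynomial (Vr n) K} (hg : g ∈ AZ (AP K n a b) w)
    (h0 : eval (pt n 1 ν) g = 0) : ∃ g' ∈ AZ (AP K n a b) (w - (a * b : ℕ)),
      g - hh1 a b ν * g' ∈ Ix0 K n := by
  have h1 : g ∈ Ix0 K n ⊔ Ideal.span {hh1 a b ν} := by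
    rcases AZ_cases _ hg with ⟨k, _, hk⟩ | rfl
    · exact mem_of_eval hab ha hν hk h0
    · exact Ideal.zero_mem _
  rw [Submodule.mem_sup] at h1
  obtain ⟨i, hi, j, hj, hij⟩ := h1
  obtain ⟨g', rfl⟩ := Ideal.mem_span_singleton'.mp hj
  refine ⟨prZ (AP K n a b) (w - (a * b : ℕ)) g', prZ_mem _ _ _, ?_⟩
  have h2 : hh1 a b ν * prZ (AP K n a b) (w - (a * b : ℕ)) g' =
      prZ (AP K n a b) w (hh1 a b ν * g') := (prZ_mul' _ (hh1_hom ν) w g').symm
  have h3 : g = prZ (AP K n a b) w i + prZ (AP K n a b) w (hh1 a b ν * g') := by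
    rw [← map_add, mul_comm (hh1 a b ν), hij, prZ_same _ hg]
  rw [h2, sub_eq_iff_eq_add.mpr h3]
  exact prZ_Ix0 w hi

/-- the specialization `x = 0, y = 1, z = T` -/
noncomputable def spec (n : ℕ) (K : Type*) [Field K] :
    MvPolynomial (Vr n) K →ₐ[K] Polynomial K :=
  aeval (Sum.elim (fun _ => 0) ![1, Polynomial.X])

lemma eval_spec (ν : K) (g : MvPolynomial (Vr n) K) :
    (spec n K g).eval ν = eval (pt n 1 ν) g := by
  have : ((Polynomial.aeval ν : Polynomial K →ₐ[K] K).comp (spec n K)) = aeval (pt n 1 ν) := by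
    apply algHom_ext
    rintro (j | j)
    · simp [spec, pt]
    · fin_cases j <;> simp [spec, pt]
  have h2 := DFunLike.congr_fun this g
  simpa [Polynomial.aeval_def, Polynomial.eval₂_eq_eval_map, aeval_eq_eval] using h2

lemma coeff_spec (ha : 0 < a) (hb : 0 < b) {k : ℕ} {g : MvPolynomial (Vr n) K}
    (hg : IsWeightedHomogeneous (wts n a b) g (b * k)) :
    (spec n K g).coeff k = eval (pt n 0 1) g := by
  conv_lhs => rw [g.as_sum]
  conv_rhs => rw [g.as_sum]
  rw [map_sum, map_sum, Polynomial.finsetSum_coeff]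
  apply Finset.sum_congr rfl
  intro u hu
  rcases mono_cases u (coeff u g) with h | ⟨h, hpure⟩
  · rw [eval_Ix0 0 1 h]
    have : spec n K (monomial u (coeff u g)) = 0 := by
      have h2 : Ix0 K n ≤ RingHom.ker (spec n K) := by
        unfold Ix0
        rw [Ideal.span_le]
        rintro _ ⟨j, rfl⟩
        simp [RingHom.mem_ker, spec]
      exact h2 h
    rw [this, Polynomial.coeff_zero]
  · have hwt := hg (mem_support_iff.mp hu)
    rw [weight_pure u hpure] at hwt
    rw [h]
    have h1 : spec n K (C (coeff u g) * (yy ^ u (Sum.inr 0) * zz ^ u (Sum.inr 1))) =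
        Polynomial.C (coeff u g) * Polynomial.X ^ u (Sum.inr 1) := by
      simp [spec, yy, zz]
    rw [h1, Polynomial.coeff_C_mul, Polynomial.coeff_X_pow]
    have h2 : eval (pt n 0 1) (C (coeff u g) * (yy ^ u (Sum.inr 0) * zz ^ u (Sum.inr 1)) :
        MvPolynomial (Vr n) K) = coeff u g * 0 ^ u (Sum.inr 0) := by
      simp [yy, zz, pt]
    rw [h2]
    by_cases h3 : u (Sum.inr 0) = 0
    · rw [h3, mul_zero, zero_add] at hwt
      have h4 : u (Sum.inr 1) = k := Nat.eq_of_mul_eq_mul_left hb hwt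
      rw [h3, h4]; simp
    · have h4 : k ≠ u (Sum.inr 1) := by
        rintro rfl
        have : a * u (Sum.inr 0) = 0 := by omega
        rcases Nat.mul_eq_zero.mp this with h5 | h5
        · omega
        · exact h3 h5
      rw [if_neg h4, zero_pow h3, mul_zero]

/-- **Factorization modulo `(x)`.** -/
lemma factorization [IsAlgClosed K] (hab : Nat.Coprime a b) (ha : 0 < a) (hb : 0 < b) :
    ∀ c : ℕ, ∀ g ∈ AZ (AP K n a b) ((c * (a * b) : ℕ) : ℤ), eval (pt n 1 0) g ≠ 0 →
      eval (pt n 0 1) g ≠ 0 → ∃ ν : ℕ → K, (∀ i, ν i ≠ 0) ∧ ∃ κ : K, κ ≠ 0 ∧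
        g - C κ * ∏ i ∈ range c, hh1 a b (ν i) ∈ Ix0 K n := by
  intro c
  induction c with
  | zero =>
    intro g hg h1 h2
    refine ⟨fun _ => 1, fun _ => one_ne_zero, eval (pt n 1 0) g, h1, ?_⟩
    rw [Finset.prod_range_zero, mul_one]
    rw [AZ_nat] at hg
    have h3 : g = C (coeff 0 g) := by
      ext u
      rw [coeff_C]
      split_ifs with h
      · rw [h]
      · by_contra h4
        apply h
        have h5 := hg h4
        rw [zero_mul, Finsupp.weight_apply, Finsupp.sum_fintype _ _ (fun _ => by simp),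
          Finset.sum_eq_zero_iff] at h5
        ext v
        have h6 := h5 v (Finset.mem_univ _)
        rw [smul_eq_mul, Nat.mul_eq_zero] at h6
        rcases h6 with h6 | h6
        · rw [h6]; rfl
        · exfalso
          rcases v with j | j
          · simp [wts] at h6
          · fin_cases j
            · simp [wts] at h6; omega
            · simp [wts] at h6; omega
    have h4 : eval (pt n 1 0) g = coeff 0 g := by rw [h3]; simp
    rw [h4, sub_eq_zero.mpr h3]; exact Ideal.zero_mem _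
  | succ c ih =>
    intro g hg h1 h2
    -- a root
    have hg' : IsWeightedHomogeneous (wts n a b) g (b * ((c + 1) * a)) := by
      have h3 : (c + 1) * (a * b) = b * ((c + 1) * a) := by ring
      rw [AZ_nat, h3] at hg
      exact hg
    have h3 := coeff_spec ha hb hg'
    have hdeg : (spec n K g).degree ≠ 0 := by
      intro h4
      have h5 : (spec n K g).coeff ((c + 1) * a) = 0 := by
        apply Polynomial.coeff_eq_zero_of_degree_lt
        rw [h4]
        exact_mod_cast (by positivity : 0 < (c + 1) * a)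
      rw [h3] at h5
      exact h2 h5
    obtain ⟨ν, hν⟩ := IsAlgClosed.exists_root (spec n K g) hdeg
    have hν2 : eval (pt n 1 ν) g = 0 := by rw [← eval_spec]; exact hν
    have hν0 : ν ≠ 0 := by
      rintro rfl
      exact h1 hν2
    obtain ⟨g', hg'1, hg'2⟩ := exists_factor hab ha hν0 hg hν2
    have e1 : (((c + 1) * (a * b) : ℕ) : ℤ) - (a * b : ℕ) = ((c * (a * b) : ℕ) : ℤ) := by
      push_cast; ring
    rw [e1] at hg'1
    have h4 : eval (pt n 1 0) g = - ν ^ a * eval (pt n 1 0) g' := by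
      have := eval_Ix0 1 0 hg'2
      rw [map_sub, map_mul, eval_hh1, sub_eq_zero] at this
      rw [this, zero_pow ha.ne']; ring
    have h5 : eval (pt n 0 1) g = eval (pt n 0 1) g' := by
      have := eval_Ix0 0 1 hg'2
      rw [map_sub, map_mul, eval_hh1, sub_eq_zero] at this
      rw [this, zero_pow hb.ne']; ring
    obtain ⟨ν', hν', κ, hκ, h6⟩ := ih g' hg'1 (fun h => h1 (by rw [h4, h, mul_zero]))
      (fun h => h2 (by rw [h5, h]))
    refine ⟨fun i => if i < c then ν' i else ν, fun i => ?_, κ, hκ, ?_⟩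
    · show (if i < c then ν' i else ν) ≠ 0
      split_ifs
      exacts [hν' i, hν0]
    rw [Finset.prod_range_succ]
    beta_reduce
    rw [if_neg (lt_irrefl c)]
    have h7 : ∏ i ∈ range c, hh1 (n := n) a b (if i < c then ν' i else ν) =
        ∏ i ∈ range c, hh1 a b (ν' i) :=
      Finset.prod_congr rfl (fun i hi => by rw [if_pos (Finset.mem_range.mp hi)])
    rw [h7]
    have h8 : g - C κ * ((∏ i ∈ range c, hh1 a b (ν' i)) * hh1 a b ν) =
        (g - hh1 a b ν * g') + hh1 a b ν * (g' - C κ * ∏ i ∈ range c, hh1 a b (ν' i)) := by ring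
    rw [h8]
    exact Ideal.add_mem _ hg'2 (Ideal.mul_mem_left _ _ h6)

end Pool.Agent.Helper40.MukN
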