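import Pool.Agent.Helper40.MukN.Chain

/-!
# The multigraded pieces of the Koszul complex of `K[S][x_1, x_2, ...]`
-/

namespace Pool.Agent.Helper40.MukN

open Finset

/-- multidegrees: coordinate `0` is the exponent of `t`, coordinate `i ≥ 1` that of `x_i` -/
def G := ℕ →₀ ℤ

noncomputable instance : AddCommGroup G := inferInstanceAs (AddCommGroup (ℕ →₀ ℤ))

open Classical in
noncomputable instance : LinearOrder G := linearOrderOfSTO WellOrderingRel

/-- coordinates -/
noncomputable def co (i : ℕ) : G →+ ℤ := Finsupp.applyAddHom (M := ℤ) i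

/-- unit vectors -/
noncomputable def ep (i : ℕ) : G := Finsupp.single i (1 : ℤ)

/-- total degree -/
noncomputable def dg : G →+ ℤ := Finsupp.liftAddHom (fun _ : ℕ => AddMonoidHom.id ℤ)

lemma co_ep (i j : ℕ) : co i (ep j) = if j = i then 1 else 0 := by
  show (Finsupp.single j (1 : ℤ)) i = _
  rw [Finsupp.single_apply]

@[simp] lemma co_ep_self (i : ℕ) : co i (ep i) = 1 := by simp [co_ep]

lemma co_ep_ne {i j : ℕ} (h : j ≠ i) : co i (ep j) = 0 := by simp [co_ep, h]

@[simp] lemma dg_ep (i : ℕ) : dg (ep i) = 1 := by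
  show Finsupp.liftAddHom (fun _ : ℕ => AddMonoidHom.id ℤ) (Finsupp.single i (1 : ℤ)) = 1
  rw [Finsupp.liftAddHom_apply_single]
  rfl

lemma G_ext {g h : G} (H : ∀ i, co i g = co i h) : g = h := Finsupp.ext H

/-- `S` is a numerical semigroup, `M ⊆ ℕ` is an `S`-module with `w ∉ M → f - w ∈ S` -/
structure IsPair (S M : Set ℤ) (f : ℤ) : Prop where
  zero : (0 : ℤ) ∈ S
  add : ∀ s t, s ∈ S → t ∈ S → s + t ∈ S
  nonneg : ∀ s, s ∈ S → 0 ≤ s
  addM : ∀ s m, s ∈ S → m ∈ M → s + m ∈ M
  nonnegM : ∀ m, m ∈ M → 0 ≤ m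
  dual : ∀ w, w ∉ M → f - w ∈ S

variable (S M : Set ℤ) (l : ℤ)

/-- the monomials of `K[S][x]` -/
def Gam : Set G := {g | co 0 g ∈ S ∧ ∀ i, 0 ≤ co i g}

/-- the monomials of degree `l` -/
def Mon : Set G := {v | v ∈ Gam S ∧ dg v = l}

/-- the complex of multidegree `μ` -/
def Dl (μ : G) : Set (Finset G) := {F | (∀ v ∈ F, v ∈ Mon S l) ∧ μ - ∑ v ∈ F, v ∈ Gam M}

/-- faces with `p` elements -/
def Dp (p : ℕ) (μ : G) : Set (Finset G) := {F | F.card = p ∧ F ∈ Dl S M l μ}

variable (K : Type*) [Field K]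

/-- chains -/
noncomputable def Ca (μ : G) : Submodule K (Ch K G) := Finsupp.supported K K (Dl S M l μ)

/-- chains of a given cardinality -/
noncomputable def Cc (p : ℕ) (μ : G) : Submodule K (Ch K G) := Finsupp.supported K K (Dp S M l p μ)

variable {S M l K} {f : ℤ}

lemma Gam_add (hS : IsPair S M f) {g h : G} (hg : g ∈ Gam S) (hh : h ∈ Gam M) :
    g + h ∈ Gam M := by
  refine ⟨?_, fun i => ?_⟩
  · rw [map_add]; exact hS.addM _ _ hg.1 hh.1
  · rw [map_add]; exact add_nonneg (hg.2 i) (hh.2 i)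

lemma ep_mem (hS : IsPair S M f) {x : ℕ} (hx : 1 ≤ x) : ep x ∈ Gam S := by
  refine ⟨?_, fun i => ?_⟩
  · rw [co_ep_ne (by omega)]; exact hS.zero
  · rw [co_ep]; split_ifs <;> norm_num

lemma sub_ep_mem {N : Set ℤ} {x : ℕ} (hx : 1 ≤ x) {g : G} (hg : g ∈ Gam N)
    (h : 1 ≤ co x g) : g - ep x ∈ Gam N := by
  refine ⟨?_, fun i => ?_⟩
  · rw [map_sub, co_ep_ne (by omega), sub_zero]; exact hg.1
  · rw [map_sub]
    by_cases hi : x = i
    · subst hi; simp only [co_ep_self]; omega
    · rw [co_ep_ne hi]; simpa using hg.2 i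

lemma Dl_mono (hS : IsPair S M f) {μ ν : G} (h : ν - μ ∈ Gam S) : Dl S M l μ ⊆ Dl S M l ν := by
  intro F hF
  refine ⟨hF.1, ?_⟩
  have : ν - ∑ v ∈ F, v = (ν - μ) + (μ - ∑ v ∈ F, v) := by abel
  rw [this]
  exact Gam_add hS h hF.2

lemma Dp_mono (hS : IsPair S M f) {p : ℕ} {μ ν : G} (h : ν - μ ∈ Gam S) :
    Dp S M l p μ ⊆ Dp S M l p ν := fun _ hF => ⟨hF.1, Dl_mono hS h hF.2⟩

lemma Cc_mono (hS : IsPair S M f) {p : ℕ} {μ ν : G} (h : ν - μ ∈ Gam S) :
    Cc S M l K p μ ≤ Cc S M l K p ν := Finsupp.supported_mono (Dp_mono hS h)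

lemma Ca_mono (hS : IsPair S M f) {μ ν : G} (h : ν - μ ∈ Gam S) :
    Ca S M l K μ ≤ Ca S M l K ν := Finsupp.supported_mono (Dl_mono hS h)

lemma Cc_le_Ca {p : ℕ} {μ : G} : Cc S M l K p μ ≤ Ca S M l K μ :=
  Finsupp.supported_mono (fun _ hF => hF.2)

lemma Cc_of_Ca {p : ℕ} {μ ν : G} {c : Ch K G} (h1 : c ∈ Cc S M l K p ν)
    (h2 : c ∈ Ca S M l K μ) : c ∈ Cc S M l K p μ := by
  rw [Cc, Finsupp.mem_supported] at *
  rw [Ca, Finsupp.mem_supported] at h2
  exact fun F hF => ⟨(h1 hF).1, h2 hF⟩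

lemma Dl_erase {μ v : G} {F : Finset G} (hF : F ∈ Dl S M l μ) (hv : v ∈ F) :
    F.erase v ∈ Dl S M l (μ - v) := by
  refine ⟨fun w hw => hF.1 w (Finset.mem_of_mem_erase hw), ?_⟩
  have := Finset.add_sum_erase F (fun w => w) hv
  have h2 : μ - v - ∑ w ∈ F.erase v, w = μ - ∑ w ∈ F, w := by
    rw [← this]; abel
  rw [h2]
  exact hF.2

lemma Dl_erase' (hS : IsPair S M f) {μ v : G} {F : Finset G} (hF : F ∈ Dl S M l μ) (hv : v ∈ F) :
    F.erase v ∈ Dl S M l μ := by
  refine Dl_mono hS ?_ (Dl_erase hF hv)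
  have : μ - (μ - v) = v := by abel
  rw [this]
  exact (hF.1 v hv).1

lemma Dl_insert {μ v : G} {F : Finset G} (hF : F ∈ Dl S M l (μ - v)) (hM : v ∈ Mon S l)
    (hv : v ∉ F) : insert v F ∈ Dl S M l μ := by
  refine ⟨?_, ?_⟩
  · intro w hw
    rcases Finset.mem_insert.mp hw with rfl | h
    · exact hM
    · exact hF.1 w h
  · rw [Finset.sum_insert hv]
    have : μ - (v + ∑ w ∈ F, w) = μ - v - ∑ w ∈ F, w := by abel
    rw [this]
    exact hF.2

lemma con_Ca {μ : G} {c : Ch K G} (hc : c ∈ Ca S M l K μ) (v : G) :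
    con K v c ∈ Ca S M l K (μ - v) := by
  apply map_mem _ _ hc
  intro F hF
  rw [con_e]
  split_ifs with h
  · exact Submodule.smul_mem _ _ (e_mem K (Dl_erase hF h))
  · exact Submodule.zero_mem _

lemma con_Cc {p : ℕ} {μ : G} {c : Ch K G} (hc : c ∈ Cc S M l K (p + 1) μ) (v : G) :
    con K v c ∈ Cc S M l K p (μ - v) := by
  apply map_mem _ _ hc
  intro F hF
  rw [con_e]
  split_ifs with h
  · refine Submodule.smul_mem _ _ (e_mem K ⟨?_, Dl_erase hF.2 h⟩)
    rw [Finset.card_erase_of_mem h, hF.1]; rfl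
  · exact Submodule.zero_mem _

lemma con_Cc_zero {μ : G} {c : Ch K G} (hc : c ∈ Cc S M l K 0 μ) (v : G) : con K v c = 0 := by
  have : con K v c ∈ (⊥ : Submodule K (Ch K G)) := by
    apply map_mem _ _ hc
    intro F hF
    have : F = ∅ := Finset.card_eq_zero.mp hF.1
    subst this
    rw [con_e_not K (by simp)]
    exact Submodule.zero_mem _
  simpa using this

lemma wed_Ca {μ : G} {v : G} (hv : v ∈ Mon S l) {c : Ch K G} (hc : c ∈ Ca S M l K (μ - v)) :
    wed K v c ∈ Ca S M l K μ := by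
  apply map_mem _ _ hc
  intro F hF
  rw [wed_e]
  split_ifs with h
  · exact Submodule.zero_mem _
  · exact Submodule.smul_mem _ _ (e_mem K (Dl_insert hF hv h))

lemma wed_Cc {p : ℕ} {μ : G} {v : G} (hv : v ∈ Mon S l) {c : Ch K G}
    (hc : c ∈ Cc S M l K p (μ - v)) : wed K v c ∈ Cc S M l K (p + 1) μ := by
  apply map_mem _ _ hc
  intro F hF
  rw [wed_e]
  split_ifs with h
  · exact Submodule.zero_mem _
  · refine Submodule.smul_mem _ _ (e_mem K ⟨?_, Dl_insert hF.2 hv h⟩)
    rw [Finset.card_insert_of_notMem h, hF.1]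

lemma bd_Ca (hS : IsPair S M f) {μ : G} {c : Ch K G} (hc : c ∈ Ca S M l K μ) :
    bd K c ∈ Ca S M l K μ := by
  apply map_mem _ _ hc
  intro F hF
  rw [bd_e]
  apply Submodule.sum_mem
  intro v hv
  rw [con_e_mem K hv]
  exact Submodule.smul_mem _ _ (e_mem K (Dl_erase' hS hF hv))

lemma bd_Cc (hS : IsPair S M f) {p : ℕ} {μ : G} {c : Ch K G} (hc : c ∈ Cc S M l K (p + 1) μ) :
    bd K c ∈ Cc S M l K p μ := by
  apply map_mem _ _ hc
  intro F hF
  rw [bd_e]
  apply Submodule.sum_mem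
  intro v hv
  rw [con_e_mem K hv]
  refine Submodule.smul_mem _ _ (e_mem K ⟨?_, Dl_erase' hS hF.2 hv⟩)
  rw [Finset.card_erase_of_mem hv, hF.1]; rfl

lemma Dl_nonneg (hS : IsPair S M f) {μ : G} {F : Finset G} (hF : F ∈ Dl S M l μ) (i : ℕ) :
    0 ≤ co i μ := by
  have h1 := hF.2.2 i
  rw [map_sub, map_sum] at h1
  have h2 : 0 ≤ ∑ v ∈ F, co i v := Finset.sum_nonneg (fun v hv => (hF.1 v hv).1.2 i)
  linarith

lemma Cc_bot_of_neg (hS : IsPair S M f) {p : ℕ} {μ : G} {i : ℕ} (h : co i μ < 0) {c : Ch K G}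
    (hc : c ∈ Cc S M l K p μ) : c = 0 := by
  have : (LinearMap.id : Ch K G →ₗ[K] Ch K G) c ∈ (⊥ : Submodule K (Ch K G)) := by
    apply map_mem _ _ hc
    intro F hF
    have := Dl_nonneg hS hF.2 i
    omega
  simpa using this

lemma Ca_bot_of_neg (hS : IsPair S M f) {μ : G} {i : ℕ} (h : co i μ < 0) {c : Ch K G}
    (hc : c ∈ Ca S M l K μ) : c = 0 := by
  have : (LinearMap.id : Ch K G →ₗ[K] Ch K G) c ∈ (⊥ : Submodule K (Ch K G)) := by
    apply map_mem _ _ hc
    intro F hF
    have := Dl_nonneg hS hF i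
    omega
  simpa using this

lemma co_zero {μ : G} {F : Finset G} (hF : F ∈ Dl S M l μ) {a : ℕ} (ha : co a μ = 0) {v : G}
    (hv : v ∈ F) : co a v = 0 := by
  have h1 := hF.2.2 a
  rw [map_sub, map_sum, ha] at h1
  have h2 : co a v ≤ ∑ w ∈ F, co a w :=
    Finset.single_le_sum (f := fun w => co a w) (fun w hw => (hF.1 w hw).1.2 a) hv
  have h3 := (hF.1 v hv).1.2 a
  omega

/-! ### the operators `x ∂/∂a` -/

/-- replace one `a` by one `x` -/
noncomputable def tau (a x : ℕ) (v : G) : G := v + ep x - ep a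

variable (K) in
/-- the exponent of `x_a` as a scalar -/
noncomputable def cf (a : ℕ) (v : G) : K := ((co a v : ℤ) : K)

variable (K) in
/-- the operator `x ∂/∂a` -/
noncomputable def EE (a x : ℕ) (m : ℤ) : Ch K G →ₗ[K] Ch K G :=
  Op K (tau a x) (cf K a) + ((m : K) • LinearMap.id - Op K id (cf K a))

lemma EE_bd (a x : ℕ) (m : ℤ) (c : Ch K G) : bd K (EE K a x m c) = EE K a x m (bd K c) := by
  have h := bd_Op K (tau a x) id (cf K a) c
  simp only [EE, LinearMap.add_apply, LinearMap.sub_apply, LinearMap.smul_apply,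
    LinearMap.id_apply, map_add, map_sub, map_smul]
  have h2 : bd K (Op K (tau a x) (cf K a) c) = Op K (tau a x) (cf K a) (bd K c)
      + (bd K (Op K id (cf K a) c) - Op K id (cf K a) (bd K c)) := by
    rw [← h]; abel
  rw [h2]; abel

lemma EE_e (a x : ℕ) (m : ℤ) (F : Finset G) : EE K a x m (e K F) =
    ∑ v ∈ F, cf K a v • wed K (tau a x v) (con K v (e K F)) +
      (((m - co a (∑ v ∈ F, v) : ℤ) : K)) • e K F := by
  simp only [EE, LinearMap.add_apply, LinearMap.sub_apply, LinearMap.smul_apply,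
    LinearMap.id_apply]
  rw [Op_e, Op_id_e, ← sub_smul]
  congr 2
  rw [map_sum]
  push_cast
  rfl

lemma EE_mem {a x : ℕ} (ha : 1 ≤ a) (hx : 1 ≤ x) {p : ℕ} {μ : G} {c : Ch K G}
    (hc : c ∈ Cc S M l K p μ) : EE K a x (co a μ) c ∈ Cc S M l K p (μ + ep x - ep a) := by
  apply map_mem _ _ hc
  intro F hF
  rw [EE_e]
  apply Submodule.add_mem
  · apply Submodule.sum_mem
    intro v hv
    by_cases h0 : co a v = 0
    · simp [cf, h0]
    · have h1 : 1 ≤ co a v := by have := (hF.2.1 v hv).1.2 a; omega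
      apply Submodule.smul_mem
      rw [con_e_mem K hv, map_smul]
      apply Submodule.smul_mem
      rw [wed_e]
      split_ifs with h2
      · exact Submodule.zero_mem _
      · apply Submodule.smul_mem
        apply e_mem
        refine ⟨?_, ?_⟩
        · rw [Finset.card_insert_of_notMem h2, Finset.card_erase_of_mem hv]
          have h6 : 0 < F.card := Finset.card_pos.mpr ⟨v, hv⟩
          have h7 := hF.1
          omega
        · apply Dl_insert _ _ h2
          · have h3 := Dl_erase hF.2 hv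
            have h4 : μ + ep x - ep a - tau a x v = μ - v := by unfold tau; abel
            rw [h4]; exact h3
          · refine ⟨⟨?_, fun i => ?_⟩, ?_⟩
            · unfold tau
              rw [map_sub, map_add, co_ep_ne (by omega), co_ep_ne (by omega)]
              simpa using (hF.2.1 v hv).1.1
            · unfold tau
              rw [map_sub, map_add]
              have h5 := (hF.2.1 v hv).1.2 i
              rw [co_ep, co_ep]
              by_cases hi : a = i
              · subst hi; split_ifs <;> omega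
              · rw [if_neg hi]; split_ifs <;> omega
            · unfold tau
              rw [map_sub, map_add, dg_ep, dg_ep, (hF.2.1 v hv).2]; ring
  · by_cases h0 : co a μ - co a (∑ v ∈ F, v) = 0
    · rw [h0]; simp
    · apply Submodule.smul_mem
      apply e_mem
      refine ⟨hF.1, hF.2.1, ?_⟩
      have h1 := hF.2.2
      have h2 : 1 ≤ co a (μ - ∑ v ∈ F, v) := by
        have h5 := h1.2 a
        rw [map_sub] at h5 ⊢
        omega
      have h3 : μ + ep x - ep a - ∑ v ∈ F, v = (μ - ∑ v ∈ F, v - ep a) + ep x := by abel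
      rw [h3]
      have h4 := sub_ep_mem ha h1 h2
      refine ⟨?_, fun i => ?_⟩
      · rw [map_add, co_ep_ne (by omega), add_zero]; exact h4.1
      · rw [map_add, co_ep]
        have := h4.2 i
        split_ifs <;> omega

lemma EE_triv {a : ℕ} (x : ℕ) (m : ℤ) {p : ℕ} {κ : G} (hκ : co a κ = 0) {c : Ch K G}
    (hc : c ∈ Cc S M l K p κ) : EE K a x m c = (m : K) • c := by
  have := map_eq (EE K a x m) ((m : K) • LinearMap.id) (A := Dp S M l p κ) ?_ hc
  · rw [this]; simp
  · intro F hF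
    have h0 : ∀ v ∈ F, co a v = 0 := fun v hv => co_zero hF.2 hκ hv
    rw [EE_e]
    rw [Finset.sum_eq_zero (fun v hv => by simp [cf, h0 v hv]), map_sum,
      Finset.sum_eq_zero h0]
    simp

lemma EF {a x : ℕ} (hax : a ≠ x) {p : ℕ} {μ : G} (hμ : co a μ = 0) {c : Ch K G}
    (hc : c ∈ Cc S M l K p μ) : EE K a x 1 (EE K x a (co x μ) c) = ((co x μ : ℤ) : K) • c := by
  have := map_eq ((EE K a x 1) ∘ₗ (EE K x a (co x μ))) (((co x μ : ℤ) : K) • LinearMap.id)
    (A := Dp S M l p μ) ?_ hc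
  · simpa using this
  · intro F hF
    have h0 : ∀ v ∈ F, co a v = 0 := fun v hv => co_zero hF.2 hμ hv
    have hF1 : EE K a x 1 (e K F) = e K F := by
      rw [EE_triv x 1 hμ (e_mem K hF)]; simp
    have key : ∀ v ∈ F, EE K a x 1 (wed K (tau x a v) (con K v (e K F))) = e K F := by
      intro v hv
      set v' := tau x a v with hv'
      have hv'a : co a v' = 1 := by
        rw [hv', tau, map_sub, map_add, h0 v hv, co_ep_self, co_ep_ne (Ne.symm hax)]; norm_num
      have hv'F : v' ∉ F := fun h => by have := h0 v' h; omega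
      have hv'E : v' ∉ F.erase v := fun h => hv'F (Finset.mem_of_mem_erase h)
      have hback : tau a x v' = v := by rw [hv']; unfold tau; abel
      rw [con_e_mem K hv, map_smul, wed_e_not K hv'E, map_smul, map_smul, EE_e]
      have hs : co a (∑ w ∈ insert v' (F.erase v), w) = 1 := by
        rw [Finset.sum_insert hv'E, map_add, hv'a, map_sum,
          Finset.sum_eq_zero (fun w hw => h0 w (Finset.mem_of_mem_erase hw))]; norm_num
      rw [hs]
      simp only [sub_self, Int.cast_zero, zero_smul, add_zero]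
      rw [Finset.sum_insert hv'E, Finset.sum_eq_zero (s := F.erase v)
        (fun w hw => by simp [cf, h0 w (Finset.mem_of_mem_erase hw)]), add_zero]
      have : cf K a v' = 1 := by simp [cf, hv'a]
      rw [this, one_smul, con_e_mem K (by simp), map_smul, Finset.erase_insert hv'E, hback,
        wed_e_not K (by simp), Finset.insert_erase hv, sg_self, sg_insert_self]
      simp only [smul_smul]
      have h1 := sg_sq K v F
      have h2 := sg_sq K v' (F.erase v)
      have h3 : sg K v F * (sg K v' (F.erase v) * (sg K v' (F.erase v) * sg K v F)) =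
        (sg K v F * sg K v F) * (sg K v' (F.erase v) * sg K v' (F.erase v)) := by ring
      rw [h3, h1, h2]; simp
    simp only [LinearMap.comp_apply, LinearMap.smul_apply, LinearMap.id_apply]
    rw [EE_e, map_add, map_sum, map_smul, hF1]
    rw [Finset.sum_congr rfl (fun v hv => by rw [map_smul, key v hv]), ← Finset.sum_smul,
      ← add_smul]
    congr 1
    rw [map_sum]
    unfold cf
    push_cast
    ring

end Pool.Agent.Helper40.MukN
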