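import Pool.Agent.Helper40.MukN.Red2
import Pool.Agent.Helper40.MukN.Dual

/-!
# The case of one variable and the exactness theorem for `K[S][x_1, x_2, ...]`
-/

namespace Pool.Agent.Helper40.MukN

open Finset

variable {S M : Set ℤ} {l f : ℤ} {K : Type*} [Field K]

lemma IsPair.big (hS : IsPair S M f) {w : ℤ} (hw : f < w) : w ∈ S := by
  have h := hS.dual (f - w) (fun h => by have := hS.nonnegM _ h; omega)
  have h2 : f - (f - w) = w := by ring
  rwa [h2] at h

lemma IsPair.neg_one_le (hS : IsPair S M f) : -1 ≤ f := by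
  have h := hS.dual (-1) (fun h => by have := hS.nonnegM _ h; omega)
  have := hS.nonneg _ h
  omega

lemma dg_two' (v : ℕ →₀ ℤ) (h : ∀ i, 2 ≤ i → v i = 0) :
    Finsupp.liftAddHom (fun _ : ℕ => AddMonoidHom.id ℤ) v = v 0 + v 1 := by
  rw [Finsupp.liftAddHom_apply, Finsupp.sum_of_support_subset (s := {0, 1}) v]
  · rw [Finset.sum_insert (by simp), Finset.sum_singleton]; rfl
  · intro i hi
    rw [Finsupp.mem_support_iff] at hi
    by_contra h2
    simp only [Finset.mem_insert, Finset.mem_singleton, not_or] at h2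
    exact hi (h i (by omega))
  · intro i _; simp

lemma dg_two (v : G) (h : ∀ i, 2 ≤ i → co i v = 0) : dg v = co 0 v + co 1 v := dg_two' v h

/-- the monomial `t^s x^(l-s)` -/
noncomputable def vv (l s : ℤ) : G := s • ep 0 + (l - s) • ep 1

lemma co0_vv (l s : ℤ) : co 0 (vv l s) = s := by
  unfold vv
  rw [map_add, map_zsmul, map_zsmul, co_ep_self, co_ep_ne (by omega)]; simp

lemma co1_vv (l s : ℤ) : co 1 (vv l s) = l - s := by
  unfold vv
  rw [map_add, map_zsmul, map_zsmul, co_ep_self, co_ep_ne (by omega)]; simp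

lemma coi_vv (l s : ℤ) {i : ℕ} (hi : 2 ≤ i) : co i (vv l s) = 0 := by
  unfold vv
  rw [map_add, map_zsmul, map_zsmul, co_ep_ne (by omega), co_ep_ne (by omega)]; simp

lemma dg_vv (l s : ℤ) : dg (vv l s) = l := by
  rw [dg_two _ (fun i hi => coi_vv l s hi), co0_vv, co1_vv]; ring

lemma vv_mem (hS : IsPair S M f) {s : ℤ} (hs : s ∈ S) (hsl : s ≤ l) : vv l s ∈ Mon S l := by
  refine ⟨⟨by rw [co0_vv]; exact hs, fun i => ?_⟩, dg_vv l s⟩
  rcases Nat.lt_or_ge i 2 with h | h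
  · interval_cases i
    · rw [co0_vv]; exact hS.nonneg _ hs
    · rw [co1_vv]; omega
  · rw [coi_vv l s h]

open Classical in
variable (S) in
/-- the elements of `S` in `[0, l]` -/
noncomputable def Sl (l : ℤ) : Finset ℤ := (Finset.Icc 0 l).filter (fun s => s ∈ S)

variable (S) in
/-- the monomials of degree `l` in `t` and one variable -/
noncomputable def II (l : ℤ) : Finset G := (Sl S l).image (vv l)

lemma mem_Sl {s : ℤ} : s ∈ Sl S l ↔ (0 ≤ s ∧ s ≤ l) ∧ s ∈ S := by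
  simp [Sl, Finset.mem_filter, Finset.mem_Icc]

lemma mem_II (hS : IsPair S M f) {v : G} :
    v ∈ II S l ↔ v ∈ Mon S l ∧ ∀ i, 2 ≤ i → co i v = 0 := by
  unfold II
  rw [Finset.mem_image]
  constructor
  · rintro ⟨s, hs, rfl⟩
    rw [mem_Sl] at hs
    exact ⟨vv_mem hS hs.2 hs.1.2, fun i hi => coi_vv l s hi⟩
  · rintro ⟨h1, h2⟩
    have h3 := dg_two v h2
    rw [h1.2] at h3
    have h4 := h1.1.2 1
    refine ⟨co 0 v, mem_Sl.mpr ⟨⟨h1.1.2 0, by omega⟩, h1.1.1⟩, ?_⟩
    apply G_ext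
    intro i
    rcases Nat.lt_or_ge i 2 with h | h
    · interval_cases i
      · rw [co0_vv]
      · rw [co1_vv]; omega
    · rw [coi_vv _ _ h, h2 i h]

lemma II_inj : Set.InjOn (fun v : G => co 0 v) (II S l) := by
  intro v hv w hw h
  unfold II at hv hw
  rw [Finset.coe_image] at hv hw
  obtain ⟨s, _, rfl⟩ := hv
  obtain ⟨t, _, rfl⟩ := hw
  simp only [co0_vv] at h
  rw [h]

lemma card_II : (II S l).card = (Sl S l).card := by
  unfold II
  apply Finset.card_image_of_injOn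
  intro s _ t _ h
  have := congrArg (co 0) h
  rwa [co0_vv, co0_vv] at this

lemma card_Sl (hS : IsPair S M f) {p : ℕ} (hp : (p : ℤ) ≤ l - f - 2) :
    (Sl S l).card = (Sl S (l - p - 2)).card + (p + 2) := by
  have h1 : Sl S l = Sl S (l - p - 2) ∪ Finset.Icc (l - p - 1) l := by
    ext s
    rw [Finset.mem_union, mem_Sl, mem_Sl, Finset.mem_Icc]
    have hf := hS.neg_one_le
    constructor
    · rintro ⟨⟨h1, h2⟩, h3⟩
      by_cases h : s ≤ l - p - 2
      · exact Or.inl ⟨⟨h1, h⟩, h3⟩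
      · exact Or.inr ⟨by omega, h2⟩
    · rintro (⟨⟨h1, h2⟩, h3⟩ | ⟨h1, h2⟩)
      · exact ⟨⟨h1, by omega⟩, h3⟩
      · exact ⟨⟨by omega, h2⟩, hS.big (by omega)⟩
  rw [h1, Finset.card_union_of_disjoint]
  · congr 1
    rw [Int.card_Icc]
    omega
  · rw [Finset.disjoint_left]
    intro s hs hs2
    rw [mem_Sl] at hs
    rw [Finset.mem_Icc] at hs2
    omega

/-- the value `h(Q)` -/
noncomputable def hh (μ : G) (Q : Finset G) : ℤ := co 0 μ - ∑ v ∈ Q, co 0 v

lemma Dp_iff (hS : IsPair S M f) {p : ℕ} {μ : G} (hμ : ∀ i, 2 ≤ i → co i μ = 0) (Q : Finset G) :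
    Q ∈ Dp S M l p μ ↔ Q ⊆ II S l ∧ Q.card = p ∧ hh μ Q ∈ M ∧ hh μ Q ≤ dg μ - p * l := by
  have hdg : ∀ Q : Finset G, Q ⊆ II S l → dg (μ - ∑ v ∈ Q, v) = dg μ - Q.card * l := by
    intro Q hQ
    rw [map_sub, map_sum, Finset.sum_congr rfl (fun v hv => ((mem_II hS).mp (hQ hv)).1.2)]
    simp
  have hco : ∀ Q : Finset G, Q ⊆ II S l → ∀ i, 2 ≤ i → co i (μ - ∑ v ∈ Q, v) = 0 := by
    intro Q hQ i hi
    rw [map_sub, map_sum, hμ i hi,
      Finset.sum_eq_zero (fun v hv => ((mem_II hS).mp (hQ hv)).2 i hi)]; norm_num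
  have hh0 : ∀ Q : Finset G, co 0 (μ - ∑ v ∈ Q, v) = hh μ Q := by
    intro Q
    rw [map_sub, map_sum]; rfl
  constructor
  · rintro ⟨h1, h2⟩
    have hQ : Q ⊆ II S l := by
      intro v hv
      rw [mem_II hS]
      exact ⟨h2.1 v hv, fun i hi => co_zero h2 (hμ i hi) hv⟩
    refine ⟨hQ, h1, ?_, ?_⟩
    · rw [← hh0]; exact h2.2.1
    · have h3 := dg_two _ (hco Q hQ)
      rw [hdg Q hQ, hh0, h1] at h3
      have h4 := h2.2.2 1
      omega
  · rintro ⟨hQ, h1, h2, h3⟩
    refine ⟨h1, fun v hv => ((mem_II hS).mp (hQ hv)).1, ?_, fun i => ?_⟩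
    · rw [hh0]; exact h2
    · rcases Nat.lt_or_ge i 2 with h | h
      · interval_cases i
        · rw [hh0]; exact hS.nonnegM _ h2
        · have h4 := dg_two _ (hco Q hQ)
          rw [hdg Q hQ, hh0, h1] at h4
          omega
      · rw [hco Q hQ i h]

/-- the case of one variable -/
lemma one_var [CharZero K] (hS : IsPair S M f) {p : ℕ} (hp : (p : ℤ) ≤ l - f - 2) (μ : G)
    (hμ : tt l f p ≤ dg μ) (hμ2 : ∀ i, 2 ≤ i → co i μ = 0) : EX S M l K p μ := by
  intro z hz hz0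
  have hf := hS.neg_one_le
  have hl : 1 ≤ l := by omega
  set I := II S l with hI
  have hcard : (Sl S (l - p - 2)).card + (p + 2) = I.card := by
    rw [hI, card_II, card_Sl hS hp]
  -- the two cones
  let X : ℕ → Set (Finset G) := fun j => {Q | Q ⊆ I ∧ Q.card = j ∧ hh μ Q ∈ M}
  let T : ℕ → Set (Finset G) := fun j => {Q | Q ⊆ I ∧ Q.card = j ∧ hh μ Q ≤ dg μ - j * l}
  have hval : ∀ v ∈ I, co 0 v ∈ S ∧ 0 ≤ co 0 v ∧ co 0 v ≤ l := by
    intro v hv
    rw [hI, mem_II hS] at hv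
    have h1 := dg_two v hv.2
    rw [hv.1.2] at h1
    have h2 := hv.1.1.2 1
    exact ⟨hv.1.1.1, hv.1.1.2 0, by omega⟩
  have hherase : ∀ Q : Finset G, ∀ v ∈ Q, hh μ (Q.erase v) = hh μ Q + co 0 v := by
    intro Q v hv
    unfold hh
    rw [← Finset.add_sum_erase Q (fun v => co 0 v) hv]; ring
  have hhinsert : ∀ Q : Finset G, ∀ v ∉ Q, hh μ (insert v Q) = hh μ Q - co 0 v := by
    intro Q v hv
    unfold hh
    rw [Finset.sum_insert hv]; ring
  have bdX : ∀ j, ∀ c ∈ Finsupp.supported K K (X (j + 1)), bd K c ∈ Finsupp.supported K K (X j) := by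
    intro j c hc
    apply map_mem _ _ hc
    rintro Q ⟨h1, h2, h3⟩
    rw [bd_e]
    apply Submodule.sum_mem
    intro v hv
    rw [con_e_mem K hv]
    refine Submodule.smul_mem _ _ (e_mem K ⟨(Finset.erase_subset _ _).trans h1, ?_, ?_⟩)
    · rw [Finset.card_erase_of_mem hv, h2]; rfl
    · rw [hherase Q v hv, add_comm]; exact hS.addM _ _ (hval v (h1 hv)).1 h3
  have bdT : ∀ j, ∀ c ∈ Finsupp.supported K K (T (j + 1)), bd K c ∈ Finsupp.supported K K (T j) := by
    intro j c hc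
    apply map_mem _ _ hc
    rintro Q ⟨h1, h2, h3⟩
    rw [bd_e]
    apply Submodule.sum_mem
    intro v hv
    rw [con_e_mem K hv]
    refine Submodule.smul_mem _ _ (e_mem K ⟨(Finset.erase_subset _ _).trans h1, ?_, ?_⟩)
    · rw [Finset.card_erase_of_mem hv, h2]; rfl
    · rw [hherase Q v hv]
      have h4 := (hval v (h1 hv)).2.2
      push_cast at h3
      linarith
  have v0I : vv l 0 ∈ I := by
    rw [hI, mem_II hS]; exact ⟨vv_mem hS hS.zero (by omega), fun i hi => coi_vv _ _ hi⟩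
  have vlI : vv l l ∈ I := by
    rw [hI, mem_II hS]; exact ⟨vv_mem hS (hS.big (by omega)) le_rfl, fun i hi => coi_vv _ _ hi⟩
  have hzX : z ∈ Finsupp.supported K K (X p) :=
    Finsupp.supported_mono (fun Q hQ => by
      obtain ⟨h1, h2, h3, _⟩ := (Dp_iff hS hμ2 Q).mp hQ
      exact ⟨h1, h2, h3⟩) hz
  have hzT : z ∈ Finsupp.supported K K (T p) :=
    Finsupp.supported_mono (fun Q hQ => by
      obtain ⟨h1, h2, _, h3⟩ := (Dp_iff hS hμ2 Q).mp hQ
      exact ⟨h1, h2, h3⟩) hz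
  set ax := wed K (vv l 0) z with hax
  set aT := wed K (vv l l) z with haT
  have haxX : ax ∈ Finsupp.supported K K (X (p + 1)) := by
    apply map_mem _ _ hzX
    rintro Q ⟨h1, h2, h3⟩
    rw [wed_e]
    split_ifs with h
    · exact Submodule.zero_mem _
    · refine Submodule.smul_mem _ _ (e_mem K ⟨Finset.insert_subset v0I h1, ?_, ?_⟩)
      · rw [Finset.card_insert_of_notMem h, h2]
      · rw [hhinsert Q _ h, co0_vv, sub_zero]; exact h3
  have haTT : aT ∈ Finsupp.supported K K (T (p + 1)) := by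
    apply map_mem _ _ hzT
    rintro Q ⟨h1, h2, h3⟩
    rw [wed_e]
    split_ifs with h
    · exact Submodule.zero_mem _
    · refine Submodule.smul_mem _ _ (e_mem K ⟨Finset.insert_subset vlI h1, ?_, ?_⟩)
      · rw [Finset.card_insert_of_notMem h, h2]
      · rw [hhinsert Q _ h, co0_vv]; push_cast; linarith
  have hbax : bd K ax = z := by rw [hax, bd_wed, hz0, map_zero, sub_zero]
  have hbaT : bd K aT = z := by rw [haT, bd_wed, hz0, map_zero, sub_zero]
  set b := wed K (vv l 0) (ax - aT) with hb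
  have hbb : bd K b = ax - aT := by
    rw [hb, bd_wed, map_sub, hbax, hbaT, sub_self, map_zero, sub_zero]
  have hbI : b ∈ Finsupp.supported K K {Q | Q ⊆ I ∧ Q.card = p + 2} := by
    have h1 : ax - aT ∈ Finsupp.supported K K {Q | Q ⊆ I ∧ Q.card = p + 1} := by
      apply Submodule.sub_mem
      · have h2 : X (p + 1) ⊆ {Q | Q ⊆ I ∧ Q.card = p + 1} := fun Q hQ => ⟨hQ.1, hQ.2.1⟩
        exact Finsupp.supported_mono h2 haxX
      · have h2 : T (p + 1) ⊆ {Q | Q ⊆ I ∧ Q.card = p + 1} := fun Q hQ => ⟨hQ.1, hQ.2.1⟩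
        exact Finsupp.supported_mono h2 haTT
    apply map_mem _ _ h1
    rintro Q ⟨h2, h3⟩
    rw [wed_e]
    split_ifs with h
    · exact Submodule.zero_mem _
    · refine Submodule.smul_mem _ _ (e_mem K ⟨Finset.insert_subset v0I h2, ?_⟩)
      rw [Finset.card_insert_of_notMem h, h3]
  -- the bad faces
  let U : Set (Finset G) := {Q | Q ⊆ I ∧ Q.card = p + 2 ∧ hh μ Q ∉ M ∧ dg μ - (p + 2) * l < hh μ Q}
  obtain ⟨c, hc, hcU⟩ := lemG' (K := K) (fun v : G => co 0 v) I II_inj (p + 2) (by omega)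
    (Sl S (l - p - 2)) (by omega) U (fun Q hQ => ⟨hQ.1, hQ.2.1⟩) (f - co 0 μ) (by
      rintro Q ⟨h1, h2, h3, h4⟩
      have h5 : f - co 0 μ + ∑ v ∈ Q, co 0 v = f - hh μ Q := by unfold hh; ring
      rw [h5, mem_Sl]
      have h6 := hS.dual (hh μ Q) h3
      refine ⟨⟨hS.nonneg _ h6, ?_⟩, h6⟩
      unfold tt at hμ
      have h7 : (p + 1 : ℤ) * (l + 1) + f - (p + 2) * l = p + 1 + f - l := by ring
      have h8 : dg μ - (p + 2) * l ≥ p + 1 + f - l := by linarith
      omega) b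
  set b' := b - bd K c with hb'
  have hb'I : b' ∈ Finsupp.supported K K {Q | Q ⊆ I ∧ Q.card = p + 2} := by
    apply Submodule.sub_mem _ hbI
    apply map_mem _ _ hc
    rintro Q ⟨h2, h3⟩
    rw [bd_e]
    apply Submodule.sum_mem
    intro v hv
    rw [con_e_mem K hv]
    refine Submodule.smul_mem _ _ (e_mem K ⟨(Finset.erase_subset _ _).trans h2, ?_⟩)
    rw [Finset.card_erase_of_mem hv, h3]; rfl
  have hbb' : bd K b' = ax - aT := by rw [hb', map_sub, bd_bd, sub_zero, hbb]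
  classical
  set bx : Ch K G := b'.filter (fun Q => hh μ Q ∈ M) with hbx
  set bT : Ch K G := b'.filter (fun Q => ¬ hh μ Q ∈ M) with hbT
  have hsplit : bx + bT = b' := Finsupp.filter_add_filter_not b' _
  have hbxX : bx ∈ Finsupp.supported K K (X (p + 2)) := by
    rw [Finsupp.mem_supported] at hb'I ⊢
    intro Q hQ
    rw [hbx, Finset.mem_coe, Finsupp.support_filter, Finset.mem_filter] at hQ
    obtain ⟨h1, h2⟩ := hb'I (Finset.mem_coe.mpr hQ.1)
    exact ⟨h1, h2, hQ.2⟩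
  have hbTT : bT ∈ Finsupp.supported K K (T (p + 2)) := by
    rw [Finsupp.mem_supported] at hb'I ⊢
    intro Q hQ
    rw [hbT, Finset.mem_coe, Finsupp.support_filter, Finset.mem_filter] at hQ
    obtain ⟨h1, h2⟩ := hb'I (Finset.mem_coe.mpr hQ.1)
    refine ⟨h1, h2, ?_⟩
    by_contra h3
    have h4 : Q ∈ U := ⟨h1, h2, hQ.2, by push_cast at h3; linarith⟩
    exact (Finsupp.mem_support_iff.mp hQ.1) (hcU Q h4)
  have hY : ax - bd K bx = aT + bd K bT := by
    have h1 : bd K bx + bd K bT = ax - aT := by rw [← map_add, hsplit, hbb']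
    have h2 : ax = bd K bx + bd K bT + aT := by rw [h1]; abel
    rw [h2]; abel
  refine ⟨ax - bd K bx, ?_, ?_⟩
  · have h1 : ax - bd K bx ∈ Finsupp.supported K K (X (p + 1)) :=
      Submodule.sub_mem _ haxX (bdX (p + 1) bx hbxX)
    have h2 : ax - bd K bx ∈ Finsupp.supported K K (T (p + 1)) := by
      rw [hY]; exact Submodule.add_mem _ haTT (bdT (p + 1) bT hbTT)
    rw [Cc]
    rw [Finsupp.mem_supported] at h1 h2 ⊢
    intro Q hQ
    obtain ⟨h3, h4, h5⟩ := h1 hQ
    obtain ⟨_, _, h6⟩ := h2 hQ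
    exact (Dp_iff hS hμ2 Q).mpr ⟨h3, h4, h5, h6⟩
  · rw [map_sub, hbax, bd_bd, sub_zero]

/-- **Exactness for the monomial algebra.** -/
theorem exact_mono [CharZero K] (hS : IsPair S M f) (p : ℕ) (hp : (p : ℤ) ≤ l - f - 2) (μ : G)
    (hμ : tt l f p ≤ dg μ) : EX S M l K p μ := by
  have main : ∀ p : ℕ, (p : ℤ) ≤ l - f - 2 → PP S M l f K p := by
    intro p
    induction p using Nat.strong_induction_on with
    | _ p ih =>
      intro hp
      apply reduce hS p (fun q hq => ih q hq (by omega))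
      intro μ hμ _ h2
      exact one_var hS hp μ hμ h2
  exact main p hp μ hμ

end Pool.Agent.Helper40.MukN
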