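import Pool.Agent.Helper40.MukN.Mono

/-!
# Reduction of the exactness to one variable
-/

namespace Pool.Agent.Helper40.MukN

open Finset

variable {S M : Set ℤ} {l f : ℤ} {K : Type*} [Field K]

variable (S M l K) in
/-- exactness at `C_p` in multidegree `μ` -/
def EX (p : ℕ) (μ : G) : Prop :=
  ∀ c ∈ Cc S M l K p μ, bd K c = 0 → ∃ b ∈ Cc S M l K (p + 1) μ, bd K b = c

variable (S M l K) in
/-- the relative statement -/
def BB (p : ℕ) (μ : G) (x : ℕ) : Prop :=
  ∀ c ∈ Cc S M l K p μ, bd K c ∈ Ca S M l K (μ - ep x) →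
    ∃ b ∈ Cc S M l K (p + 1) μ, c - bd K b ∈ Ca S M l K (μ - ep x)

/-- the bound for the degree -/
def tt (l f : ℤ) (p : ℕ) : ℤ := (p + 1) * (l + 1) + f

lemma tt_succ (p : ℕ) : tt l f (p + 1) = tt l f p + l + 1 := by
  unfold tt; push_cast; ring

variable (S M l f K) in
def PP (p : ℕ) : Prop := ∀ μ : G, tt l f p ≤ dg μ → EX S M l K p μ

lemma num_mem {x : ℕ} (hx : 1 ≤ x) {μ : G} {c : Ch K G} (hc : c ∈ Ca S M l K μ) :
    ((co x μ : ℤ) : K) • c - Op K id (cf K x) c ∈ Ca S M l K (μ - ep x) := by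
  have : (((co x μ : ℤ) : K) • (LinearMap.id : Ch K G →ₗ[K] Ch K G) - Op K id (cf K x)) c ∈
      Ca S M l K (μ - ep x) := by
    apply map_mem _ _ hc
    intro F hF
    simp only [LinearMap.sub_apply, LinearMap.smul_apply, LinearMap.id_apply]
    rw [Op_id_e, ← sub_smul]
    by_cases h0 : co x μ - co x (∑ v ∈ F, v) = 0
    · have : ((co x μ : ℤ) : K) - ∑ v ∈ F, cf K x v = 0 := by
        unfold cf
        rw [map_sum] at h0
        exact_mod_cast congrArg (Int.cast (R := K)) h0
      rw [this, zero_smul]; exact Submodule.zero_mem _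
    · apply Submodule.smul_mem
      apply e_mem
      refine ⟨hF.1, ?_⟩
      have h1 := hF.2
      have h2 : 1 ≤ co x (μ - ∑ v ∈ F, v) := by
        have h3 := h1.2 x
        rw [map_sub] at h3 ⊢
        omega
      have h3 : μ - ep x - ∑ v ∈ F, v = μ - ∑ v ∈ F, v - ep x := by abel
      rw [h3]
      exact sub_ep_mem hx h1 h2
  simpa using this

lemma supp_Mon {p : ℕ} {μ : G} {c : Ch K G} (hc : c ∈ Cc S M l K p μ) :
    ∃ A : Finset G, (∀ v ∈ A, v ∈ Mon S l) ∧ c ∈ Finsupp.supported K K {F | F ⊆ A} := by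
  classical
  refine ⟨c.support.sup id, ?_, ?_⟩
  · intro v hv
    rw [Finset.mem_sup] at hv
    obtain ⟨F, hF, hvF⟩ := hv
    rw [Cc, Finsupp.mem_supported] at hc
    exact (hc (Finset.mem_coe.mpr hF)).2.1 v hvF
  · rw [Finsupp.mem_supported]
    intro F hF
    exact Finset.le_sup (f := id) (Finset.mem_coe.mp hF)

lemma BB_step [CharZero K] (hS : IsPair S M f) {p : ℕ} {μ : G} {x : ℕ} (hx : 1 ≤ x)
    (h1 : 1 ≤ co x μ)
    (hB : ∀ q, p = q + 1 → ∀ v ∈ Mon S l, 1 ≤ co x v → BB S M l K q (μ - v) x) :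
    BB S M l K p μ x := by
  intro c hc hbc
  obtain ⟨A, hAM, hA⟩ := supp_Mon hc
  have hch : ∀ v ∈ A, ∃ b ∈ Cc S M l K p (μ - v),
      (1 ≤ co x v → con K v c - bd K b ∈ Ca S M l K (μ - v - ep x)) := by
    intro v hv
    by_cases hxv : 1 ≤ co x v
    · rcases p with _ | q
      · refine ⟨0, Submodule.zero_mem _, fun _ => ?_⟩
        rw [con_Cc_zero hc, map_zero, sub_zero]; exact Submodule.zero_mem _
      · obtain ⟨b, hb, hb2⟩ := hB q rfl v (hAM v hv) hxv (con K v c) (con_Cc hc v) (by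
          rw [bd_con]
          apply Submodule.neg_mem
          have := con_Ca hbc v
          have h2 : μ - ep x - v = μ - v - ep x := by abel
          rwa [h2] at this)
        exact ⟨b, hb, fun _ => hb2⟩
    · exact ⟨0, Submodule.zero_mem _, fun h => absurd h hxv⟩
  choose! b hb hb2 using hch
  set m : K := ((co x μ : ℤ) : K) with hm
  have hm0 : m ≠ 0 := by
    rw [hm]; exact_mod_cast (by omega : co x μ ≠ 0)
  refine ⟨(-m⁻¹) • ∑ v ∈ A, cf K x v • wed K v (b v), ?_, ?_⟩
  · apply Submodule.smul_mem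
    apply Submodule.sum_mem
    intro v hv
    exact Submodule.smul_mem _ _ (wed_Cc (hAM v hv) (hb v hv))
  · have h2 : m • (c - bd K ((-m⁻¹) • ∑ v ∈ A, cf K x v • wed K v (b v))) =
        (m • c - Op K id (cf K x) c) +
        ∑ v ∈ A, cf K x v • (wed K v (con K v c - bd K (b v)) + b v) := by
      rw [Op_eq id (cf K x) A hA, map_smul, map_sum, smul_sub, smul_smul]
      have : m * -m⁻¹ = -1 := by field_simp
      rw [this, neg_one_smul, sub_neg_eq_add]
      have h3 : ∑ v ∈ A, cf K x v • (wed K v (con K v c - bd K (b v)) + b v) =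
          ∑ v ∈ A, cf K x v • wed K (id v) (con K v c) +
          ∑ v ∈ A, bd K (cf K x v • wed K v (b v)) := by
        rw [← Finset.sum_add_distrib]
        apply Finset.sum_congr rfl
        intro v _
        rw [map_smul, bd_wed, map_sub, id, ← smul_add]
        congr 1
        abel
      rw [h3]; abel
    have h3 : c - bd K ((-m⁻¹) • ∑ v ∈ A, cf K x v • wed K v (b v)) =
        m⁻¹ • (m • (c - bd K ((-m⁻¹) • ∑ v ∈ A, cf K x v • wed K v (b v)))) := by
      rw [smul_smul, inv_mul_cancel₀ hm0, one_smul]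
    rw [h3, h2]
    apply Submodule.smul_mem
    apply Submodule.add_mem
    · exact num_mem hx (Cc_le_Ca hc)
    · apply Submodule.sum_mem
      intro v hv
      by_cases hxv : 1 ≤ co x v
      · apply Submodule.smul_mem
        apply Submodule.add_mem
        · apply wed_Ca (hAM v hv)
          have := hb2 v hv hxv
          have h4 : μ - ep x - v = μ - v - ep x := by abel
          rwa [h4]
        · have h5 := Cc_le_Ca (hb v hv)
          refine Ca_mono hS ?_ h5
          have h6 : μ - ep x - (μ - v) = v - ep x := by abel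
          rw [h6]
          exact sub_ep_mem hx (hAM v hv).1 hxv
      · have : co x v = 0 := by
          have := (hAM v hv).1.2 x; omega
        have : cf K x v = 0 := by simp [cf, this]
        rw [this, zero_smul]; exact Submodule.zero_mem _

lemma BB_all [CharZero K] (hS : IsPair S M f) (p : ℕ) (hP : ∀ q ≤ p, PP S M l f K q) :
    ∀ μ : G, ∀ x : ℕ, 1 ≤ x → tt l f p ≤ dg μ → BB S M l K p μ x := by
  induction p with
  | zero =>
    intro μ x hx hμ
    by_cases h1 : 1 ≤ co x μ
    · exact BB_step hS hx h1 (fun q hq => by omega)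
    · intro c hc hbc
      have h0 : bd K c = 0 := Ca_bot_of_neg (i := x) hS (by
        rw [map_sub, co_ep_self]; omega) hbc
      obtain ⟨b, hb, hb2⟩ := hP 0 le_rfl μ hμ c hc h0
      exact ⟨b, hb, by rw [hb2, sub_self]; exact Submodule.zero_mem _⟩
  | succ p ih =>
    intro μ x hx hμ
    by_cases h1 : 1 ≤ co x μ
    · refine BB_step hS hx h1 (fun q hq v hv _ => ?_)
      have : q = p := by omega
      subst this
      apply ih (fun r hr => hP r (by omega)) _ x hx
      rw [map_sub, hv.2]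
      rw [tt_succ] at hμ
      linarith
    · intro c hc hbc
      have h0 : bd K c = 0 := Ca_bot_of_neg (i := x) hS (by
        rw [map_sub, co_ep_self]; omega) hbc
      obtain ⟨b, hb, hb2⟩ := hP (p + 1) le_rfl μ hμ c hc h0
      exact ⟨b, hb, by rw [hb2, sub_self]; exact Submodule.zero_mem _⟩

lemma BB_top [CharZero K] (hS : IsPair S M f) (p : ℕ) (hP : ∀ q < p, PP S M l f K q)
    {μ : G} {x : ℕ} (hx : 1 ≤ x) (hμ : tt l f p - 1 ≤ dg μ) (h1 : 1 ≤ co x μ) :
    BB S M l K p μ x := by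
  refine BB_step hS hx h1 (fun q hq v hv _ => ?_)
  subst hq
  apply BB_all hS q (fun r hr => hP r (by omega)) _ x hx
  rw [map_sub, hv.2]
  rw [tt_succ] at hμ
  linarith

/-- cycles are homologous to cycles of smaller multidegree -/
lemma S1 [CharZero K] (hS : IsPair S M f) (p : ℕ) (hP : ∀ q < p, PP S M l f K q)
    {μ : G} {x : ℕ} (hx : 1 ≤ x) (hμ : tt l f p - 1 ≤ dg μ) (h1 : 1 ≤ co x μ)
    {z : Ch K G} (hz : z ∈ Cc S M l K p μ) (hz0 : bd K z = 0) :
    ∃ z' ∈ Cc S M l K p (μ - ep x), bd K z' = 0 ∧ ∃ b ∈ Cc S M l K (p + 1) μ, z = z' + bd K b := by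
  obtain ⟨b, hb, hb2⟩ := BB_top hS p hP hx hμ h1 z hz (by rw [hz0]; exact Submodule.zero_mem _)
  refine ⟨z - bd K b, ?_, ?_, b, hb, by abel⟩
  · exact Cc_of_Ca (Submodule.sub_mem _ hz (bd_Cc hS hb)) hb2
  · rw [map_sub, hz0, bd_bd, sub_zero]

end Pool.Agent.Helper40.MukN
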