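import Pool.Agent.Helper40.MukN.Red

/-!
# Reduction of the exactness to one variable: the operators
-/

namespace Pool.Agent.Helper40.MukN

open Finset

variable {S M : Set ℤ} {l f : ℤ} {K : Type*} [Field K]

variable (S M l K) in
/-- boundaries -/
def BD (p : ℕ) (μ : G) (c : Ch K G) : Prop := ∃ b ∈ Cc S M l K (p + 1) μ, bd K b = c

lemma BD_add {p : ℕ} {μ : G} {c d : Ch K G} (h1 : BD S M l K p μ c) (h2 : BD S M l K p μ d) :
    BD S M l K p μ (c + d) := by
  obtain ⟨b, hb, rfl⟩ := h1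
  obtain ⟨b', hb', rfl⟩ := h2
  exact ⟨b + b', Submodule.add_mem _ hb hb', map_add _ _ _⟩

lemma BD_smul {p : ℕ} {μ : G} {c : Ch K G} (a : K) (h1 : BD S M l K p μ c) :
    BD S M l K p μ (a • c) := by
  obtain ⟨b, hb, rfl⟩ := h1
  exact ⟨a • b, Submodule.smul_mem _ _ hb, map_smul _ _ _⟩

lemma BD_mono (hS : IsPair S M f) {p : ℕ} {μ ν : G} {c : Ch K G} (h : ν - μ ∈ Gam S)
    (h1 : BD S M l K p μ c) : BD S M l K p ν c := by
  obtain ⟨b, hb, rfl⟩ := h1
  exact ⟨b, Cc_mono hS h hb, rfl⟩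

lemma BD_EE {a x : ℕ} (ha : 1 ≤ a) (hx : 1 ≤ x) {p : ℕ} {μ : G} {c : Ch K G}
    (h : BD S M l K p μ c) : BD S M l K p (μ + ep x - ep a) (EE K a x (co a μ) c) := by
  obtain ⟨b, hb, rfl⟩ := h
  exact ⟨_, EE_mem ha hx hb, by rw [EE_bd]⟩

lemma EE_add (a x : ℕ) (m n : ℤ) (c : Ch K G) :
    EE K a x (m + n) c = EE K a x m c + (n : K) • c := by
  simp only [EE, LinearMap.add_apply, LinearMap.sub_apply, LinearMap.smul_apply,
    LinearMap.id_apply]
  push_cast
  rw [add_smul]
  abel

/-- the key step: `x ∂/∂a` is injective on homology if `μ_a = 1` -/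
lemma key3 [CharZero K] (hS : IsPair S M f) (p : ℕ) (hP : ∀ q < p, PP S M l f K q)
    {μ : G} {a x : ℕ} (ha : 1 ≤ a) (hx : 1 ≤ x) (hax : a ≠ x) (hμ : tt l f p ≤ dg μ)
    (hμa : co a μ = 1) {z : Ch K G} (hz : z ∈ Cc S M l K p μ) (hz0 : bd K z = 0)
    (hE : BD S M l K p (μ + ep x - ep a) (EE K a x 1 z)) : BD S M l K p μ z := by
  by_cases hneg : co x μ < 0
  · rw [Cc_bot_of_neg hS hneg hz]
    exact ⟨0, Submodule.zero_mem _, map_zero _⟩
  by_cases h0 : co x μ = 0
  · -- `z = F E z`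
    have h1 := EF (K := K) (Ne.symm hax) h0 hz
    rw [hμa] at h1
    have h2 := BD_EE hx ha hE
    have h3 : co x (μ + ep x - ep a) = 1 := by
      rw [map_sub, map_add, h0, co_ep_self, co_ep_ne hax]; norm_num
    have h4 : μ + ep x - ep a + ep a - ep x = μ := by abel
    rw [h3, h4, h1] at h2
    simpa using h2
  · have h1 : 1 ≤ co x μ := by omega
    set κ : G := μ - ep x - ep a with hκ
    obtain ⟨c₁, hc₁, hc₁0, b₁, hb₁, hzc₁⟩ := S1 hS p hP hx (by omega) h1 hz hz0
    obtain ⟨c, hc, hc0, b₂, hb₂, hc₁c⟩ := S1 hS p hP ha (μ := μ - ep x) (by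
      rw [map_sub, dg_ep]; omega) (by
      rw [map_sub, co_ep_ne (Ne.symm hax), hμa]; norm_num) hc₁ hc₁0
    have hκa : co a κ = 0 := by
      rw [hκ, map_sub, map_sub, co_ep_ne (Ne.symm hax), co_ep_self, hμa]; norm_num
    have hκx : co x κ = co x μ - 1 := by
      rw [hκ, map_sub, map_sub, co_ep_ne hax, co_ep_self]; ring
    -- gamma facts
    have gx : ep x ∈ Gam S := ep_mem hS hx
    have ga : ep a ∈ Gam S := ep_mem hS ha
    -- `z = c + bd B`
    have hzc : BD S M l K p μ (z - c) := by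
      refine ⟨b₁ + b₂, Submodule.add_mem _ hb₁ (Cc_mono hS ?_ hb₂), ?_⟩
      · have : μ - (μ - ep x) = ep x := by abel
        rw [this]; exact gx
      · rw [map_add, hzc₁, hc₁c]; abel
    -- `c` is a boundary in `κ + 2 x`
    have hc1 : BD S M l K p (μ + ep x - ep a) c := by
      have h2 := BD_EE ha hx hzc
      rw [hμa, map_sub, EE_triv x 1 hκa hc] at h2
      have h3 := BD_add hE (BD_smul (-1) h2)
      have h4 : EE K a x 1 z + (-1 : K) • (EE K a x 1 z - ((1 : ℤ) : K) • c) = c := by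
        simp
      rwa [h4] at h3
    -- apply `F`
    have hFc : BD S M l K p μ (EE K x a (co x κ) c + (2 : K) • c) := by
      have h2 := BD_EE hx ha hc1
      have h3 : co x (μ + ep x - ep a) = co x κ + 2 := by
        rw [map_sub, map_add, co_ep_self, co_ep_ne hax, hκx]; ring
      have h4 : μ + ep x - ep a + ep a - ep x = μ := by abel
      rw [h3, h4, EE_add] at h2
      exact_mod_cast h2
    -- `F_κ c` is homologous to `c₂`
    have hFκ : EE K x a (co x κ) c ∈ Cc S M l K p (κ + ep a - ep x) := EE_mem hx ha hc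
    have hFκ' : EE K x a (co x κ) c ∈ Cc S M l K p (κ + ep a) := by
      refine Cc_mono hS ?_ hFκ
      have : κ + ep a - (κ + ep a - ep x) = ep x := by abel
      rw [this]; exact gx
    obtain ⟨c₂, hc₂, hc₂0, b₄, hb₄, hFc₂⟩ := S1 hS p hP ha (μ := κ + ep a) (by
      rw [hκ, map_add, map_sub, map_sub, dg_ep, dg_ep]; omega) (by
      rw [map_add, hκa, co_ep_self]; norm_num) hFκ' (by rw [EE_bd, hc0, map_zero])
    have hka : κ + ep a - ep a = κ := by abel
    rw [hka] at hc₂
    -- `(k-1) c - c₂` is a boundary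
    have h5 : BD S M l K p μ (((co x κ : ℤ) : K) • c - c₂) := by
      have h6 : EE K a x 1 (EE K x a (co x κ) c) = ((co x κ : ℤ) : K) • c := EF hax hκa hc
      have h7 : EE K a x 1 c₂ = c₂ := by rw [EE_triv x 1 hκa hc₂]; simp
      have h8 : BD S M l K p (κ + ep a) (bd K b₄) := ⟨b₄, hb₄, rfl⟩
      have h9 := BD_EE ha hx h8
      have h10 : co a (κ + ep a) = 1 := by rw [map_add, hκa, co_ep_self]; norm_num
      have h11 : bd K b₄ = EE K x a (co x κ) c - c₂ := by rw [hFc₂]; abel
      rw [h10, h11, map_sub, h6, h7] at h9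
      refine BD_mono hS ?_ h9
      have : μ - (κ + ep a + ep x - ep a) = ep a := by rw [hκ]; abel
      rw [this]; exact ga
    have h12 : BD S M l K p μ (EE K x a (co x κ) c - c₂) := by
      refine ⟨b₄, Cc_mono hS ?_ hb₄, by rw [hFc₂]; abel⟩
      have : μ - (κ + ep a) = ep x := by rw [hκ]; abel
      rw [this]; exact gx
    -- sum
    have h13 : BD S M l K p μ (((co x μ + 1 : ℤ) : K) • c) := by
      have h14 := BD_add (BD_add hFc (BD_smul (-1) h12)) h5
      have h15 : EE K x a (co x κ) c + (2 : K) • c + (-1 : K) • (EE K x a (co x κ) c - c₂) +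
          (((co x κ : ℤ) : K) • c - c₂) = ((co x μ + 1 : ℤ) : K) • c := by
        rw [hκx]
        push_cast
        module
      rwa [h15] at h14
    have h16 : BD S M l K p μ c := by
      have h17 := BD_smul (((co x μ + 1 : ℤ) : K)⁻¹) h13
      rw [smul_smul, inv_mul_cancel₀, one_smul] at h17
      · exact h17
      · exact_mod_cast (by omega : co x μ + 1 ≠ 0)
    have h18 := BD_add hzc h16
    rwa [sub_add_cancel] at h18

lemma exists_new' (μ : ℕ →₀ ℤ) (n : ℕ) : ∃ a, n < a ∧ μ a = 0 := by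
  refine ⟨μ.support.sup id + n + 1, by omega, ?_⟩
  by_contra h
  have h1 : μ.support.sup id + n + 1 ∈ μ.support := by
    rw [Finsupp.mem_support_iff]; exact h
  have h2 := Finset.le_sup (f := id) h1
  simp only [id] at h2
  omega

lemma exists_new (μ : G) (n : ℕ) : ∃ a, n < a ∧ co a μ = 0 := exists_new' μ n

lemma sum_le_dg' (μ : ℕ →₀ ℤ) (h : ∀ i, 0 ≤ μ i) (T : Finset ℕ) :
    ∑ i ∈ T, μ i ≤ Finsupp.liftAddHom (fun _ : ℕ => AddMonoidHom.id ℤ) μ := by
  rw [Finsupp.liftAddHom_apply, Finsupp.sum_of_support_subset (s := μ.support ∪ T) μ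
    Finset.subset_union_left]
  · exact Finset.sum_le_sum_of_subset_of_nonneg Finset.subset_union_right (fun i _ _ => h i)
  · intro i _; simp

lemma sum_le_dg (μ : G) (h : ∀ i, 0 ≤ co i μ) (T : Finset ℕ) : ∑ i ∈ T, co i μ ≤ dg μ :=
  sum_le_dg' μ h T

lemma key4 [CharZero K] (hS : IsPair S M f) (p : ℕ) (hP : ∀ q < p, PP S M l f K q)
    {μ : G} {y : ℕ} (hy : 2 ≤ y) (hμ : tt l f p ≤ dg μ) (hμy : 1 ≤ co y μ)
    (H : EX S M l K p (μ - ep y + ep 1)) : EX S M l K p μ := by
  intro z hz hz0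
  obtain ⟨a, hay, haμ⟩ := exists_new μ y
  -- move one `y` to `a`
  set z' := EE K y a (co y μ) z with hz'
  have h1 : z' ∈ Cc S M l K p (μ + ep a - ep y) := EE_mem (by omega) (by omega) hz
  have h10 : bd K z' = 0 := by rw [hz', EE_bd, hz0, map_zero]
  have h1a : co a (μ + ep a - ep y) = 1 := by
    rw [map_sub, map_add, haμ, co_ep_self, co_ep_ne (by omega)]; norm_num
  have h2 : BD S M l K p (μ + ep a - ep y) z' := by
    apply key3 hS p hP (a := a) (x := 1) (by omega) le_rfl (by omega) _ h1a h1 h10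
    · have h3 := EE_mem (K := K) (a := a) (x := 1) (by omega) le_rfl h1
      rw [h1a] at h3
      have h4 : μ + ep a - ep y + ep 1 - ep a = μ - ep y + ep 1 := by abel
      rw [h4] at h3 ⊢
      exact H _ h3 (by rw [EE_bd, h10, map_zero])
    · rw [map_sub, map_add, dg_ep, dg_ep]; omega
  have h3 := BD_EE (a := a) (x := y) (by omega) (by omega) h2
  have h4 : μ + ep a - ep y + ep y - ep a = μ := by abel
  rw [h1a, h4, hz', EF (by omega) haμ hz] at h3
  have h5 := BD_smul (((co y μ : ℤ) : K)⁻¹) h3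
  rw [smul_smul, inv_mul_cancel₀, one_smul] at h5
  · exact h5
  · exact_mod_cast (by omega : co y μ ≠ 0)

/-- reduction to one variable -/
lemma reduce [CharZero K] (hS : IsPair S M f) (p : ℕ) (hP : ∀ q < p, PP S M l f K q)
    (H1 : ∀ μ : G, tt l f p ≤ dg μ → (∀ i, 0 ≤ co i μ) → (∀ i, 2 ≤ i → co i μ = 0) →
      EX S M l K p μ) :
    PP S M l f K p := by
  have main : ∀ N : ℕ, ∀ μ : G, tt l f p ≤ dg μ → dg μ - co 0 μ - co 1 μ ≤ N →
      EX S M l K p μ := by
    intro N
    induction N with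
    | zero =>
      intro μ hμ hN c hc hc0
      by_cases hneg : ∃ i, co i μ < 0
      · obtain ⟨i, hi⟩ := hneg
        rw [Cc_bot_of_neg hS hi hc]
        exact ⟨0, Submodule.zero_mem _, map_zero _⟩
      push Not at hneg
      refine H1 μ hμ hneg (fun i hi => ?_) c hc hc0
      have h1 := sum_le_dg μ hneg {0, 1, i}
      rw [Finset.sum_insert (by simp; omega), Finset.sum_insert (by simp; omega),
        Finset.sum_singleton] at h1
      have := hneg i
      push_cast at hN
      omega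
    | succ N ih =>
      intro μ hμ hN c hc hc0
      by_cases hneg : ∃ i, co i μ < 0
      · obtain ⟨i, hi⟩ := hneg
        rw [Cc_bot_of_neg hS hi hc]
        exact ⟨0, Submodule.zero_mem _, map_zero _⟩
      push Not at hneg
      by_cases h2 : ∀ i, 2 ≤ i → co i μ = 0
      · exact H1 μ hμ hneg h2 c hc hc0
      · push Not at h2
        obtain ⟨y, hy, hy2⟩ := h2
        have hy3 := hneg y
        refine key4 hS p hP hy hμ (by omega) ?_ c hc hc0
        apply ih
        · rw [map_add, map_sub, dg_ep, dg_ep]; omega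
        · rw [map_add, map_sub, dg_ep, dg_ep, map_add, map_sub, map_add, map_sub,
            co_ep_ne (i := 0) (by omega), co_ep_ne (i := 0) (j := 1) (by omega),
            co_ep_ne (i := 1) (by omega), co_ep_self]
          push_cast at hN
          omega
  intro μ hμ
  exact main (dg μ - co 0 μ - co 1 μ).toNat μ hμ (Int.self_le_toNat _)

end Pool.Agent.Helper40.MukN
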