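import Pool.Agent.Helper40.MukN.Gr

/-!
# Sections meeting transversally
-/

open scoped TensorProduct

namespace Pool.Agent.Helper40.MukN

open Finset

variable {K : Type*} [Field K] {R : Type*} [CommRing R] [Algebra K R]
  (𝒜 : ℕ → Submodule K R) [GradedAlgebra 𝒜]

/-- forms vanishing at the first `i` points -/
noncomputable def JT {e : ℕ} (P : Fin e → R →ₐ[K] K) (i : ℕ) (m : ℤ) : Submodule K R where
  carrier := {r | r ∈ AZ 𝒜 m ∧ ∀ j : Fin e, (j : ℕ) < i → P j r = 0}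
  add_mem' := by
    rintro a b ⟨h1, h2⟩ ⟨h3, h4⟩
    exact ⟨Submodule.add_mem _ h1 h3, fun j hj => by rw [map_add, h2 j hj, h4 j hj, add_zero]⟩
  zero_mem' := ⟨Submodule.zero_mem _, fun j _ => map_zero _⟩
  smul_mem' := by
    rintro k a ⟨h1, h2⟩
    exact ⟨Submodule.smul_mem _ _ h1, fun j hj => by rw [map_smul, h2 j hj, smul_zero]⟩

/-- the algebraic data for sections meeting transversally -/
theorem adata_trans {n e : ℕ} (he : 0 < e) (x : Fin n → R) (hx : ∀ j, x j ∈ 𝒜 1)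
    (hreg : RingTheory.Sequence.IsWeaklyRegular R (List.ofFn x))
    (P : Fin e → R →ₐ[K] K) (hxP : ∀ i j, P i (x j) = 0)
    (hP : ∀ m, ∀ r ∈ 𝒜 m, (∀ i, P i r = 0) → r ∈ Ideal.span (Set.range x))
    (f : ℤ) (hf : ∀ i : Fin e, ∀ w : ℤ, (∃ m : ℕ, (m : ℤ) = w ∧ ∃ r ∈ 𝒜 m, P i r ≠ 0) ∨
      ∃ m : ℕ, (m : ℤ) = f - w ∧ ∃ r ∈ 𝒜 m, P i r ≠ 0 ∧ ∀ j ≠ i, P j r = 0) :
    AData (AZ 𝒜) (fun j => if h : j < n then x ⟨j, h⟩ else 0) n e (JT 𝒜 P)
      (fun i => (if h : i < e then P ⟨i, h⟩ else P ⟨0, he⟩).toLinearMap)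
      (fun i => if h : i < e then P ⟨i, h⟩ else P ⟨0, he⟩) (prZ 𝒜) f := by
  have hxN : ∀ j < n, (if h : j < n then x ⟨j, h⟩ else 0) ∈ 𝒜 1 := by
    intro j hj
    rw [dif_pos hj]; exact hx _
  have hId : Id (fun j => if h : j < n then x ⟨j, h⟩ else 0) n = Ideal.span (Set.range x) := by
    unfold Id
    congr 1
    ext y
    constructor
    · rintro ⟨j, hj, rfl⟩
      exact ⟨⟨j, hj⟩, by simp only [dif_pos (show j < n from hj)]⟩
    · rintro ⟨j, rfl⟩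
      exact ⟨j, j.2, by simp⟩
  have hPId : ∀ i : Fin e, ∀ r ∈ Ideal.span (Set.range x), P i r = 0 := by
    intro i r hr
    have : Ideal.span (Set.range x) ≤ RingHom.ker (P i) := by
      rw [Ideal.span_le]
      rintro _ ⟨j, rfl⟩
      exact hxP i j
    exact this hr
  constructor
  · exact AZ_one 𝒜
  · intro a b r s hr hs; exact AZ_mul 𝒜 hr hs
  · intro m hm r hr; exact AZ_neg 𝒜 hm hr
  · intro j hj
    have h := AZ_nat 𝒜 1
    rw [Nat.cast_one] at h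
    rw [h]; exact hxN j hj
  · exact regSeq_of hreg
  · intro m r hr; exact ⟨hr, fun j hj => absurd hj (Nat.not_lt_zero _)⟩
  · intro i m r hr; exact hr.1
  · intro i m r hr; exact ⟨hr.1, fun j hj => hr.2 j (Nat.lt_succ_of_lt hj)⟩
  · intro i _ a b s r hs hr
    exact ⟨AZ_mul 𝒜 hs hr.1, fun j hj => by rw [map_mul, hr.2 j hj, mul_zero]⟩
  · intro m r hr
    have h1 : r ∈ Id (fun j => if h : j < n then x ⟨j, h⟩ else 0) n := by
      rw [hId]
      rcases AZ_cases 𝒜 hr.1 with ⟨k, _, hk⟩ | rfl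
      · exact hP k r hk (fun i => hr.2 i i.2)
      · exact Submodule.zero_mem _
    obtain ⟨s, hs1, hs2⟩ := prZ_Id 𝒜 hxN m h1
    rw [prZ_same 𝒜 hr.1] at hs2
    exact ⟨s, hs1, hs2⟩
  · intro i hi m r hr h0
    refine ⟨hr.1, fun j hj => ?_⟩
    rcases Nat.lt_succ_iff_lt_or_eq.mp hj with h | h
    · exact hr.2 j h
    · have h1 : j = ⟨i, hi⟩ := Fin.ext h
      rw [h1]
      simpa [dif_pos hi] using h0
  · intro i hi m r hr
    have := hr.2 ⟨i, hi⟩ (Nat.lt_succ_self i)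
    simpa [dif_pos hi] using this
  · intro i hi a b s r _ _
    simp only [dif_pos hi, AlgHom.toLinearMap_apply, map_mul]
  · intro i hi j hj
    simp only [dif_pos hi, dif_pos hj]
    exact hxP _ _
  · intro i hi w hw
    rcases hf ⟨i, hi⟩ (f - w) with ⟨m, hm, r, hr, hr0⟩ | ⟨m, hm, r, hr, hr0, hr1⟩
    · refine ⟨r, ?_, by simpa [dif_pos hi] using hr0⟩
      rw [← hm, AZ_nat]; exact hr
    · exfalso
      have hm' : (m : ℤ) = w := by rw [hm]; ring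
      have h1 : r ∈ JT 𝒜 P i w := by
        refine ⟨by rw [← hm', AZ_nat]; exact hr, fun j hj => hr1 j ?_⟩
        rintro rfl
        exact absurd hj (lt_irrefl _)
      have h2 := hw r h1
      apply hr0
      simpa [dif_pos hi] using h2
  · intro m r hr; exact prZ_same 𝒜 hr
  · intro m m' h r hr; exact prZ_ne 𝒜 h hr
  · intro m r hr
    refine ⟨prZ_mem 𝒜 m r, fun j _ => ?_⟩
    obtain ⟨s, _, hs2⟩ := prZ_Id 𝒜 hxN m hr
    rw [hs2]
    apply hPId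
    rw [← hId, mem_Id_iff]
    exact ⟨s, rfl⟩

/-- **Sections meeting transversally.** -/
theorem transversal [CharZero K] {n e : ℕ} (he : 0 < e) (x : Fin n → R) (hx : ∀ j, x j ∈ 𝒜 1)
    (hreg : RingTheory.Sequence.IsWeaklyRegular R (List.ofFn x))
    (P : Fin e → R →ₐ[K] K) (hxP : ∀ i j, P i (x j) = 0)
    (hP : ∀ m, ∀ r ∈ 𝒜 m, (∀ i, P i r = 0) → r ∈ Ideal.span (Set.range x))
    (f : ℤ) (hf : ∀ i : Fin e, ∀ w : ℤ, (∃ m : ℕ, (m : ℤ) = w ∧ ∃ r ∈ 𝒜 m, P i r ≠ 0) ∨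
      ∃ m : ℕ, (m : ℤ) = f - w ∧ ∃ r ∈ 𝒜 m, P i r ≠ 0 ∧ ∀ j ≠ i, P j r = 0)
    {l d : ℕ} (hl : f + 2 + d ≤ l) {p q : ℕ} (hp : p ≤ d) (hq : 1 ≤ q) :
    KoszulZero 𝒜 l p q :=
  koszulZero_of (adata_trans 𝒜 he x hx hreg P hxP hP f hf) (AZ_nat 𝒜) hl hp hq

end Pool.Agent.Helper40.MukN
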